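import Pool.Agent.J4.H17.ZC.Quo

/-!
# Groups acting on curves
-/

set_option autoImplicit false

open FF

namespace Pool.Agent.J4.H17.ZC

/-- The image of a point of the curve under the automorphism of the curve given by an automorphism
of its function field. -/
def act {k K : Type} [Field k] [Field K] [Algebra k K] (s : K ≃ₐ[k] K) (P : Place k K) :
    Place k K where
  ord f := P.ord (s.symm f)
  ord_zero := by rw [map_zero, P.ord_zero]
  ord_mul := by
    intro f g hf hg
    rw [map_mul, P.ord_mul (by simpa using hf) (by simpa using hg)]
  ord_add := by
    intro f g hf hg hfg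
    rw [map_add]
    exact P.ord_add (by simpa using hf) (by simpa using hg)
      (by rw [← map_add]; exact (map_ne_zero_iff _ s.symm.injective).2 hfg)
  ord_const := by intro c hc; rw [AlgEquiv.commutes, P.ord_const hc]
  surj := by
    obtain ⟨t, h0, ht⟩ := P.surj
    exact ⟨s t, by simpa using h0, by simpa using ht⟩

end Pool.Agent.J4.H17.ZC
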