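import Pool.Agent.J4.H17.ZC.Gen
import Pool.Agent.N75.CV.NF
import Pool.Agent.W603.PV.Disc
import Pool.Agent.W619.PQ.Approx

/-!
# Counting the embeddings which induce a given place
-/

set_option autoImplicit false

open FF IntermediateField Pool.Agent.W603.LV Pool.Agent.W603.PV Pool.Agent.W619.PQ
  Pool.Agent.N162.CV Pool.Agent.N75.CV

namespace Pool.Agent.J4.H17.ZC

section pb

variable {k : Type} [Field k] [IsAlgClosed k] [CharZero k] {K L : Type} [Field K] [Field L]
  [Algebra k K] [Algebra k L] [IsFF k K] [IsFF k L]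

/-- the restriction of a place under an embedding -/
noncomputable def pb (φ : K →ₐ[k] L) (P : Place k L) : Place k K :=
  letI := φ.toRingHom.toAlgebra
  haveI : IsScalarTower k K L := IsScalarTower.of_algebraMap_eq fun c => (φ.commutes c).symm
  under K P

theorem pb_spec (φ : K →ₐ[k] L) (P : Place k L) :
    ∃ e : ℕ, 0 < e ∧ ∀ f : K, P.ord (φ f) = e * (pb φ P).ord f := by
  let _ := φ.toRingHom.toAlgebra
  have _ : IsScalarTower k K L := IsScalarTower.of_algebraMap_eq fun c => (φ.commutes c).symm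
  exact ⟨ram K P, (ram_spec (F := K) P).1, fun f => ord_under P f⟩

end pb

theorem exists_unif_one {k K : Type} [Field k] [Field K] [Algebra k K] (T : Finset (Place k K))
    (w : Place k K) : ∃ z : K, z ≠ 0 ∧ w.ord z = 1 ∧ ∀ w' ∈ T, w' ≠ w → w'.ord z = 0 := by
  classical
  obtain ⟨π, hπ0, hπ⟩ := w.surj
  obtain ⟨b, hb1, hb2⟩ := approx_one (T.erase w) w (by simp) (π - 1) 2
  have h1 : (1 : K) + b = π + (b - (π - 1)) := by ring
  have h2 : (1 : K) + b ≠ 0 ∧ w.ord (1 + b) = 1 := by
    rw [h1]
    rcases hb1 with h | h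
    · rw [h, add_zero]; exact ⟨hπ0, hπ⟩
    · by_cases h0 : b - (π - 1) = 0
      · rw [h0, add_zero]; exact ⟨hπ0, hπ⟩
      · have h3 := w.ord_add_eq hπ0 h0 (by omega)
        exact ⟨h3.1, by rw [h3.2, hπ]⟩
  refine ⟨1 + b, h2.1, h2.2, ?_⟩
  intro w' hw' hne
  rcases hb2 w' (Finset.mem_erase.2 ⟨hne, hw'⟩) with h | h
  · rw [h, add_zero, w'.ord_one]
  · by_cases h0 : b = 0
    · rw [h0, add_zero, w'.ord_one]
    · have h3 := w'.ord_add_eq (f := 1) one_ne_zero h0 (by rw [w'.ord_one]; omega)
      rw [h3.2, w'.ord_one]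

section count

variable {k : Type} [Field k] [IsAlgClosed k] [CharZero k] {F K L : Type} [Field F] [Field K]
  [Field L] [Algebra k F] [Algebra k K] [Algebra k L] [Algebra F K] [Algebra F L]
  [IsScalarTower k F K] [IsScalarTower k F L] [IsFF k F] [IsFF k K] [IsFF k L]
  [FiniteDimensional F K] [Fintype (K →ₐ[F] L)]

theorem count (hN : ∀ z : K, algebraMap F L (Algebra.norm F z) = ∏ φ : K →ₐ[F] L, φ z)
    (P : Place k L) (t : F) (ht : (under F P).ord t = 1)
    (hu : ∀ v : Place k F, 0 < v.ord t → v = under F P) (w : Place k K) :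
    tot (fun φ : K →ₐ[F] L => pb (φ.restrictScalars k) P) w =
      max (w.ord (algebraMap F K t)) 0 := by
  classical
  obtain ⟨T, hT, hTn⟩ := nf_ k F K (under F P)
  -- the places of `T` are the places over the place of `F` below `P`
  have hT1 : ∀ w : Place k K, w ∈ T → w.ord (algebraMap F K t) = ram F w := by
    intro w hw
    rw [hT] at hw
    have h1 : under F P = under F w := by
      refine Place.eq_of_le _ _ fun f hf0 hf => ?_
      have h2 := (hw f (Or.inr hf)).resolve_left (by simpa using hf0)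
      rw [ord_under] at h2
      have h3 : (0 : ℤ) < ram F w := by exact_mod_cast (ram_spec (F := F) w).1
      by_contra hcon
      push Not at hcon
      nlinarith
    rw [ord_under, ← h1, ht, mul_one]
  have hT2 : ∀ w : Place k K, 0 < w.ord (algebraMap F K t) → w ∈ T := by
    intro w hw
    rw [hT]
    have h3 : (0 : ℤ) < ram F w := by exact_mod_cast (ram_spec (F := F) w).1
    have h1 : 0 < (under F w).ord t := by
      rw [ord_under] at hw
      by_contra hcon
      push Not at hcon
      nlinarith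
    have h2 := hu _ h1
    intro h hh
    rcases hh with hh | hh
    · exact Or.inl (by rw [hh, map_zero])
    · right
      rw [ord_under, h2]
      positivity
  have hP : (0 : ℤ) < ram F P := by exact_mod_cast (ram_spec (F := F) P).1
  have ht0 : t ≠ 0 := by
    rintro rfl
    rw [Place.ord_zero] at ht
    omega
  have hpb : ∀ φ : K →ₐ[F] L, ∃ e : ℕ, 0 < e ∧
      ∀ f : K, P.ord (φ f) = e * (pb (φ.restrictScalars k) P).ord f := fun φ =>
    pb_spec (φ.restrictScalars k) P
  have hpbt : ∀ φ : K →ₐ[F] L, ∃ e : ℕ, 0 < e ∧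
      (∀ f : K, P.ord (φ f) = e * (pb (φ.restrictScalars k) P).ord f) ∧
      (e : ℤ) * (pb (φ.restrictScalars k) P).ord (algebraMap F K t) = ram F P := by
    intro φ
    obtain ⟨e, he, h⟩ := hpb φ
    refine ⟨e, he, h, ?_⟩
    rw [← h, AlgHom.commutes, ord_under, ht, mul_one]
  have hpbT : ∀ φ : K →ₐ[F] L, pb (φ.restrictScalars k) P ∈ T := by
    intro φ
    obtain ⟨e, he, _, h⟩ := hpbt φ
    apply hT2
    have h3 : (0 : ℤ) < e := by exact_mod_cast he
    by_contra hcon
    push Not at hcon
    nlinarith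
  rw [tot_apply]
  by_cases hw : w ∈ T
  · obtain ⟨z, hz0, hz1, hz2⟩ := exists_unif_one T w
    have h1 : P.ord (algebraMap F L (Algebra.norm F z)) = ram F P := by
      rw [ord_under, hTn z hz0, Finset.sum_eq_single_of_mem w hw fun w' hw' hne => hz2 w' hw' hne,
        hz1, mul_one]
    have h2 : P.ord (∏ φ : K →ₐ[F] L, φ z) = ∑ φ : K →ₐ[F] L, P.ord (φ z) := by
      have h3 : ∀ S : Finset (K →ₐ[F] L), P.ord (∏ φ ∈ S, φ z) = ∑ φ ∈ S, P.ord (φ z) := by
        intro S
        induction S using Finset.induction_on with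
        | empty => rw [Finset.prod_empty, Finset.sum_empty, P.ord_one]
        | insert a S ha ih =>
          rw [Finset.prod_insert ha, Finset.sum_insert ha, P.ord_mul (by simpa using hz0)
            (Finset.prod_ne_zero_iff.2 fun φ _ => by simpa using hz0), ih]
      exact h3 _
    rw [hN, h2] at h1
    have hw0 : (0 : ℤ) < w.ord (algebraMap F K t) := by
      rw [hT1 w hw]
      exact_mod_cast (ram_spec (F := F) w).1
    have h3 : ∀ φ : K →ₐ[F] L, P.ord (φ z) * w.ord (algebraMap F K t) =
        if pb (φ.restrictScalars k) P = w then (ram F P : ℤ) else 0 := by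
      intro φ
      obtain ⟨e, he, h4, h5⟩ := hpbt φ
      split_ifs with h
      · rw [h4, h, hz1, mul_one, ← h5, h]
      · rw [h4, hz2 _ (hpbT φ) h, mul_zero, zero_mul]
    have h4 : (ram F P : ℤ) * w.ord (algebraMap F K t) =
        ((Finset.univ.filter fun φ : K →ₐ[F] L => pb (φ.restrictScalars k) P = w).card : ℤ) *
          ram F P := by
      rw [← h1, Finset.sum_mul, Finset.sum_congr rfl fun φ _ => h3 φ, ← Finset.sum_filter,
        Finset.sum_const, nsmul_eq_mul, h1]
    rw [max_eq_left hw0.le]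
    have h5 : (ram F P : ℤ) * w.ord (algebraMap F K t) = ram F P *
        ((Finset.univ.filter fun φ : K →ₐ[F] L => pb (φ.restrictScalars k) P = w).card : ℤ) := by
      rw [h4, mul_comm]
    exact (mul_left_cancel₀ hP.ne' h5).symm
  · have h1 : ∀ φ : K →ₐ[F] L, pb (φ.restrictScalars k) P ≠ w := fun φ h => hw (h ▸ hpbT φ)
    have h2 : ¬ 0 < w.ord (algebraMap F K t) := fun h => hw (hT2 w h)
    rw [max_eq_right (by omega)]
    rw [Nat.cast_eq_zero, Finset.card_eq_zero, Finset.filter_eq_empty_iff]
    intro φ _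
    exact h1 φ

end count

end Pool.Agent.J4.H17.ZC
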