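import Pool.Agent.Helper386.D5V.Helper386_FF_Riemann

/-!
# Zero-cycles and rational equivalence on products of curves

A smooth projective curve over the algebraically closed field `k` is given by its function field
`K`, its points are the places of `K` over `k`.
-/

set_option autoImplicit false

open FF

namespace Pool.Agent.J4.H17.ZC

/-- A set of closed points, together with the maps to it from the sets of points of smooth
projective curves (given by their function fields `L`) which are counted as morphisms. -/
structure Var (k : Type) [Field k] where
  /-- the closed points -/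
  Pt : Type
  /-- the maps from the points of the curve with function field `L` which are morphisms -/
  IsMor : ∀ (L : Type) [Field L] [Algebra k L], (Place k L → Pt) → Prop

section

variable (k : Type) [Field k]

/-- The smooth projective curve with function field `K`. The morphisms to it from the smooth
projective curve with function field `L` are the constant maps and the maps induced by embeddings
`φ : K → L` of function fields: these map a place `P` to the place `Q` which is the restriction of
`P` to `K`, up to the ramification index `e`. -/
abbrev curve (K : Type) [Field K] [Algebra k K] : Var k where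
  Pt := Place k K
  IsMor L _ _ x := (∃ Q : Place k K, ∀ P, x P = Q) ∨
    ∃ φ : K →ₐ[k] L, ∀ P : Place k L, ∃ e : ℕ, 0 < e ∧ ∀ f : K, P.ord (φ f) = e * (x P).ord f

variable {k}

/-- The product `X × Y`. -/
abbrev Var.prod (X Y : Var k) : Var k where
  Pt := X.Pt × Y.Pt
  IsMor L _ _ x := X.IsMor L (fun P => (x P).1) ∧ Y.IsMor L (fun P => (x P).2)

/-- The power `X ^ ι`. -/
abbrev Var.pow (X : Var k) (ι : Type) : Var k where
  Pt := ι → X.Pt
  IsMor L _ _ x := ∀ i, X.IsMor L (fun P => x P i)

end

section

variable {k : Type} [Field k] [CharZero k]

/-- The group of the zero-cycles on `X` rationally equivalent to zero: it is generated by the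
images of the divisors of nonzero rational functions on smooth projective curves under the
morphisms to `X`. -/
noncomputable def RatEq (X : Var k) : AddSubgroup (X.Pt →₀ ℤ) :=
  AddSubgroup.closure {z | ∃ (L : Type) (_ : Field L) (_ : Algebra k L) (_ : IsFF k L)
    (x : Place k L → X.Pt) (f : L), X.IsMor L x ∧ f ≠ 0 ∧ z = Finsupp.mapDomain x (divisor k f)}

/-- The space `L(D)` of the functions `f` with `div f + D ≥ 0`. -/
def RR {K : Type} [Field K] [Algebra k K] (D : Place k K →₀ ℤ) : Submodule k K :=
  Submodule.span k {f : K | f = 0 ∨ ∀ P : Place k K, -D P ≤ P.ord f}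

/-- The genus of the curve with function field `K`: `g` is the integer such that `L(D)` has
dimension `deg D + 1 - g` for all divisors `D` of sufficiently large degree. -/
def HasGenus (k : Type) [Field k] (K : Type) [Field K] [Algebra k K] (g : ℕ) : Prop :=
  ∃ N : ℤ, ∀ D : Place k K →₀ ℤ, N ≤ D.sum (fun _ n => n) →
    (Module.finrank k (RR D) : ℤ) = D.sum (fun _ n => n) + 1 - g

/-- A divisor on a curve which is principal. -/
def Principal (k : Type) [Field k] [CharZero k] (K : Type) [Field K] [Algebra k K] [IsFF k K]
    (D : Place k K →₀ ℤ) : Prop :=
  ∃ f : K, f ≠ 0 ∧ D = divisor k f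

end

/-- The exterior product `a 1 × ... × a n` of zero-cycles, as a zero-cycle on the product. -/
noncomputable def ext {A : Type} {n : ℕ} (a : Fin n → A →₀ ℤ) : (Fin n → A) →₀ ℤ :=
  Finsupp.onFinset (Fintype.piFinset fun i => (a i).support) (fun x => ∏ i, a i (x i)) (by
    intro x hx
    rw [Fintype.mem_piFinset]
    intro i
    rw [Finsupp.mem_support_iff]
    intro h
    exact hx (Finset.prod_eq_zero (Finset.mem_univ i) h))

/-- The alternating sum of the exterior products of `n` zero-cycles. -/
noncomputable def altSum {A : Type} {n : ℕ} (a : Fin n → A →₀ ℤ) : (Fin n → A) →₀ ℤ :=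
  ∑ σ : Equiv.Perm (Fin n), (Equiv.Perm.sign σ : ℤ) • ext fun i => a (σ i)

end Pool.Agent.J4.H17.ZC
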