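import Pool.Agent.J4.H17.ZC.Rep

/-!
# Functions on symmetric groups killed by symmetrization on one side and by antisymmetrization on
the other side
-/

set_option autoImplicit false

namespace Pool.Agent.J4.H17.ZC

open Equiv Finset

section

variable {X : Type} [Fintype X] [DecidableEq X]

/-- right translations -/
def rtr (X : Type) : Perm X →* Module.End ℚ (Perm X → ℚ) where
  toFun σ :=
    { toFun := fun f u => f (u * σ)
      map_add' := fun _ _ => rfl
      map_smul' := fun _ _ => rfl }
  map_one' := by ext f u; simp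
  map_mul' σ τ := by
    ext f u
    simp [mul_assoc]

/-- left translations, twisted by the sign -/
def ltr (X : Type) [Fintype X] [DecidableEq X] : Perm X →* Module.End ℚ (Perm X → ℚ) where
  toFun σ :=
    { toFun := fun f u => ((Perm.sign σ : ℤ) : ℚ) * f (σ⁻¹ * u)
      map_add' := fun f g => by ext u; simp [mul_add]
      map_smul' := fun c f => by ext u; simp; ring }
  map_one' := by ext f u; simp
  map_mul' σ τ := by
    ext f u
    simp [mul_assoc]

theorem rtr_apply (σ : Perm X) (f : Perm X → ℚ) (u : Perm X) : rtr X σ f u = f (u * σ) := rfl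

theorem ltr_apply (σ : Perm X) (f : Perm X → ℚ) (u : Perm X) :
    ltr X σ f u = ((Perm.sign σ : ℤ) : ℚ) * f (σ⁻¹ * u) := rfl

theorem conj_mem_PT {T : Finset X} (σ : Perm X) {τ : Perm X} (h : τ ∈ PT T) :
    σ * τ * σ⁻¹ ∈ PT (T.map σ.toEmbedding) := by
  rw [mem_PT] at h ⊢
  intro x hx
  have h1 : σ⁻¹ x ∉ T := by
    intro h2
    apply hx
    rw [mem_map]
    exact ⟨σ⁻¹ x, h2, by simp⟩
  rw [Perm.mul_apply, Perm.mul_apply, h _ h1]
  simp

theorem sum_conj {M : Type} [AddCommMonoid M] (T : Finset X) (σ : Perm X) (F : Perm X → M) :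
    ∑ τ ∈ PT T, F (σ * τ * σ⁻¹) = ∑ τ ∈ PT (T.map σ.toEmbedding), F τ := by
  refine Finset.sum_nbij' (fun τ => σ * τ * σ⁻¹) (fun τ => σ⁻¹ * τ * σ) ?_ ?_ ?_ ?_ ?_
  · intro τ hτ; exact conj_mem_PT σ hτ
  · intro τ hτ
    have h := conj_mem_PT σ⁻¹ hτ
    rw [inv_inv, map_map] at h
    have e : σ.toEmbedding.trans (σ⁻¹).toEmbedding = Function.Embedding.refl X := by
      ext x; simp
    rwa [e, map_refl] at h
  · intro τ _; group
  · intro τ _; group
  · intro τ _; rfl

variable (X) in
/-- the functions killed by symmetrization in `a + 1` elements on the right and by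
antisymmetrization in `b + 1` elements on the left -/
def killed (a b : ℕ) : Submodule ℚ (Perm X → ℚ) where
  carrier := {f | (∀ T : Finset X, T.card = a + 1 → ∀ u, ∑ τ ∈ PT T, f (u * τ) = 0) ∧
    ∀ T : Finset X, T.card = b + 1 → ∀ u, ∑ τ ∈ PT T, ((Perm.sign τ : ℤ) : ℚ) * f (τ * u) = 0}
  zero_mem' := ⟨fun T _ u => by simp, fun T _ u => by simp⟩
  add_mem' := fun {f g} hf hg => ⟨fun T hT u => by
      simp only [Pi.add_apply, Finset.sum_add_distrib, hf.1 T hT u, hg.1 T hT u, add_zero],
    fun T hT u => by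
      simp only [Pi.add_apply, mul_add, Finset.sum_add_distrib, hf.2 T hT u, hg.2 T hT u,
        add_zero]⟩
  smul_mem' := fun c f hf => ⟨fun T hT u => by
      simp only [Pi.smul_apply, smul_eq_mul, ← Finset.mul_sum, hf.1 T hT u, mul_zero],
    fun T hT u => by
      simp only [Pi.smul_apply, smul_eq_mul, mul_left_comm _ c, ← Finset.mul_sum, hf.2 T hT u,
        mul_zero]⟩

theorem rtr_killed {a b : ℕ} (σ : Perm X) {f : Perm X → ℚ} (hf : f ∈ killed X a b) :
    rtr X σ f ∈ killed X a b := by
  constructor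
  · intro T hT u
    have h := hf.1 (T.map (σ⁻¹).toEmbedding) (by rw [card_map, hT]) (u * σ)
    rw [← sum_conj] at h
    rw [← h]
    refine Finset.sum_congr rfl fun τ _ => ?_
    rw [rtr_apply]
    congr 1
    group
  · intro T hT u
    have h := hf.2 T hT (u * σ)
    rw [← h]
    refine Finset.sum_congr rfl fun τ _ => ?_
    rw [rtr_apply, mul_assoc]

theorem ltr_killed {a b : ℕ} (σ : Perm X) {f : Perm X → ℚ} (hf : f ∈ killed X a b) :
    ltr X σ f ∈ killed X a b := by
  constructor
  · intro T hT u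
    have h := hf.1 T hT (σ⁻¹ * u)
    calc ∑ τ ∈ PT T, ltr X σ f (u * τ)
        = ((Perm.sign σ : ℤ) : ℚ) * ∑ τ ∈ PT T, f (σ⁻¹ * u * τ) := by
          rw [Finset.mul_sum]
          refine Finset.sum_congr rfl fun τ _ => ?_
          rw [ltr_apply, mul_assoc]
      _ = 0 := by rw [h, mul_zero]
  · intro T hT u
    have h := hf.2 (T.map (σ⁻¹).toEmbedding) (by rw [card_map, hT]) (σ⁻¹ * u)
    rw [← sum_conj] at h
    calc ∑ τ ∈ PT T, ((Perm.sign τ : ℤ) : ℚ) * ltr X σ f (τ * u)
        = ((Perm.sign σ : ℤ) : ℚ) * ∑ τ ∈ PT T, ((Perm.sign (σ⁻¹ * τ * σ⁻¹⁻¹) : ℤ) : ℚ) *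
            f (σ⁻¹ * τ * σ⁻¹⁻¹ * (σ⁻¹ * u)) := by
          rw [Finset.mul_sum]
          refine Finset.sum_congr rfl fun τ _ => ?_
          rw [ltr_apply]
          have e1 : σ⁻¹ * τ * σ⁻¹⁻¹ * (σ⁻¹ * u) = σ⁻¹ * (τ * u) := by group
          have e2 : Perm.sign (σ⁻¹ * τ * σ⁻¹⁻¹) = Perm.sign τ := by
            rw [map_mul, map_mul, inv_inv, Perm.sign_inv, mul_comm, ← mul_assoc,
              Int.units_mul_self, one_mul]
          rw [e1, e2]
          ring
      _ = 0 := by rw [h, mul_zero]

/-- The functions on the symmetric group of a set with more than `a b` elements which are killed by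
symmetrization in `a + 1` elements on the right and by antisymmetrization in `b + 1` elements on
the left are zero. -/
theorem killed_eq_zero {a b : ℕ} (hn : a * b < Fintype.card X) {f : Perm X → ℚ}
    (hf : f ∈ killed X a b) : f = 0 := by
  classical
  by_contra hf0
  obtain ⟨c1, hc1, v, hv, hv0, hcv⟩ := exists_coloring (rtr X) a univ (killed X a b)
    (fun i _ j _ v hv => rtr_killed _ hv) ⟨f, hf, hf0⟩ (by
      intro T _ hT v hv hfix
      have h1 : ∀ τ ∈ PT T, ∀ u, v (u * τ) = v u := by
        intro τ hτ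
        refine PT_induction (P := fun τ => ∀ u, v (u * τ) = v u) (by simp) ?_ hτ
        intro i hi j hj τ h u
        rw [← mul_assoc, h]
        have := congrFun (hfix i hi j hj) u
        rwa [rtr_apply] at this
      ext u
      have h2 := hv.1 T hT u
      rw [Finset.sum_congr rfl fun τ hτ => h1 τ hτ u, Finset.sum_const, nsmul_eq_mul,
        mul_eq_zero] at h2
      rcases h2 with h2 | h2
      · exfalso
        have h3 : (PT T).card = 0 := by exact_mod_cast h2
        rw [Finset.card_eq_zero] at h3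
        have h4 : (1 : Perm X) ∈ PT T := by rw [mem_PT]; intro x _; rfl
        rw [h3] at h4
        exact absurd h4 (Finset.notMem_empty _)
      · exact h2)
  let W1 : Submodule ℚ (Perm X → ℚ) :=
    { carrier := {w | w ∈ killed X a b ∧ ∀ i j, i ≠ j → c1 i = c1 j → ∀ u, w (u * swap i j) = - w u}
      zero_mem' := ⟨(killed X a b).zero_mem, fun i j _ _ u => by simp⟩
      add_mem' := fun {w w'} hw hw' => ⟨(killed X a b).add_mem hw.1 hw'.1, fun i j hij h u => by
        rw [Pi.add_apply, Pi.add_apply, hw.2 i j hij h u, hw'.2 i j hij h u]; ring⟩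
      smul_mem' := fun c w hw => ⟨(killed X a b).smul_mem c hw.1, fun i j hij h u => by
        rw [Pi.smul_apply, Pi.smul_apply, hw.2 i j hij h u, smul_neg]⟩ }
  have hvW : v ∈ W1 := by
    refine ⟨hv, fun i j hij h u => ?_⟩
    have := congrFun (hcv i (mem_univ _) j (mem_univ _) hij h) u
    rwa [rtr_apply, Pi.neg_apply] at this
  obtain ⟨c2, hc2, w, hw, hw0, hcw⟩ := exists_coloring (ltr X) b univ W1
    (fun i _ j _ v hv => ⟨ltr_killed _ hv.1, fun a b hab h u => by
      rw [ltr_apply, ltr_apply, ← mul_assoc, hv.2 a b hab h, mul_neg]⟩) ⟨v, hvW, hv0⟩ (by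
      intro T _ hT v hv hfix
      have h1 : ∀ τ ∈ PT T, ∀ u, ((Perm.sign τ : ℤ) : ℚ) * v (τ * u) = v u := by
        intro τ hτ
        refine PT_induction (P := fun τ => ∀ u, ((Perm.sign τ : ℤ) : ℚ) * v (τ * u) = v u)
          (by simp) ?_ hτ
        intro i hi j hj τ h u
        have h3 := congrFun (hfix i hi j hj) (τ * u)
        rw [ltr_apply, swap_inv] at h3
        rw [← h u, ← h3, map_mul, mul_assoc]
        push_cast
        ring
      ext u
      have h2 := hv.1.2 T hT u
      rw [Finset.sum_congr rfl fun τ hτ => h1 τ hτ u, Finset.sum_const, nsmul_eq_mul,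
        mul_eq_zero] at h2
      rcases h2 with h2 | h2
      · exfalso
        have h3 : (PT T).card = 0 := by exact_mod_cast h2
        rw [Finset.card_eq_zero] at h3
        have h4 : (1 : Perm X) ∈ PT T := by rw [mem_PT]; intro x _; rfl
        rw [h3] at h4
        exact absurd h4 (Finset.notMem_empty _)
      · exact h2)
  apply hw0
  ext u
  have h1 : ∃ i ∈ (univ : Finset X), ∃ j ∈ (univ : Finset X), i ≠ j ∧
      (c1 i, c2 (u i)) = (c1 j, c2 (u j)) := by
    apply Finset.exists_ne_map_eq_of_card_lt_of_maps_to (t := range a ×ˢ range b)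
    · rw [card_product, card_range, card_range, card_univ]; exact hn
    · intro i _
      have h1 := hc1 i (mem_univ _)
      have h2 := hc2 (u i) (mem_univ _)
      simp only [coe_product, coe_range, Set.mem_prod, Set.mem_Iio]
      exact ⟨h1, h2⟩
  obtain ⟨i, _, j, _, hij, h⟩ := h1
  rw [Prod.mk.injEq] at h
  have h2 := hw.2 i j hij h.1 u
  have h3 := congrFun (hcw (u i) (mem_univ _) (u j) (mem_univ _) (fun h => hij (u.injective h)) h.2)
    (u * swap i j)
  rw [ltr_apply, swap_inv, Pi.neg_apply, Equiv.mul_swap_eq_swap_mul, ← mul_assoc, swap_mul_self,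
    one_mul, Perm.sign_swap (fun h => hij (u.injective h)), ← Equiv.mul_swap_eq_swap_mul,
    h2] at h3
  push_cast at h3
  simp only [Pi.zero_apply]
  linarith

end

end Pool.Agent.J4.H17.ZC
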