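import Pool.Agent.J4.H17.ZC.QGen

/-!
# Exterior products over finite index types and multiplicative extensions
-/

set_option autoImplicit false

open FF

namespace Pool.Agent.J4.H17.ZC

section

variable {ι : Type} [Fintype ι] [dι : DecidableEq ι] {A B : Type}

/-- the exterior product of zero-cycles over a finite index type -/
noncomputable def extG (a : ι → A →₀ ℤ) : (ι → A) →₀ ℤ :=
  Finsupp.onFinset (Fintype.piFinset fun i => (a i).support) (fun x => ∏ i, a i (x i)) (by
    intro x hx
    rw [Fintype.mem_piFinset]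
    intro i
    rw [Finsupp.mem_support_iff]
    intro h
    exact hx (Finset.prod_eq_zero (Finset.mem_univ i) h))

theorem extG_apply (a : ι → A →₀ ℤ) (x : ι → A) : extG a x = ∏ i, a i (x i) := rfl

theorem ext_eq_extG {n : ℕ} (a : Fin n → A →₀ ℤ) : ext a = extG a := by
  ext x; rfl

theorem extG_single (x : ι → A) :
    extG (fun i => Finsupp.single (x i) (1 : ℤ)) = Finsupp.single x 1 := by
  classical
  ext y
  rw [extG_apply, Finsupp.single_apply]
  split_ifs with h
  · subst h; simp
  · obtain ⟨i, hi⟩ := Function.ne_iff.1 h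
    refine Finset.prod_eq_zero (Finset.mem_univ i) ?_
    rw [Finsupp.single_eq_of_ne (Ne.symm hi)]

variable (ι A) in
/-- the exterior product as a multilinear map -/
noncomputable def extGM : MultilinearMap ℤ (fun _ : ι => A →₀ ℤ) ((ι → A) →₀ ℤ) where
  toFun := extG
  map_update_add' := by
    intro inst m i x y
    have hinst : inst = dι := Subsingleton.elim _ _
    subst hinst
    ext z
    rw [Finsupp.add_apply, extG_apply, extG_apply, extG_apply]
    have h : ∀ w : A →₀ ℤ, ∏ j, (Function.update m i w) j (z j) =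
        w (z i) * ∏ j ∈ Finset.univ.erase i, m j (z j) := by
      intro w
      rw [← Finset.mul_prod_erase _ _ (Finset.mem_univ i), Function.update_self]
      congr 1
      refine Finset.prod_congr rfl fun j hj => ?_
      rw [Function.update_of_ne (Finset.ne_of_mem_erase hj)]
    rw [h, h, h, Finsupp.add_apply, add_mul]
  map_update_smul' := by
    intro inst m i c x
    have hinst : inst = dι := Subsingleton.elim _ _
    subst hinst
    ext z
    rw [Finsupp.smul_apply, extG_apply, extG_apply]
    have h : ∀ w : A →₀ ℤ, ∏ j, (Function.update m i w) j (z j) =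
        w (z i) * ∏ j ∈ Finset.univ.erase i, m j (z j) := by
      intro w
      rw [← Finset.mul_prod_erase _ _ (Finset.mem_univ i), Function.update_self]
      congr 1
      refine Finset.prod_congr rfl fun j hj => ?_
      rw [Function.update_of_ne (Finset.ne_of_mem_erase hj)]
    rw [h, h, Finsupp.smul_apply, smul_eq_mul, smul_eq_mul, mul_assoc]

theorem extGM_apply (a : ι → A →₀ ℤ) : extGM ι A a = extG a := rfl

theorem extG_zero (a : ι → A →₀ ℤ) (i : ι) (h : a i = 0) : extG a = 0 := by
  rw [← extGM_apply]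
  exact MultilinearMap.map_coord_zero _ i h

/-- the multiplicative extension of maps from points to zero-cycles -/
noncomputable def mx (e : ι → A → (B →₀ ℤ)) : ((ι → A) →₀ ℤ) →+ ((ι → B) →₀ ℤ) :=
  (Finsupp.linearCombination ℤ fun x : ι → A => extG fun i => e i (x i)).toAddMonoidHom

theorem mx_single (e : ι → A → (B →₀ ℤ)) (x : ι → A) (c : ℤ) :
    mx e (Finsupp.single x c) = c • extG fun i => e i (x i) :=
  Finsupp.linearCombination_single ℤ c x

theorem mx_extG (e : ι → A → (B →₀ ℤ)) (a : ι → A →₀ ℤ) :
    mx e (extG a) = extG fun i => Finsupp.linearCombination ℤ (e i) (a i) := by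
  classical
  let f1 : MultilinearMap ℤ (fun _ : ι => A →₀ ℤ) ((ι → B) →₀ ℤ) :=
    (mx e).toIntLinearMap.compMultilinearMap (extGM ι A)
  let f2 : MultilinearMap ℤ (fun _ : ι => A →₀ ℤ) ((ι → B) →₀ ℤ) :=
    (extGM ι B).compLinearMap fun i => Finsupp.linearCombination ℤ (e i)
  have h : f1 = f2 := by
    refine Module.Basis.ext_multilinear (fun _ => Finsupp.basisSingleOne) ?_
    intro x
    change mx e (extG fun i => Finsupp.basisSingleOne (x i)) =
      extG fun i => Finsupp.linearCombination ℤ (e i) (Finsupp.basisSingleOne (x i))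
    simp only [Finsupp.coe_basisSingleOne, Finsupp.linearCombination_single, one_smul]
    rw [extG_single, mx_single, one_smul]
  exact congrArg (fun g : MultilinearMap ℤ (fun _ : ι => A →₀ ℤ) ((ι → B) →₀ ℤ) => g a) h

/-- The multiplicative extension of sums of regular maps preserves rational equivalence. -/
theorem mx_mem {k : Type} [Field k] [CharZero k] {X Y : Var k} {J : Type} [Fintype J]
    (e : ι → X.Pt → (Y.Pt →₀ ℤ)) (ε : ι → J → ℤ) (θ : ι → J → X.Pt → Y.Pt)
    (he : ∀ i x, e i x = ∑ j, ε i j • Finsupp.single (θ i j x) 1)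
    (hθ : ∀ i j, Reg (X := X) (Y := Y) (θ i j)) {z : (ι → X.Pt) →₀ ℤ}
    (hz : z ∈ RatEq (X.pow ι)) : mx e z ∈ RatEq (Y.pow ι) := by
  classical
  have h : mx e = ∑ c : ι → J, (∏ i, ε i (c i)) •
      Finsupp.mapDomain.addMonoidHom (fun (x : ι → X.Pt) i => θ i (c i) (x i)) := by
    refine Finsupp.addHom_ext fun x m => ?_
    rw [mx_single, AddMonoidHom.finsetSum_apply]
    have h1 : (extG fun i => e i (x i)) =
        ∑ c : ι → J, (∏ i, ε i (c i)) • Finsupp.single (fun i => θ i (c i) (x i)) (1 : ℤ) := by
      simp only [he]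
      rw [← extGM_apply, MultilinearMap.map_sum]
      refine Finset.sum_congr ?_ fun c _ => ?_
      · ext; simp
      rw [MultilinearMap.map_smul_univ, extGM_apply, extG_single]
    rw [h1, Finset.smul_sum]
    refine Finset.sum_congr rfl fun c _ => ?_
    change _ = (∏ i, ε i (c i)) • Finsupp.mapDomain _ _
    rw [Finsupp.mapDomain_single, smul_comm, Finsupp.smul_single m, smul_eq_mul, mul_one]
  rw [h, AddMonoidHom.finsetSum_apply]
  refine AddSubgroup.sum_mem _ fun c _ => ?_
  refine AddSubgroup.zsmul_mem _ ?_ _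
  exact Reg.push (X := X.pow ι) (Y := Y.pow ι) (F := fun x i => θ i (c i) (x i))
    (fun L _ _ x hx i => hθ i (c i) L _ (hx i)) hz

theorem map_extG (q : A → B) (a : ι → A →₀ ℤ) :
    Finsupp.mapDomain (fun x i => q (x i)) (extG a) = extG fun i => Finsupp.mapDomain q (a i) := by
  classical
  let f1 : MultilinearMap ℤ (fun _ : ι => A →₀ ℤ) ((ι → B) →₀ ℤ) :=
    (Finsupp.mapDomain.addMonoidHom fun (x : ι → A) i => q (x i)).toIntLinearMap.compMultilinearMap
      (extGM ι A)
  let f2 : MultilinearMap ℤ (fun _ : ι => A →₀ ℤ) ((ι → B) →₀ ℤ) :=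
    (extGM ι B).compLinearMap fun _ => (Finsupp.mapDomain.addMonoidHom q).toIntLinearMap
  have h : f1 = f2 := by
    refine Module.Basis.ext_multilinear (fun _ => Finsupp.basisSingleOne) ?_
    intro x
    change Finsupp.mapDomain _ (extG fun i => Finsupp.basisSingleOne (x i)) =
      extG fun i => Finsupp.mapDomain q (Finsupp.basisSingleOne (x i))
    simp only [Finsupp.coe_basisSingleOne, Finsupp.mapDomain_single]
    rw [extG_single, extG_single, Finsupp.mapDomain_single]
  exact congrArg (fun g : MultilinearMap ℤ (fun _ : ι => A →₀ ℤ) ((ι → B) →₀ ℤ) => g a) h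

end

section vanish

variable {k : Type} [Field k] [CharZero k] [IsAlgClosed k] {K : Type} [Field K] [Algebra k K]
  [IsFF k K]

/-- Bloch's vanishing for symmetrized zero-cycles on the powers of a curve. -/
theorem vanish {g : ℕ} (hg : HasGenus k K g) {T : Type} [Fintype T] [DecidableEq T]
    (hT : Fintype.card T = g + 1) (s : T → Place k K) (o : Place k K)
    (l : ((T → Place k K) →₀ ℤ) →+ ℚ) (hl : ∀ r ∈ RatEq ((curve k K).pow T), l r = 0) :
    ∑ σ : Equiv.Perm T, l (extG fun i => Finsupp.single (s (σ i)) 1 - Finsupp.single o 1) = 0 := by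
  classical
  obtain ⟨p', ⟨i1, hi1⟩, f, hf⟩ := move hg hT s o
  obtain ⟨N, hN, hmem⟩ := pencil s p' f hf
  let e : T → Place k K → (Place k K →₀ ℤ) := fun _ x => Finsupp.single x 1 - Finsupp.single o 1
  have h1 : mx e (N • (sy s - sy p')) ∈ RatEq ((curve k K).pow T) := by
    refine mx_mem (X := curve k K) (Y := curve k K) (J := Bool) e
      (fun _ b => if b then -1 else 1) (fun _ b x => if b then o else x) ?_ ?_ hmem
    · intro i x
      rw [Fintype.sum_bool]
      simp [e]
      abel
    · intro i b L _ _ x hx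
      cases b
      · simpa using hx
      · simpa using curve_const K L o
  have h2 := hl _ h1
  rw [map_nsmul, map_nsmul, map_sub, map_sub] at h2
  have h3 : ∀ q : T → Place k K, l (mx e (sy q)) =
      ∑ σ : Equiv.Perm T, l (extG fun i => Finsupp.single (q (σ i)) 1 - Finsupp.single o 1) := by
    intro q
    unfold sy
    rw [map_sum, map_sum]
    refine Finset.sum_congr rfl fun σ _ => ?_
    rw [mx_single, one_smul]
  rw [h3, h3] at h2
  have h4 : ∑ σ : Equiv.Perm T,
      l (extG fun i => Finsupp.single (p' (σ i)) 1 - Finsupp.single o 1) = 0 := by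
    refine Finset.sum_eq_zero fun σ _ => ?_
    rw [extG_zero _ (σ.symm i1) (by rw [Equiv.apply_symm_apply, hi1, sub_self]), map_zero]
  rw [h4, sub_zero] at h2
  rcases smul_eq_zero.1 h2 with h5 | h5
  · omega
  · exact h5

end vanish

end Pool.Agent.J4.H17.ZC
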