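import Pool.Agent.J4.H17.ZC.G9

/-!
# Alternating sums of exterior products on quotients of products of two curves
-/

set_option autoImplicit false

open FF IntermediateField Equiv

namespace Pool.Agent.J4.H17.ZC

section

variable {k : Type} [Field k] [CharZero k] [IsAlgClosed k] {K1 K2 : Type} [Field K1] [Algebra k K1]
  [Field K2] [Algebra k K2] [IsFF k K1] [IsFF k K2] {G : Type} [Group G] [Fintype G]
  (α1 : G →* (K1 ≃ₐ[k] K1)) (α2 : G →* (K2 ≃ₐ[k] K2)) (o1 : Place k K1) (o2 : Place k K2)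
  {J : Type} [Fintype J] [DecidableEq J] (H : J → Subgroup G) [∀ j, Fintype (H j)]
  (g1 g2 : J → ℕ)

/-- The alternating sums for a fixed distribution of the subgroups. -/
theorem RJ_vanish (h1 : ∀ j, HasGenus k (fixedField (α1.comp (H j).subtype).range) (g1 j))
    (h2 : ∀ j, HasGenus k (fixedField (α2.comp (H j).subtype).range) (g2 j)) {n : ℕ}
    (hn : ∑ j, g1 j * g2 j < n) (l : ((Fin n → Place k K1 × Place k K2) →₀ ℤ) →+ ℚ)
    (hl : ∀ r ∈ RatEq (((curve k K1).prod (curve k K2)).pow (Fin n)), l r = 0) (κ : Fin n → J)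
    (x : Fin n → Place k K1 × Place k K2) :
    ∑ σ : Perm (Fin n), ((Perm.sign σ : ℤ) : ℚ) *
      l (extG fun i => RJ α1 α2 o1 o2 (H (κ i)) (x (σ i))) = 0 := by
  classical
  -- the pigeonhole principle
  obtain ⟨j, hj⟩ : ∃ j, g1 j * g2 j < (Finset.univ.filter fun i => κ i = j).card := by
    by_contra hcon
    push Not at hcon
    have h3 : n = ∑ j, (Finset.univ.filter fun i => κ i = j).card := by
      have h4 := Finset.card_eq_sum_card_fiberwise (s := (Finset.univ : Finset (Fin n)))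
        (t := (Finset.univ : Finset J)) (f := κ) (fun i _ => Finset.mem_univ _)
      rwa [Finset.card_univ, Fintype.card_fin] at h4
    have h4 : ∑ j, (Finset.univ.filter fun i => κ i = j).card ≤ ∑ j, g1 j * g2 j :=
      Finset.sum_le_sum fun j _ => hcon j
    omega
  let N1 : J → Place k K1 → (Place k K1 →₀ ℤ) := fun j => NN (α1.comp (H j).subtype)
  let N2 : J → Place k K2 → (Place k K2 →₀ ℤ) := fun j => NN (α2.comp (H j).subtype)
  refine comb_part (Finset.univ.filter fun i => κ i = j) hj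
    (fun u v => l (extG fun i => px (N1 (κ i) (x (u i)).1 - N1 (κ i) o1)
      (N2 (κ i) (x (v i)).2 - N2 (κ i) o2))) ?_ ?_
  · intro T hTA hT u v
    have h3 := rel_left (α1.comp (H j).subtype) (h1 j) T hT (fun i => (x (u i)).1) o1
      (fun i => N1 (κ i) (x (u i)).1 - N1 (κ i) o1)
      (fun i => N2 (κ i) (x (v i)).2 - N2 (κ i) o2) l hl
    rw [← h3]
    refine Finset.sum_congr rfl fun τ hτ => ?_
    rw [mem_PT] at hτ
    congr 2
    funext i
    by_cases hi : i ∈ T
    · rw [if_pos hi]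
      have h4 : κ i = j := (Finset.mem_filter.1 (hTA hi)).2
      rw [h4]
      rfl
    · rw [if_neg hi, Perm.mul_apply, hτ i hi]
  · intro T hTA hT u v
    have h3 := rel_right (α2.comp (H j).subtype) (h2 j) T hT (fun i => (x (v i)).2) o2
      (fun i => N1 (κ i) (x (u i)).1 - N1 (κ i) o1)
      (fun i => N2 (κ i) (x (v i)).2 - N2 (κ i) o2) l hl
    rw [← h3]
    refine Finset.sum_congr rfl fun τ hτ => ?_
    rw [mem_PT] at hτ
    congr 2
    funext i
    by_cases hi : i ∈ T
    · rw [if_pos hi]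
      have h4 : κ i = j := (Finset.mem_filter.1 (hTA hi)).2
      rw [h4]
      rfl
    · rw [if_neg hi, Perm.mul_apply, hτ i hi]

theorem RJ_vanish' (h1 : ∀ j, HasGenus k (fixedField (α1.comp (H j).subtype).range) (g1 j))
    (h2 : ∀ j, HasGenus k (fixedField (α2.comp (H j).subtype).range) (g2 j)) {n : ℕ}
    (hn : ∑ j, g1 j * g2 j < n) (l : ((Fin n → Place k K1 × Place k K2) →₀ ℤ) →+ ℚ)
    (hl : ∀ r ∈ RatEq (((curve k K1).prod (curve k K2)).pow (Fin n)), l r = 0) (κ : Fin n → J)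
    (b : Fin n → (Place k K1 × Place k K2) →₀ ℤ) :
    ∑ σ : Perm (Fin n), ((Perm.sign σ : ℤ) : ℚ) *
      l (extG fun i => Finsupp.linearCombination ℤ (RJ α1 α2 o1 o2 (H (κ i))) (b (σ i))) = 0 := by
  classical
  have h3 : ∑ σ : Perm (Fin n), ((Perm.sign σ : ℤ) : ℚ) *
      l (extG fun i => Finsupp.linearCombination ℤ (RJ α1 α2 o1 o2 (H (κ i))) (b (σ i))) =
      l (mx (fun i => RJ α1 α2 o1 o2 (H (κ i))) (ALT (ext b))) := by
    rw [← altSum_eq]
    unfold altSum
    rw [map_sum, map_sum]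
    refine Finset.sum_congr rfl fun σ _ => ?_
    rw [map_zsmul, map_zsmul, zsmul_eq_mul, ext_eq_extG, mx_extG]
  rw [h3]
  generalize ext b = z
  induction z using Finsupp.induction_linear with
  | zero => rw [map_zero, map_zero, map_zero]
  | add u v hu hv => rw [map_add, map_add, map_add, hu, hv, add_zero]
  | single x m =>
    have h4 : Finsupp.single x m = m • Finsupp.single x (1 : ℤ) := by
      rw [Finsupp.smul_single, smul_eq_mul, mul_one]
    rw [h4, map_zsmul, map_zsmul, map_zsmul, ALT_single, map_sum, map_sum]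
    have h5 : ∑ σ : Perm (Fin n), l (mx (fun i => RJ α1 α2 o1 o2 (H (κ i)))
        ((Perm.sign σ : ℤ) • Finsupp.single (fun i => x (σ i)) 1)) =
        ∑ σ : Perm (Fin n), ((Perm.sign σ : ℤ) : ℚ) *
          l (extG fun i => RJ α1 α2 o1 o2 (H (κ i)) (x (σ i))) := by
      refine Finset.sum_congr rfl fun σ _ => ?_
      rw [map_zsmul, map_zsmul, zsmul_eq_mul, mx_single, one_smul]
    rw [h5, RJ_vanish α1 α2 o1 o2 H g1 g2 h1 h2 hn l hl κ x, smul_zero]

theorem quot_alt (c : J → ℤ) (hc : ∀ x : G, x ≠ 1 →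
      ∑ j, c j * (Nat.card {g : G // g * x * g⁻¹ ∈ H j} : ℤ) = 0) (hc0 : ∑ j, c j ≠ 0)
    (h01 : HasGenus k (fixedField α1.range) 0) (h02 : HasGenus k (fixedField α2.range) 0)
    (h1 : ∀ j, HasGenus k (fixedField (α1.comp (H j).subtype).range) (g1 j))
    (h2 : ∀ j, HasGenus k (fixedField (α2.comp (H j).subtype).range) (g2 j)) {n : ℕ}
    (hn : ∑ j, g1 j * g2 j < n) {Y : Type} (q : Place k K1 × Place k K2 → Y)
    (hq : ∀ (g : G) (s : Place k K1) (t : Place k K2),
      q (act (α1 g) s, act (α2 g) t) = q (s, t))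
    (b : Fin n → (Place k K1 × Place k K2) →₀ ℤ) (hb : ∀ i, dg (b i) = 0) :
    ∃ N : ℕ, 0 < N ∧ N • altSum (fun i => Finsupp.mapDomain q (b i)) ∈
      RatEq ((((curve k K1).prod (curve k K2)).quot q).pow (Fin n)) := by
  classical
  obtain ⟨o1, -⟩ := exists_place (k := k) (K := K1)
  obtain ⟨o2, -⟩ := exists_place (k := k) (K := K2)
  refine torsion_of_hom _ _ fun l hl => ?_
  let l' : ((Fin n → Place k K1 × Place k K2) →₀ ℤ) →+ ℚ :=
    l.comp (Finsupp.mapDomain.addMonoidHom fun x i => q (x i))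
  have hl' : ∀ r ∈ RatEq (((curve k K1).prod (curve k K2)).pow (Fin n)), l' r = 0 :=
    fun r hr => hl _ (quot_mem (X := (curve k K1).prod (curve k K2)) q hr)
  set C : ℤ := DD H * (Fintype.card G * ∑ j, c j) with hC
  have hC0 : C ≠ 0 := by
    rw [hC]
    refine mul_ne_zero ?_ (mul_ne_zero ?_ hc0)
    · unfold DD
      refine Finset.prod_ne_zero_iff.2 fun j _ => ?_
      have : 0 < Fintype.card (H j) := Fintype.card_pos
      exact_mod_cast this.ne'
    · have : 0 < Fintype.card G := Fintype.card_pos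
      exact_mod_cast this.ne'
  -- the values of the functional
  have h3 : l (altSum fun i => Finsupp.mapDomain q (b i)) =
      ∑ σ : Perm (Fin n), ((Perm.sign σ : ℤ) : ℚ) * l' (extG fun i => b (σ i)) := by
    rw [← map_altSum q b]
    change l' (altSum b) = _
    unfold altSum
    rw [map_sum]
    refine Finset.sum_congr rfl fun σ _ => ?_
    rw [map_zsmul, zsmul_eq_mul, ext_eq_extG]
  have h4 : ∀ σ : Perm (Fin n), (C : ℚ) ^ n * l' (extG fun i => b (σ i)) =
      ∑ κ : Fin n → J, ((∏ i, cc H c (κ i) : ℤ) : ℚ) *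
        l' (extG fun i => QJ α1 α2 o1 o2 (H (κ i)) (b (σ i))) := by
    intro σ
    have h5 : (C : ℚ) ^ n * l' (extG fun i => b (σ i)) = l' (extG fun i => C • b (σ i)) := by
      rw [← extGM_apply (fun i => C • b (σ i)), MultilinearMap.map_smul_univ, extGM_apply,
        Finset.prod_const, Finset.card_univ, Fintype.card_fin, map_zsmul, zsmul_eq_mul]
      push_cast
      rfl
    have h6 : l' (extG fun i => C • b (σ i)) =
        l' (extG fun i => ∑ j, cc H c j • QJ α1 α2 o1 o2 (H j) (b (σ i))) :=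
      tele l' _ _ fun i => red α1 α2 o1 o2 H c hc h01 h02 q hq l hl' (b (σ i)) (hb _)
    rw [h5, h6, ← extGM_apply, MultilinearMap.map_sum, map_sum]
    refine Finset.sum_congr ?_ fun κ _ => ?_
    · ext; simp
    rw [MultilinearMap.map_smul_univ, map_zsmul, zsmul_eq_mul, extGM_apply]
  have h5 : (C : ℚ) ^ n * l (altSum fun i => Finsupp.mapDomain q (b i)) = 0 := by
    rw [h3, Finset.mul_sum]
    have h6 : ∀ σ : Perm (Fin n), (C : ℚ) ^ n * (((Perm.sign σ : ℤ) : ℚ) *
        l' (extG fun i => b (σ i))) = ∑ κ : Fin n → J, ((∏ i, cc H c (κ i) : ℤ) : ℚ) *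
          (((Perm.sign σ : ℤ) : ℚ) *
            l' (extG fun i => QJ α1 α2 o1 o2 (H (κ i)) (b (σ i)))) := by
      intro σ
      rw [mul_left_comm, h4, Finset.mul_sum]
      refine Finset.sum_congr rfl fun κ _ => ?_
      ring
    rw [Finset.sum_congr rfl fun σ _ => h6 σ, Finset.sum_comm]
    refine Finset.sum_eq_zero fun κ _ => ?_
    rw [← Finset.mul_sum]
    have h7 := RJ_vanish' α1 α2 o1 o2 H g1 g2 h1 h2 hn l' hl' κ (fun i => trG α1 α2 (b i))
    change _ * ∑ σ : Perm (Fin n), ((Perm.sign σ : ℤ) : ℚ) *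
      l' (extG fun i => Finsupp.linearCombination ℤ (RJ α1 α2 o1 o2 (H (κ i)))
        (trG α1 α2 (b (σ i)))) = 0
    rw [h7, mul_zero]
  rcases mul_eq_zero.1 h5 with h6 | h6
  · exact absurd h6 (pow_ne_zero n (by exact_mod_cast hC0))
  · exact h6

end

end Pool.Agent.J4.H17.ZC
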