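import Pool.Agent.J4.H17.ZC.G10
import Mathlib.GroupTheory.FiniteAbelian.Duality
import Mathlib.RingTheory.RootsOfUnity.EnoughRootsOfUnity

/-!
# Characters of elementary abelian 2-groups
-/

set_option autoImplicit false

namespace Pool.Agent.J4.H17.ZC

section

variable {G : Type} [Group G] [Finite G]

theorem exists_char (hG : ∀ x : G, x * x = 1) {x : G} (hx : x ≠ 1) : ∃ χ : G →* ℤˣ, χ x ≠ 1 := by
  have h2 : Monoid.exponent G ∣ 2 := Monoid.exponent_dvd_of_forall_pow_eq_one fun y => by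
    rw [sq, hG]
  have hexp : Monoid.exponent G = 2 := by
    rcases (Nat.dvd_prime Nat.prime_two).1 h2 with h | h
    · exfalso
      have h3 := Monoid.pow_exponent_eq_one x
      rw [h, pow_one] at h3
      exact hx h3
    · exact h
  let _ : CommGroup G := { ‹Group G› with mul_comm := mul_comm_of_exponent_two hexp }
  have : HasEnoughRootsOfUnity ℤ (Monoid.exponent G) := by
    rw [hexp]
    exact ⟨⟨-1, IsPrimitiveRoot.neg_one 0 (by norm_num)⟩, rootsOfUnity.isCyclic ℤ 2⟩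
  exact CommGroup.exists_apply_ne_one_of_hasEnoughRootsOfUnity G ℤ hx

theorem char_sum [Fintype (G →* ℤˣ)] (hG : ∀ x : G, x * x = 1) {x : G} (hx : x ≠ 1) :
    ∑ χ : G →* ℤˣ, ((χ x : ℤˣ) : ℤ) = 0 := by
  obtain ⟨χ0, h0⟩ := exists_char hG hx
  have h1 : ((χ0 x : ℤˣ) : ℤ) = -1 := by
    rcases Int.units_eq_one_or (χ0 x) with h | h
    · exact absurd h h0
    · rw [h]; rfl
  have h2 : ∑ χ : G →* ℤˣ, ((χ x : ℤˣ) : ℤ) = ∑ χ : G →* ℤˣ, (((χ0 * χ) x : ℤˣ) : ℤ) :=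
    (Fintype.sum_equiv (Equiv.mulLeft χ0) _ _ fun χ => rfl).symm
  have h3 : ∑ χ : G →* ℤˣ, (((χ0 * χ) x : ℤˣ) : ℤ) = -∑ χ : G →* ℤˣ, ((χ x : ℤˣ) : ℤ) := by
    rw [← Finset.sum_neg_distrib]
    refine Finset.sum_congr rfl fun χ _ => ?_
    rw [MonoidHom.mul_apply, Units.val_mul, h1]
    ring
  rw [h3] at h2
  omega

theorem char_count [Fintype (G →* ℤˣ)] (hG : ∀ x : G, x * x = 1) {x : G}
    (hx : x ≠ 1) : 2 * ∑ χ : G →* ℤˣ, (if χ x = 1 then (1 : ℤ) else 0) =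
      Fintype.card (G →* ℤˣ) := by
  have h1 := char_sum hG hx
  have h2 : ∀ χ : G →* ℤˣ, ((χ x : ℤˣ) : ℤ) = 2 * (if χ x = 1 then (1 : ℤ) else 0) - 1 := by
    intro χ
    rcases Int.units_eq_one_or (χ x) with h | h
    · rw [h]; simp
    · rw [h, if_neg (show ¬ ((-1 : ℤˣ) = 1) from by decide)]; simp
  rw [Finset.sum_congr rfl fun χ _ => h2 χ, Finset.sum_sub_distrib, ← Finset.mul_sum,
    Finset.sum_const, Finset.card_univ, nsmul_eq_mul, mul_one] at h1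
  linarith

end

end Pool.Agent.J4.H17.ZC
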