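import Pool.Agent.J4.H17.ZC.G1
import Pool.Agent.J4.H17.ZC.Act

/-!
# Quotients of curves by finite groups
-/

set_option autoImplicit false

open FF IntermediateField Pool.Agent.W603.LV Pool.Agent.W603.PV Pool.Agent.W619.PQ
  Pool.Agent.N162.CV Pool.Agent.N75.CV

namespace Pool.Agent.J4.H17.ZC

section act

variable {k K : Type} [Field k] [Field K] [Algebra k K]

theorem act_ord (s : K ≃ₐ[k] K) (P : Place k K) (f : K) : (act s P).ord f = P.ord (s.symm f) := rfl

theorem act_one (P : Place k K) : act 1 P = P := by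
  ext f; rfl

theorem act_mul (s t : K ≃ₐ[k] K) (P : Place k K) : act (s * t) P = act s (act t P) := by
  ext f; rfl

theorem act_reg (s : K ≃ₐ[k] K) : Reg (X := curve k K) (Y := curve k K) (act s) := by
  intro L _ _ x hx
  rcases hx with ⟨Q, hQ⟩ | ⟨φ, hφ⟩
  · exact Or.inl ⟨act s Q, fun P => congrArg (act s) (hQ P)⟩
  · refine Or.inr ⟨φ.comp s.symm.toAlgHom, fun P => ?_⟩
    obtain ⟨e, he, h⟩ := hφ P
    exact ⟨e, he, fun f => h (s.symm f)⟩

end act

section count

variable {k : Type} [Field k] [IsAlgClosed k] [CharZero k] {F K L : Type} [Field F] [Field K]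
  [Field L] [Algebra k F] [Algebra k K] [Algebra k L] [Algebra F K] [Algebra F L]
  [IsScalarTower k F K] [IsScalarTower k F L] [IsFF k F] [IsFF k K] [IsFF k L]
  [FiniteDimensional F K] [Fintype (K →ₐ[F] L)]

/-- The number of the embeddings which induce a given place over the same place of `F`. -/
theorem count_over (hN : ∀ z : K, algebraMap F L (Algebra.norm F z) = ∏ φ : K →ₐ[F] L, φ z)
    (P : Place k L) (w : Place k K) (hw : under F w = under F P) :
    tot (fun φ : K →ₐ[F] L => pb (φ.restrictScalars k) P) w = ram F w := by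
  classical
  obtain ⟨t, ht0, ht⟩ := (under F P).surj
  obtain ⟨T, hT, hTn⟩ := nf_ k F K (under F P)
  -- the places of `T` are the places over the place of `F` below `P`
  have hT1 : ∀ w : Place k K, w ∈ T → under F P = under F w := by
    intro w hw
    rw [hT] at hw
    refine Place.eq_of_le _ _ fun f hf0 hf => ?_
    have h2 := (hw f (Or.inr hf)).resolve_left (by simpa using hf0)
    rw [ord_under] at h2
    have h3 : (0 : ℤ) < ram F w := by exact_mod_cast (ram_spec (F := F) w).1
    by_contra hcon
    push Not at hcon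
    nlinarith
  have hT2 : ∀ w : Place k K, under F w = under F P → w ∈ T := by
    intro w hw
    rw [hT]
    intro h hh
    rcases hh with hh | hh
    · exact Or.inl (by rw [hh, map_zero])
    · right
      rw [ord_under, hw]
      positivity
  have hP : (0 : ℤ) < ram F P := by exact_mod_cast (ram_spec (F := F) P).1
  have hpbt : ∀ φ : K →ₐ[F] L, ∃ e : ℕ, 0 < e ∧
      (∀ f : K, P.ord (φ f) = e * (pb (φ.restrictScalars k) P).ord f) ∧
      under F (pb (φ.restrictScalars k) P) = under F P := by
    intro φ
    obtain ⟨e, he, h⟩ := pb_spec (φ.restrictScalars k) P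
    have he' : (0 : ℤ) < e := by exact_mod_cast he
    refine ⟨e, he, h, ?_⟩
    symm
    refine Place.eq_of_le _ _ fun f hf0 hf => ?_
    have h1 : 0 ≤ P.ord (algebraMap F L f) := by
      rw [ord_under]; positivity
    have h2 := h (algebraMap F K f)
    have h3 : (φ.restrictScalars k) (algebraMap F K f) = algebraMap F L f := φ.commutes f
    rw [h3, ord_under (pb (φ.restrictScalars k) P) f] at h2
    have h4 : (0 : ℤ) < ram F (pb (φ.restrictScalars k) P) := by
      exact_mod_cast (ram_spec (F := F) (pb (φ.restrictScalars k) P)).1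
    by_contra hcon
    push Not at hcon
    have h5 : (ram F (pb (φ.restrictScalars k) P) : ℤ) *
        (under F (pb (φ.restrictScalars k) P)).ord f < 0 := by nlinarith
    nlinarith
  have hwT : w ∈ T := hT2 w hw
  rw [tot_apply]
  obtain ⟨z, hz0, hz1, hz2⟩ := exists_unif_one T w
  have h1 : P.ord (algebraMap F L (Algebra.norm F z)) = ram F P := by
    rw [ord_under, hTn z hz0, Finset.sum_eq_single_of_mem w hwT fun w' hw' hne => hz2 w' hw' hne,
      hz1, mul_one]
  have h2 : P.ord (∏ φ : K →ₐ[F] L, φ z) = ∑ φ : K →ₐ[F] L, P.ord (φ z) := by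
    have h3 : ∀ S : Finset (K →ₐ[F] L), P.ord (∏ φ ∈ S, φ z) = ∑ φ ∈ S, P.ord (φ z) := by
      intro S
      induction S using Finset.induction_on with
      | empty => rw [Finset.prod_empty, Finset.sum_empty, P.ord_one]
      | insert a S ha ih =>
        rw [Finset.prod_insert ha, Finset.sum_insert ha, P.ord_mul (by simpa using hz0)
          (Finset.prod_ne_zero_iff.2 fun φ _ => by simpa using hz0), ih]
    exact h3 _
  rw [hN, h2] at h1
  have h3 : ∀ φ : K →ₐ[F] L, P.ord (φ z) * ram F w =
      if pb (φ.restrictScalars k) P = w then (ram F P : ℤ) else 0 := by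
    intro φ
    obtain ⟨e, he, h4, h5⟩ := hpbt φ
    split_ifs with h
    · have h6 := h4 (algebraMap F K t)
      have h7 : φ (algebraMap F K t) = algebraMap F L t := φ.commutes t
      rw [h7, h, ord_under, ord_under, hw, ht, mul_one, mul_one] at h6
      rw [h4, h, hz1, mul_one, h6]
    · rw [h4, hz2 _ (hT2 _ h5) h, mul_zero, zero_mul]
  have h4 : (ram F P : ℤ) * ram F w =
      ((Finset.univ.filter fun φ : K →ₐ[F] L => pb (φ.restrictScalars k) P = w).card : ℤ) *
        ram F P := by
    rw [← h1, Finset.sum_mul, Finset.sum_congr rfl fun φ _ => h3 φ, ← Finset.sum_filter,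
      Finset.sum_const, nsmul_eq_mul, h1]
  have h5 : (ram F P : ℤ) * ram F w = ram F P *
      ((Finset.univ.filter fun φ : K →ₐ[F] L => pb (φ.restrictScalars k) P = w).card : ℤ) := by
    rw [h4, mul_comm]
  exact (mul_left_cancel₀ hP.ne' h5).symm

/-- The fundamental identity. -/
theorem exists_over (v : Place k F) : ∃ T : Finset (Place k K),
    (∀ w, w ∈ T ↔ under F w = v) ∧ ∑ w ∈ T, (ram F w : ℤ) = Module.finrank F K := by
  classical
  obtain ⟨t, ht0, ht⟩ := v.surj
  obtain ⟨T, hT, hTn⟩ := nf_ k F K v
  have hT' : ∀ w, w ∈ T ↔ under F w = v := by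
    intro w
    rw [hT]
    constructor
    · intro hw
      symm
      refine Place.eq_of_le _ _ fun f hf0 hf => ?_
      have h2 := (hw f (Or.inr hf)).resolve_left (by simpa using hf0)
      rw [ord_under] at h2
      have h3 : (0 : ℤ) < ram F w := by exact_mod_cast (ram_spec (F := F) w).1
      by_contra hcon
      push Not at hcon
      nlinarith
    · intro hw h hh
      rcases hh with hh | hh
      · exact Or.inl (by rw [hh, map_zero])
      · right
        rw [ord_under, hw]
        positivity
  refine ⟨T, hT', ?_⟩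
  have h1 := hTn (algebraMap F K t) (by simpa using ht0)
  rw [Algebra.norm_algebraMap, Place.ord_pow, ht, mul_one] at h1
  rw [h1]
  refine Finset.sum_congr rfl fun w hw => ?_
  rw [ord_under, (hT' w).1 hw, ht, mul_one]

theorem exists_place_over (v : Place k F) : ∃ w : Place k K, under F w = v := by
  obtain ⟨T, hT, h⟩ := exists_over (K := K) v
  by_contra hcon
  push Not at hcon
  have h1 : T = ∅ := Finset.eq_empty_of_forall_notMem fun w hw => hcon w ((hT w).1 hw)
  rw [h1, Finset.sum_empty] at h
  have h2 : 0 < Module.finrank F K := Module.finrank_pos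
  omega

end count

section galois

variable {k : Type} [Field k] {K : Type} [Field K] [Algebra k K] (Γ : Subgroup (K ≃ₐ[k] K))
  [Finite Γ]

instance finDim_fixed : FiniteDimensional (fixedField Γ) K :=
  inferInstanceAs (FiniteDimensional (FixedPoints.subfield Γ K) K)

instance isGalois_fixed : IsGalois (fixedField Γ) K :=
  inferInstanceAs (IsGalois (FixedPoints.subfield Γ K) K)

theorem isFF_fixed [CharZero k] [IsFF k K] : IsFF k (fixedField Γ) := by
  obtain ⟨t, ht⟩ := IsFF.exists_transcendental (k := k) (K := K)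
  -- a coefficient of the minimal polynomial of `t` is transcendental
  have h1 : ∃ u : fixedField Γ, Transcendental k u := by
    by_contra hcon
    push Not at hcon
    have h2 : Algebra.IsAlgebraic k (fixedField Γ) := ⟨fun u => by
      have := hcon u
      unfold Transcendental at this
      exact not_not.1 this⟩
    have h3 : Algebra.IsAlgebraic k K := Algebra.IsAlgebraic.trans k (fixedField Γ) K
    exact ht (h3.isAlgebraic t)
  obtain ⟨u, hu⟩ := h1
  have hu' : Transcendental k (algebraMap (fixedField Γ) K u) :=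
    (transcendental_algebraMap_iff (algebraMap (fixedField Γ) K).injective).2 hu
  have hfin : FiniteDimensional k⟮algebraMap (fixedField Γ) K u⟯ K := IsFF.finite hu'
  have h5 : FiniteDimensional k⟮u⟯ K := by
    rw [← adjoin_algebraMap] at hfin
    refine Module.Finite.of_equiv_equiv (IntermediateField.equivMap (k⟮u⟯)
      (IsScalarTower.toAlgHom k (fixedField Γ) K)).symm.toRingEquiv (RingEquiv.refl K) ?_
    ext ⟨x, hx⟩
    obtain ⟨y, hy, rfl⟩ := hx
    exact congrArg (fun z : k⟮u⟯ => algebraMap (fixedField Γ) K (z : fixedField Γ))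
      (AlgEquiv.symm_apply_apply (IntermediateField.equivMap (k⟮u⟯)
        (IsScalarTower.toAlgHom k (fixedField Γ) K)) ⟨y, hy⟩)
  have e1 : FiniteDimensional k⟮u⟯ (fixedField Γ) :=
    FiniteDimensional.left k⟮u⟯ (fixedField Γ) K
  exact IsFF.of_finite hu e1

theorem place_unique {P Q : Place k K} {e : ℕ} (he : 0 < e)
    (h : ∀ f : K, Q.ord f = e * P.ord f) : P = Q := by
  refine Place.eq_of_le _ _ fun f hf0 hf => ?_
  rw [h]
  positivity

variable [CharZero k] [IsFF k K] [IsAlgClosed k]

theorem orbit (P P' : Place k K)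
    (h : @under k _ (fixedField Γ) _ _ K _ _ _ _ _ _ (isFF_fixed Γ) _ P =
      @under k _ (fixedField Γ) _ _ K _ _ _ _ _ _ (isFF_fixed Γ) _ P') :
    ∃ s ∈ Γ, P' = act s P := by
  classical
  have i1 : IsFF k (fixedField Γ) := isFF_fixed Γ
  let e := algEquivEquivAlgHom (fixedField Γ) K
  let i2 : Fintype (K →ₐ[fixedField Γ] K) := Fintype.ofEquiv _ e.toEquiv
  have hN : ∀ z : K, algebraMap (fixedField Γ) K (Algebra.norm (fixedField Γ) z) =
      ∏ φ : K →ₐ[fixedField Γ] K, φ z := by
    intro z
    rw [Algebra.norm_eq_prod_automorphisms]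
    exact Fintype.prod_equiv e.toEquiv _ _ fun σ => rfl
  have h1 := count_over (F := fixedField Γ) (K := K) (L := K) hN P P' h.symm
  rw [tot_apply] at h1
  have h2 := (ram_spec (F := fixedField Γ) P').1
  have h3 : 0 < (Finset.univ.filter fun φ : K →ₐ[fixedField Γ] K =>
      pb (φ.restrictScalars k) P = P').card := by omega
  obtain ⟨φ, hφ⟩ := Finset.card_pos.1 h3
  rw [Finset.mem_filter] at hφ
  obtain ⟨s, hs⟩ := (FixedPoints.toAlgHom_bijective Γ K).2 φ
  have hs' : ∀ f : K, φ f = (s : K ≃ₐ[k] K) f := fun f => by rw [← hs]; rfl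
  refine ⟨(s : K ≃ₐ[k] K)⁻¹, Γ.inv_mem s.2, ?_⟩
  obtain ⟨c, hc, hc'⟩ := pb_spec (φ.restrictScalars k) P
  rw [hφ.2] at hc'
  refine place_unique hc fun f => ?_
  rw [← hc']
  change P.ord ((s : K ≃ₐ[k] K) f) = P.ord (φ f)
  rw [hs']

end galois

end Pool.Agent.J4.H17.ZC
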