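import Pool.Agent.J4.H17.ZC.G2

/-!
# Inverse images of zero-cycles under the quotient map of a curve
-/

set_option autoImplicit false

open FF IntermediateField Pool.Agent.W603.LV Pool.Agent.W603.PV

namespace Pool.Agent.J4.H17.ZC

section lifts

variable {k F K L : Type} [Field k] [Field F] [Field K] [Field L] [Algebra k F] [Algebra k K]
  [Algebra k L] [Algebra F K] [IsScalarTower k F K] [FiniteDimensional F K]

theorem extend_one {Ω : Type} [Field Ω] [Algebra k Ω] [Algebra L Ω] [IsScalarTower k L Ω]
    [IsAlgClosed Ω] (φ : F →ₐ[k] L) :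
    ∃ ψ : K →ₐ[k] Ω, ∀ x : F, ψ (algebraMap F K x) = algebraMap L Ω (φ x) := by
  let _ : Algebra F Ω := ((algebraMap L Ω).comp φ.toRingHom).toAlgebra
  have : IsScalarTower k F Ω := IsScalarTower.of_algebraMap_eq fun c => by
    change algebraMap k Ω c = algebraMap L Ω (φ (algebraMap k F c))
    rw [φ.commutes, ← IsScalarTower.algebraMap_apply]
  let ψ : K →ₐ[F] Ω := IsAlgClosed.lift
  exact ⟨ψ.restrictScalars k, fun x => ψ.commutes x⟩

theorem exists_lift_all {ι : Type} [Finite ι] (c : ι → Prop) (φ : ∀ i, c i → (F →ₐ[k] L)) :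
    ∃ (L' : Type) (_ : Field L') (_ : Algebra k L') (_ : Algebra L L') (_ : IsScalarTower k L L')
      (_ : FiniteDimensional L L'), ∀ i (h : c i), ∃ ψ : K →ₐ[k] L',
        ∀ x : F, ψ (algebraMap F K x) = algebraMap L L' (φ i h x) := by
  classical
  let Ω := AlgebraicClosure L
  have h1 : ∀ i (h : c i), ∃ ψ : K →ₐ[k] Ω, ∀ x : F, ψ (algebraMap F K x) =
      algebraMap L Ω (φ i h x) := fun i h => extend_one (φ i h)
  choose ψ hψ using h1
  let B := Module.finBasis F K
  let S : Set Ω := ⋃ i, ⋃ h : c i, Set.range fun b => ψ i h (B b)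
  have hS : S.Finite := Set.finite_iUnion fun i => Set.finite_iUnion fun h => Set.finite_range _
  have : Finite S := hS
  let L' := IntermediateField.adjoin L S
  have hfd : FiniteDimensional L L' := IntermediateField.finiteDimensional_adjoin fun x _ =>
    Algebra.IsIntegral.isIntegral x
  have hmem : ∀ i (h : c i) (x : K), ψ i h x ∈ L' := by
    intro i h x
    rw [← B.sum_repr x, map_sum]
    refine L'.sum_mem fun b _ => ?_
    rw [Algebra.smul_def, map_mul, hψ]
    refine L'.mul_mem (L'.algebraMap_mem _) ?_
    apply IntermediateField.subset_adjoin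
    exact Set.mem_iUnion.2 ⟨i, Set.mem_iUnion.2 ⟨h, b, rfl⟩⟩
  refine ⟨L', inferInstance, inferInstance, inferInstance, inferInstance, hfd, ?_⟩
  intro i h
  refine ⟨(ψ i h).codRestrict (L'.toSubalgebra.restrictScalars k) (hmem i h), fun x => ?_⟩
  apply Subtype.ext
  exact hψ i h x

end lifts

section trace

variable {k : Type} [Field k] [IsAlgClosed k] [CharZero k] {L L' : Type} [Field L] [Field L']
  [Algebra k L] [Algebra k L'] [Algebra L L'] [IsScalarTower k L L'] [IsFF k L] [IsFF k L']
  [FiniteDimensional L L']

/-- The sum over the zeros and poles of a function on a covering. -/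
theorem sum_cover (f : L) (A : Place k L → ℚ) :
    ((divisor k (algebraMap L L' f)).sum fun P' n => (n : ℚ) * A (under L P')) =
      (Module.finrank L L' : ℚ) * (divisor k f).sum fun P n => (n : ℚ) * A P := by
  classical
  have h1 : ∀ P : Place k L, ∃ T : Finset (Place k L'),
      (∀ w, w ∈ T ↔ under L w = P) ∧ ∑ w ∈ T, (ram L w : ℤ) = Module.finrank L L' :=
    fun P => exists_over P
  choose T hT hTs using h1
  have hord : ∀ P' : Place k L', divisor k (algebraMap L L' f) P' =
      ram L P' * divisor k f (under L P') := fun P' => ord_under P' f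
  unfold Finsupp.sum
  have hmap : ∀ P' ∈ (divisor k (algebraMap L L' f)).support,
      under L P' ∈ (divisor k f).support := by
    intro P' hP'
    rw [Finsupp.mem_support_iff, hord] at hP'
    rw [Finsupp.mem_support_iff]
    exact right_ne_zero_of_mul hP'
  rw [← Finset.sum_fiberwise_of_maps_to hmap, Finset.mul_sum]
  refine Finset.sum_congr rfl fun P hP => ?_
  have h2 : (divisor k (algebraMap L L' f)).support.filter (fun P' => under L P' = P) = T P := by
    ext P'
    rw [Finset.mem_filter, hT]
    constructor
    · exact fun h => h.2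
    · intro h
      refine ⟨?_, h⟩
      rw [Finsupp.mem_support_iff, hord, h]
      rw [Finsupp.mem_support_iff] at hP
      have := (ram_spec (F := L) P').1
      exact mul_ne_zero (by exact_mod_cast this.ne') hP
  rw [h2]
  have h3 : ∀ P' ∈ T P, ((divisor k (algebraMap L L' f) P' : ℤ) : ℚ) * A (under L P') =
      ((ram L P' : ℤ) : ℚ) * (((divisor k f P : ℤ) : ℚ) * A P) := by
    intro P' hP'
    rw [hord, (hT P P').1 hP']
    push_cast
    ring
  rw [Finset.sum_congr rfl h3, ← Finset.sum_mul]
  congr 1
  exact_mod_cast congrArg (fun z : ℤ => (z : ℚ)) (hTs P)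

end trace

section pull

variable {k : Type} [Field k] {K : Type} [Field K] [Algebra k K] {H : Type} [Group H] [Fintype H]
  (β : H →* (K ≃ₐ[k] K))

/-- the sum of the images of a point -/
noncomputable def NN (P : Place k K) : Place k K →₀ ℤ :=
  ∑ h : H, Finsupp.single (act (β h) P) 1

theorem NN_act (h : H) (P : Place k K) : NN β (act (β h) P) = NN β P := by
  unfold NN
  refine Fintype.sum_equiv (Equiv.mulRight h) _ _ fun x => ?_
  rw [Equiv.coe_mulRight, map_mul, act_mul]

instance : Finite β.range := by
  have : Set.Finite (Set.range β) := Set.finite_range β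
  exact this

variable [CharZero k] [IsFF k K] [IsAlgClosed k]

theorem NN_eq {P P' : Place k K} [IsFF k (fixedField β.range)]
    (h : under (fixedField β.range) P = under (fixedField β.range) P') : NN β P = NN β P' := by
  obtain ⟨s, hs, rfl⟩ := orbit β.range P P' h
  obtain ⟨x, rfl⟩ := hs
  rw [NN_act]

variable [IsFF k (fixedField β.range)]

/-- a point of the curve over a given point of the quotient -/
noncomputable def lf (w : Place k (fixedField β.range)) : Place k K :=
  (exists_place_over (K := K) w).choose

theorem lf_spec (w : Place k (fixedField β.range)) : under (fixedField β.range) (lf β w) = w :=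
  (exists_place_over (K := K) w).choose_spec

theorem NN_lf (P : Place k K) : NN β (lf β (under (fixedField β.range) P)) = NN β P :=
  NN_eq β (lf_spec β _)

variable {ι : Type} [Fintype ι] [DecidableEq ι]

/-- The inverse image of zero-cycles rationally equivalent to zero. -/
theorem pull (l : ((ι → Place k K) →₀ ℤ) →+ ℚ) (hl : ∀ r ∈ RatEq ((curve k K).pow ι), l r = 0)
    {z : (ι → Place k (fixedField β.range)) →₀ ℤ}
    (hz : z ∈ RatEq ((curve k (fixedField β.range)).pow ι)) :
    l (mx (fun _ w => NN β (lf β w)) z) = 0 := by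
  classical
  let M : ((ι → Place k (fixedField β.range)) →₀ ℤ) →+ ℚ := l.comp (mx fun _ w => NN β (lf β w))
  suffices h : RatEq ((curve k (fixedField β.range)).pow ι) ≤ M.ker from h hz
  unfold RatEq
  rw [AddSubgroup.closure_le]
  rintro z ⟨L, _, _, _, y, f, hy, hf, rfl⟩
  change l (mx (fun _ w => NN β (lf β w)) (Finsupp.mapDomain y (divisor k f))) = 0
  -- the lifts of the coordinates
  have hy' : ∀ i, (∃ Q : Place k (fixedField β.range), ∀ P, y P i = Q) ∨
    ∃ φ : fixedField β.range →ₐ[k] L, ∀ P : Place k L, ∃ e : ℕ, 0 < e ∧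
      ∀ g : fixedField β.range, P.ord (φ g) = e * (y P i).ord g := hy
  let c : ι → Prop := fun i => ¬ ∃ Q : Place k (fixedField β.range), ∀ P, y P i = Q
  have hc : ∀ i, c i → ∃ φ : fixedField β.range →ₐ[k] L, ∀ P : Place k L, ∃ e : ℕ, 0 < e ∧
      ∀ g : fixedField β.range, P.ord (φ g) = e * (y P i).ord g := fun i hi =>
    (hy' i).resolve_left hi
  choose φ hφ using hc
  obtain ⟨L', _, _, _, _, _, hL'⟩ := exists_lift_all (K := K) c φ
  have : IsFF k L' := isFF_of_finite (F := L)
  choose ψ hψ using hL'
  let Y : Place k L' → ι → Place k K := fun P' i =>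
    if h : c i then pb (ψ i h) P' else lf β (not_not.1 h).choose
  have hY : ((curve k K).pow ι).IsMor L' Y := by
    intro i
    by_cases h : c i
    · refine Or.inr ⟨ψ i h, fun P' => ?_⟩
      have h1 : Y P' i = pb (ψ i h) P' := dif_pos h
      obtain ⟨e, he, he'⟩ := pb_spec (ψ i h) P'
      refine ⟨e, he, fun g => ?_⟩
      change _ = (e : ℤ) * (Y P' i).ord g
      rw [h1]
      exact he' g
    · exact Or.inl ⟨lf β (not_not.1 h).choose, fun P' => dif_neg h⟩
  have hunder : ∀ (P' : Place k L') i,
      under (fixedField β.range) (Y P' i) = y (under L P') i := by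
    intro P' i
    by_cases h : c i
    · have h1 : Y P' i = pb (ψ i h) P' := dif_pos h
      rw [h1]
      obtain ⟨e, he, he'⟩ := pb_spec (ψ i h) P'
      obtain ⟨d, hd, hd'⟩ := hφ i h (under L P')
      -- compare the orders of the functions of the fixed field
      have h2 : ∀ g : fixedField β.range, (e : ℤ) * (ram (fixedField β.range) (pb (ψ i h) P') *
          (under (fixedField β.range) (pb (ψ i h) P')).ord g) =
          ram L P' * (d * (y (under L P') i).ord g) := by
        intro g
        rw [← ord_under (F := fixedField β.range), ← he', hψ, ord_under (F := L), hd']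
      have he0 : (0 : ℤ) < e := by exact_mod_cast he
      have hd0 : (0 : ℤ) < d := by exact_mod_cast hd
      have hr0 : (0 : ℤ) < ram (fixedField β.range) (pb (ψ i h) P') := by
        exact_mod_cast (ram_spec (F := fixedField β.range) (pb (ψ i h) P')).1
      have hr1 : (0 : ℤ) < ram L P' := by exact_mod_cast (ram_spec (F := L) P').1
      refine Place.eq_of_le _ _ fun g hg0 hg => ?_
      have h3 := h2 g
      have h4 : 0 ≤ (ram L P' : ℤ) * (d * (y (under L P') i).ord g) := by
        rw [← h3]; positivity
      by_contra hcon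
      push Not at hcon
      have h5 : (d : ℤ) * (y (under L P') i).ord g < 0 := by nlinarith
      nlinarith
    · have h1 : Y P' i = lf β (not_not.1 h).choose := dif_neg h
      rw [h1, lf_spec]
      exact ((not_not.1 h).choose_spec _).symm
  -- the value of the functional
  let A : Place k L → ℚ := fun P => l (extG fun i => NN β (lf β (y P i)))
  have hf' : algebraMap L L' f ≠ 0 := by simpa using hf
  have h1 : l (mx (fun _ P => NN β P) (Finsupp.mapDomain Y (divisor k (algebraMap L L' f)))) =
      0 := by
    refine hl _ (mx_mem (X := curve k K) (Y := curve k K) (J := H) _ (fun _ _ => 1)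
      (fun _ h => act (β h)) (fun _ P => ?_) (fun _ h => act_reg (β h)) (mem_ratEq hY hf'))
    simp only [one_smul]
    rfl
  have h2 : ∀ (D : Place k L' →₀ ℤ), l (mx (fun _ P => NN β P) (Finsupp.mapDomain Y D)) =
      D.sum fun P' n => (n : ℚ) * A (under L P') := by
    intro D
    unfold Finsupp.mapDomain Finsupp.sum
    rw [map_sum, map_sum]
    refine Finset.sum_congr rfl fun P' _ => ?_
    rw [mx_single, map_zsmul, zsmul_eq_mul]
    congr 2
    congr 1
    funext i
    rw [← NN_lf β (Y P' i), hunder]
  have h3 : ∀ (D : Place k L →₀ ℤ), l (mx (fun _ w => NN β (lf β w)) (Finsupp.mapDomain y D)) =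
      D.sum fun P n => (n : ℚ) * A P := by
    intro D
    unfold Finsupp.mapDomain Finsupp.sum
    rw [map_sum, map_sum]
    refine Finset.sum_congr rfl fun P _ => ?_
    rw [mx_single, map_zsmul, zsmul_eq_mul]
  rw [h2, sum_cover] at h1
  rw [h3]
  have h4 : (Module.finrank L L' : ℚ) ≠ 0 := by
    have : 0 < Module.finrank L L' := Module.finrank_pos
    exact_mod_cast this.ne'
  exact (mul_eq_zero.1 h1).resolve_left h4

end pull

end Pool.Agent.J4.H17.ZC
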