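import Pool.Agent.J4.H17.ZC.G3

/-!
# The vanishing of symmetrized zero-cycles pulled back from a quotient of a curve
-/

set_option autoImplicit false

open FF IntermediateField Pool.Agent.W603.LV Pool.Agent.W603.PV

namespace Pool.Agent.J4.H17.ZC

section

variable {k : Type} [Field k] {K : Type} [Field K] [Algebra k K] {H : Type} [Group H] [Fintype H]
  (β : H →* (K ≃ₐ[k] K)) [CharZero k] [IsFF k K] [IsAlgClosed k]

theorem vanish_pull {g : ℕ} (hg : HasGenus k (fixedField β.range) g) {T : Type} [Fintype T]
    [DecidableEq T] (hT : Fintype.card T = g + 1) (s : T → Place k K) (o : Place k K)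
    (l : ((T → Place k K) →₀ ℤ) →+ ℚ) (hl : ∀ r ∈ RatEq ((curve k K).pow T), l r = 0) :
    ∑ σ : Equiv.Perm T, l (extG fun i => NN β (s (σ i)) - NN β o) = 0 := by
  have i1 : IsFF k (fixedField β.range) := isFF_fixed β.range
  have h1 := vanish hg hT (fun i => under (fixedField β.range) (s i))
    (under (fixedField β.range) o) (l.comp (mx fun _ w => NN β (lf β w)))
    (fun r hr => pull β l hl hr)
  rw [← h1]
  refine Finset.sum_congr rfl fun σ _ => ?_
  change _ = l (mx (fun _ w => NN β (lf β w)) (extG _))
  rw [mx_extG]
  congr 2
  funext i
  rw [map_sub, Finsupp.linearCombination_single, Finsupp.linearCombination_single, one_smul,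
    one_smul, NN_lf, NN_lf]

end

/-- Fixed coordinates: the relation in a product where the coordinates outside of `T` are arbitrary
cycles. -/
theorem vanish_multi {k : Type} [Field k] {K : Type} [Field K] [Algebra k K] {H : Type} [Group H]
    [Fintype H] (β : H →* (K ≃ₐ[k] K)) [CharZero k] [IsFF k K] [IsAlgClosed k] {g : ℕ}
    (hg : HasGenus k (fixedField β.range) g) {ι : Type} [Fintype ι] [DecidableEq ι] (T : Finset ι)
    (hT : T.card = g + 1) (s : ι → Place k K) (o : Place k K)
    (l : ((ι → Place k K) →₀ ℤ) →+ ℚ) (hl : ∀ r ∈ RatEq ((curve k K).pow ι), l r = 0)
    (Z : ι → Place k K →₀ ℤ) :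
    ∑ τ ∈ PT T, l (extG fun i => if i ∈ T then NN β (s (τ i)) - NN β o else Z i) = 0 := by
  classical
  -- the case of points outside of `T`
  have key : ∀ z : ι → Place k K, ∑ τ ∈ PT T, l (extG fun i =>
      if i ∈ T then NN β (s (τ i)) - NN β o else Finsupp.single (z i) 1) = 0 := by
    intro z
    let G : ({x // x ∈ T} → Place k K) → (ι → Place k K) := fun u i =>
      if h : i ∈ T then u ⟨i, h⟩ else z i
    have hG : Reg (X := (curve k K).pow {x // x ∈ T}) (Y := (curve k K).pow ι) G := by
      intro L _ _ x hx i
      by_cases h : i ∈ T
      · have h1 := hx ⟨i, h⟩
        have h2 : (fun P => G (x P) i) = fun P => x P ⟨i, h⟩ := by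
          funext P
          simp only [G, h, dite_true]
        rw [h2]
        exact h1
      · have h2 : (fun P => G (x P) i) = fun _ : Place k L => z i := by
          funext P
          simp only [G, h, dite_false]
        rw [h2]
        exact curve_const K L _
    have h1 := vanish_pull β hg (T := {x // x ∈ T}) (by rw [Fintype.card_coe, hT])
      (fun i => s i) o (l.comp (Finsupp.mapDomain.addMonoidHom G)) (fun r hr => hl _ (hG.push hr))
    rw [sum_PT, ← h1]
    refine Finset.sum_congr rfl fun σ _ => ?_
    change _ = l (Finsupp.mapDomain G (extG _))
    congr 1
    -- both sides are multilinear in the factors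
    have h3 : ∀ a : {x // x ∈ T} → Place k K →₀ ℤ, Finsupp.mapDomain G (extG a) =
        extG fun i => if h : i ∈ T then a ⟨i, h⟩ else Finsupp.single (z i) 1 := by
      intro a
      ext y
      by_cases hy : ∀ i, i ∉ T → y i = z i
      · have h4 : y = G fun j => y j := by
          funext i
          by_cases h : i ∈ T
          · simp only [G, h, dite_true]
          · simp only [G, h, dite_false]
            exact hy i h
        have hinj : Function.Injective G := by
          intro u v huv
          funext j
          have := congrFun huv j
          simpa only [G, j.2, dite_true] using this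
        have h5 : Finsupp.mapDomain G (extG a) y = extG a fun j => y j := by
          conv_lhs => rw [h4]
          exact Finsupp.mapDomain_apply hinj (extG a) fun j : {x // x ∈ T} => y j
        rw [h5, extG_apply, extG_apply]
        rw [← Finset.prod_subset (Finset.subset_univ T)]
        · rw [← Finset.prod_coe_sort T]
          refine Finset.prod_congr rfl fun j _ => ?_
          rw [dif_pos j.2]
        · intro i _ hi
          rw [dif_neg hi, hy i hi, Finsupp.single_eq_same]
      · push Not at hy
        obtain ⟨i, hi, hyi⟩ := hy
        rw [extG_apply, Finset.prod_eq_zero (Finset.mem_univ i)]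
        · refine Finsupp.mapDomain_of_notMem_range _ _ ?_
          rintro ⟨u, hu⟩
          apply hyi
          rw [← hu]
          simp only [G, hi, dite_false]
        · rw [dif_neg hi, Finsupp.single_eq_of_ne hyi]
    rw [h3]
    congr 1
    funext i
    by_cases h : i ∈ T
    · rw [if_pos h, dif_pos h]
      congr 1
      congr 1
      rw [Equiv.Perm.ofSubtype_apply_of_mem σ h]
    · rw [if_neg h, dif_neg h]
  -- reduction to this case
  have main : ∀ (U : Finset ι) (Z : ι → Place k K →₀ ℤ),
      (∀ i, i ∉ U → ∃ z, Z i = Finsupp.single z 1) →
      ∑ τ ∈ PT T, l (extG fun i => if i ∈ T then NN β (s (τ i)) - NN β o else Z i) = 0 := by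
    intro U
    induction U using Finset.induction_on with
    | empty =>
      intro Z hZ
      have h1 : ∀ i, ∃ z, Z i = Finsupp.single z 1 := fun i => hZ i (by simp)
      choose z hz using h1
      have h2 : Z = fun i => Finsupp.single (z i) 1 := funext hz
      rw [h2]
      exact key z
    | insert j U hj ih =>
      intro Z hZ
      by_cases hjT : j ∈ T
      · -- the cycle `Z j` does not matter
        have h1 := ih (Function.update Z j (Finsupp.single o 1)) (by
          intro i hi
          by_cases hij : i = j
          · subst hij; exact ⟨o, by rw [Function.update_self]⟩
          · rw [Function.update_of_ne hij]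
            exact hZ i (by rw [Finset.mem_insert, not_or]; exact ⟨hij, hi⟩))
        rw [← h1]
        refine Finset.sum_congr rfl fun τ _ => ?_
        congr 2
        funext i
        by_cases h : i ∈ T
        · rw [if_pos h, if_pos h]
        · rw [if_neg h, if_neg h, Function.update_of_ne (fun h' => h (by rw [h']; exact hjT))]
      · have h1 : ∀ w : Place k K →₀ ℤ, ∑ τ ∈ PT T, l (extG (Function.update
            (fun i => if i ∈ T then NN β (s (τ i)) - NN β o else Z i) j w)) = 0 := by
          intro w
          induction w using Finsupp.induction_linear with
          | zero =>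
            refine Finset.sum_eq_zero fun τ _ => ?_
            rw [← extGM_apply, MultilinearMap.map_update_zero, map_zero]
          | add u v hu hv =>
            have h2 : ∀ τ : Equiv.Perm ι, l (extG (Function.update
                (fun i => if i ∈ T then NN β (s (τ i)) - NN β o else Z i) j (u + v))) =
                l (extG (Function.update
                (fun i => if i ∈ T then NN β (s (τ i)) - NN β o else Z i) j u)) +
                l (extG (Function.update
                (fun i => if i ∈ T then NN β (s (τ i)) - NN β o else Z i) j v)) := by
              intro τ
              rw [← map_add, ← extGM_apply, ← extGM_apply, ← extGM_apply,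
                MultilinearMap.map_update_add]
            rw [Finset.sum_congr rfl fun τ _ => h2 τ, Finset.sum_add_distrib, hu, hv, add_zero]
          | single u c =>
            have h5 : Finsupp.single u c = c • Finsupp.single u (1 : ℤ) := by
              rw [Finsupp.smul_single, smul_eq_mul, mul_one]
            have h2 : ∀ τ : Equiv.Perm ι, l (extG (Function.update
                (fun i => if i ∈ T then NN β (s (τ i)) - NN β o else Z i) j
                  (Finsupp.single u c))) = (c : ℚ) * l (extG (fun i =>
                  if i ∈ T then NN β (s (τ i)) - NN β o else
                    Function.update Z j (Finsupp.single u 1) i)) := by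
              intro τ
              rw [h5, ← extGM_apply, MultilinearMap.map_update_smul, map_zsmul, zsmul_eq_mul,
                extGM_apply]
              congr 3
              funext i
              by_cases hij : i = j
              · subst hij
                rw [Function.update_self, if_neg hjT, Function.update_self]
              · rw [Function.update_of_ne hij, Function.update_of_ne hij]
            rw [Finset.sum_congr rfl fun τ _ => h2 τ, ← Finset.mul_sum, ih, mul_zero]
            intro i hi
            by_cases hij : i = j
            · subst hij; exact ⟨u, by rw [Function.update_self]⟩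
            · rw [Function.update_of_ne hij]
              exact hZ i (by rw [Finset.mem_insert, not_or]; exact ⟨hij, hi⟩)
        have h2 := h1 (Z j)
        rw [← h2]
        refine Finset.sum_congr rfl fun τ _ => ?_
        congr 2
        funext i
        by_cases hij : i = j
        · subst hij
          rw [Function.update_self, if_neg hjT]
        · rw [Function.update_of_ne hij]
  exact main Finset.univ Z (fun i hi => absurd (Finset.mem_univ i) hi)

end Pool.Agent.J4.H17.ZC
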