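import Pool.Agent.J4.H17.ZC.G4
import Pool.Agent.J4.H17.ZC.Fun

/-!
# Alternating sums over the permutations of a part of the factors
-/

set_option autoImplicit false

open FF IntermediateField Equiv

namespace Pool.Agent.J4.H17.ZC

section comb

theorem comb1 {Y : Type} [Fintype Y] [DecidableEq Y] {a b : ℕ} (hn : a * b < Fintype.card Y)
    (Φ : Perm Y → Perm Y → ℚ)
    (h1 : ∀ T : Finset Y, T.card = a + 1 → ∀ u v, ∑ τ ∈ PT T, Φ (u * τ) v = 0)
    (h2 : ∀ T : Finset Y, T.card = b + 1 → ∀ u v, ∑ τ ∈ PT T, Φ u (v * τ) = 0) :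
    ∑ σ : Perm Y, ((Perm.sign σ : ℤ) : ℚ) * Φ σ σ = 0 := by
  classical
  let f : Perm Y → ℚ := fun u => ∑ σ : Perm Y, ((Perm.sign σ : ℤ) : ℚ) * Φ (σ * u) σ
  have hf : f ∈ killed Y a b := by
    constructor
    · intro T hT u
      change ∑ τ ∈ PT T, ∑ σ : Perm Y, ((Perm.sign σ : ℤ) : ℚ) * Φ (σ * (u * τ)) σ = 0
      rw [Finset.sum_comm]
      refine Finset.sum_eq_zero fun σ _ => ?_
      rw [← Finset.mul_sum]
      have h3 := h1 T hT (σ * u) σ
      simp only [mul_assoc] at h3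
      rw [h3, mul_zero]
    · intro T hT u
      change ∑ τ ∈ PT T, ((Perm.sign τ : ℤ) : ℚ) * ∑ σ : Perm Y,
        ((Perm.sign σ : ℤ) : ℚ) * Φ (σ * (τ * u)) σ = 0
      have h3 : ∀ τ : Perm Y, ((Perm.sign τ : ℤ) : ℚ) *
          ∑ σ : Perm Y, ((Perm.sign σ : ℤ) : ℚ) * Φ (σ * (τ * u)) σ =
          ∑ σ : Perm Y, ((Perm.sign σ : ℤ) : ℚ) * Φ (σ * u) (σ * τ⁻¹) := by
        intro τ
        rw [Finset.mul_sum]
        refine Fintype.sum_equiv (Equiv.mulRight τ) _ _ fun σ => ?_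
        rw [Equiv.coe_mulRight, Perm.sign_mul, mul_inv_cancel_right, mul_assoc σ τ u]
        push_cast
        ring
      rw [Finset.sum_congr rfl fun τ _ => h3 τ, Finset.sum_comm]
      refine Finset.sum_eq_zero fun σ _ => ?_
      rw [← Finset.mul_sum]
      have h4 : ∑ τ ∈ PT T, Φ (σ * u) (σ * τ⁻¹) = ∑ τ ∈ PT T, Φ (σ * u) (σ * τ) := by
        refine Finset.sum_nbij' (fun τ => τ⁻¹) (fun τ => τ⁻¹) ?_ ?_ ?_ ?_ ?_
        · intro τ hτ
          rw [mem_PT] at hτ ⊢
          intro x hx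
          rw [Equiv.Perm.inv_eq_iff_eq, hτ x hx]
        · intro τ hτ
          rw [mem_PT] at hτ ⊢
          intro x hx
          rw [Equiv.Perm.inv_eq_iff_eq, hτ x hx]
        · intro τ _; exact inv_inv τ
        · intro τ _; exact inv_inv τ
        · intro τ _; rfl
      rw [h4, h2 T hT (σ * u) σ, mul_zero]
  have h0 : f = 0 := killed_eq_zero hn hf
  have h3 : f 1 = 0 := by rw [h0]; rfl
  rw [← h3]
  refine Finset.sum_congr rfl fun σ _ => ?_
  rw [mul_one]

theorem sum_PT_sub {Y M : Type} [Fintype Y] [DecidableEq Y] [AddCommMonoid M] (A : Finset Y)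
    (T : Finset {x // x ∈ A}) (F : Perm Y → M) :
    ∑ τ ∈ PT T, F (Perm.ofSubtype τ) = ∑ τ ∈ PT (T.map (Function.Embedding.subtype _)), F τ := by
  classical
  refine Finset.sum_bij (fun τ _ => Perm.ofSubtype τ) ?_ ?_ ?_ ?_
  · intro τ hτ
    rw [mem_PT] at hτ ⊢
    intro x hx
    by_cases h : x ∈ A
    · rw [Perm.ofSubtype_apply_of_mem τ h, hτ ⟨x, h⟩]
      intro h'
      exact hx (Finset.mem_map.2 ⟨⟨x, h⟩, h', rfl⟩)
    · exact Perm.ofSubtype_apply_of_not_mem τ h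
  · intro τ _ τ' _ h
    exact Perm.ofSubtype_injective h
  · intro τ hτ
    rw [mem_PT] at hτ
    have hA : ∀ x, x ∉ A → τ x = x := fun x hx => hτ x (by
      intro h
      obtain ⟨y, _, rfl⟩ := Finset.mem_map.1 h
      exact hx y.2)
    have hiff : ∀ x, τ x ∈ A ↔ x ∈ A := by
      intro x
      constructor
      · intro hx
        by_contra h
        rw [hA x h] at hx
        exact h hx
      · intro hx
        by_contra h
        have := hA (τ x) h
        rw [τ.injective.eq_iff] at this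
        rw [this] at h
        exact h hx
    refine ⟨τ.subtypePerm hiff, ?_, ?_⟩
    · rw [mem_PT]
      intro x hx
      apply Subtype.ext
      change τ x = x
      refine hτ x ?_
      intro h
      obtain ⟨y, hy, hyx⟩ := Finset.mem_map.1 h
      have : y = x := Subtype.ext hyx
      exact hx (this ▸ hy)
    · refine Perm.ofSubtype_subtypePerm _ ?_
      intro x hx
      by_contra h
      exact hx (hA x h)
  · intro τ _; rfl

/-- The alternating sum over all permutations, if the relations hold for a part of the set. -/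
theorem comb_part {Y : Type} [Fintype Y] [DecidableEq Y] {a b : ℕ} (A : Finset Y)
    (hn : a * b < A.card) (Φ : Perm Y → Perm Y → ℚ)
    (h1 : ∀ T : Finset Y, T ⊆ A → T.card = a + 1 → ∀ u v, ∑ τ ∈ PT T, Φ (u * τ) v = 0)
    (h2 : ∀ T : Finset Y, T ⊆ A → T.card = b + 1 → ∀ u v, ∑ τ ∈ PT T, Φ u (v * τ) = 0) :
    ∑ σ : Perm Y, ((Perm.sign σ : ℤ) : ℚ) * Φ σ σ = 0 := by
  classical
  have hsub : ∀ T : Finset {x // x ∈ A}, T.map (Function.Embedding.subtype _) ⊆ A := by
    intro T x hx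
    obtain ⟨y, _, rfl⟩ := Finset.mem_map.1 hx
    exact y.2
  have key : ∀ σ : Perm Y, ∑ ρ ∈ PT A, ((Perm.sign (σ * ρ) : ℤ) : ℚ) * Φ (σ * ρ) (σ * ρ) = 0 := by
    intro σ
    have h3 := comb1 (Y := {x // x ∈ A}) (a := a) (b := b) (by rwa [Fintype.card_coe])
      (fun u v => Φ (σ * Perm.ofSubtype u) (σ * Perm.ofSubtype v)) (by
        intro T hT u v
        have h4 := h1 (T.map (Function.Embedding.subtype _)) (hsub T)
          (by rw [Finset.card_map, hT]) (σ * Perm.ofSubtype u) (σ * Perm.ofSubtype v)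
        rw [← sum_PT_sub A T (fun τ => Φ (σ * Perm.ofSubtype u * τ) (σ * Perm.ofSubtype v))] at h4
        rw [← h4]
        refine Finset.sum_congr rfl fun τ _ => ?_
        rw [map_mul, mul_assoc]) (by
        intro T hT u v
        have h4 := h2 (T.map (Function.Embedding.subtype _)) (hsub T)
          (by rw [Finset.card_map, hT]) (σ * Perm.ofSubtype u) (σ * Perm.ofSubtype v)
        rw [← sum_PT_sub A T (fun τ => Φ (σ * Perm.ofSubtype u) (σ * Perm.ofSubtype v * τ))] at h4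
        rw [← h4]
        refine Finset.sum_congr rfl fun τ _ => ?_
        rw [map_mul, mul_assoc])
    rw [sum_PT]
    have h5 : ∀ ρ : Perm {x // x ∈ A}, ((Perm.sign (σ * Perm.ofSubtype ρ) : ℤ) : ℚ) *
        Φ (σ * Perm.ofSubtype ρ) (σ * Perm.ofSubtype ρ) = ((Perm.sign σ : ℤ) : ℚ) *
        (((Perm.sign ρ : ℤ) : ℚ) * Φ (σ * Perm.ofSubtype ρ) (σ * Perm.ofSubtype ρ)) := by
      intro ρ
      rw [Perm.sign_mul, Perm.sign_ofSubtype]
      push_cast
      ring
    rw [Finset.sum_congr rfl fun ρ _ => h5 ρ, ← Finset.mul_sum, h3, mul_zero]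
  have h3 : ∑ ρ ∈ PT A, ∑ σ : Perm Y, ((Perm.sign (σ * ρ) : ℤ) : ℚ) * Φ (σ * ρ) (σ * ρ) = 0 := by
    rw [Finset.sum_comm]
    exact Finset.sum_eq_zero fun σ _ => key σ
  have h4 : ∀ ρ : Perm Y, ∑ σ : Perm Y, ((Perm.sign (σ * ρ) : ℤ) : ℚ) * Φ (σ * ρ) (σ * ρ) =
      ∑ σ : Perm Y, ((Perm.sign σ : ℤ) : ℚ) * Φ σ σ := fun ρ =>
    Fintype.sum_equiv (Equiv.mulRight ρ) _ _ fun σ => rfl
  rw [Finset.sum_congr rfl fun ρ _ => h4 ρ, Finset.sum_const, nsmul_eq_mul, mul_eq_zero] at h3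
  rcases h3 with h3 | h3
  · exfalso
    have h5 : (PT A).card = 0 := by exact_mod_cast h3
    rw [Finset.card_eq_zero] at h5
    have h6 : (1 : Perm Y) ∈ PT A := by rw [mem_PT]; intro x _; rfl
    rw [h5] at h6
    exact absurd h6 (Finset.notMem_empty _)
  · exact h3

end comb

end Pool.Agent.J4.H17.ZC
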