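import Pool.Agent.J4.H17.ZC.QGen

/-!
# Zero-cycles on products of two curves
-/

set_option autoImplicit false

open FF

namespace Pool.Agent.J4.H17.ZC

section

variable {k : Type} [Field k] [CharZero k] {K1 K2 : Type} [Field K1] [Algebra k K1] [IsFF k K1]
  [Field K2] [Algebra k K2] [IsFF k K2]

/-- the maps of the product which are used in the reduction to cycles vanishing on the two axes -/
def th4 (o1 : Place k K1) (o2 : Place k K2) :
    Fin 4 → Place k K1 × Place k K2 → Place k K1 × Place k K2 :=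
  ![fun x => x, fun x => (o1, x.2), fun x => (x.1, o2), fun _ => (o1, o2)]

/-- the signs of the maps `th4` -/
def sg4 : Fin 4 → ℤ := ![1, -1, -1, 1]

omit [CharZero k] [IsFF k K1] [IsFF k K2] in
theorem ec4_eq (o1 : Place k K1) (o2 : Place k K2) (x : Place k K1 × Place k K2) :
    ec sg4 (th4 o1 o2) x = Finsupp.single x 1 - Finsupp.single (o1, x.2) 1 -
      Finsupp.single (x.1, o2) 1 + Finsupp.single (o1, o2) 1 := by
  unfold ec
  rw [Fin.sum_univ_four]
  change (1 : ℤ) • Finsupp.single x 1 + (-1 : ℤ) • Finsupp.single (o1, x.2) 1 +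
    (-1 : ℤ) • Finsupp.single (x.1, o2) 1 + (1 : ℤ) • Finsupp.single (o1, o2) 1 = _
  simp only [neg_smul, one_smul]
  abel

omit [CharZero k] [IsFF k K1] [IsFF k K2] in
theorem ec4_left (o1 : Place k K1) (o2 : Place k K2) (t : Place k K2) :
    ec sg4 (th4 o1 o2) (o1, t) = 0 := by
  rw [ec4_eq]; simp only; abel

omit [CharZero k] [IsFF k K1] [IsFF k K2] in
theorem ec4_right (o1 : Place k K1) (o2 : Place k K2) (s : Place k K1) :
    ec sg4 (th4 o1 o2) (s, o2) = 0 := by
  rw [ec4_eq]; simp only; abel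

omit [CharZero k] [IsFF k K1] [IsFF k K2] in
theorem lec4_eq (o1 : Place k K1) (o2 : Place k K2) (a : Place k K1 × Place k K2 →₀ ℤ) :
    lec sg4 (th4 o1 o2) a = a - Finsupp.mapDomain (fun x => (o1, x.2)) a -
      Finsupp.mapDomain (fun x => (x.1, o2)) a + Finsupp.mapDomain (fun _ => (o1, o2)) a := by
  unfold lec
  rw [AddMonoidHom.finsetSum_apply, Fin.sum_univ_four]
  change (1 : ℤ) • Finsupp.mapDomain (fun x => x) a +
    (-1 : ℤ) • Finsupp.mapDomain (fun x : Place k K1 × Place k K2 => (o1, x.2)) a +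
    (-1 : ℤ) • Finsupp.mapDomain (fun x : Place k K1 × Place k K2 => (x.1, o2)) a +
    (1 : ℤ) • Finsupp.mapDomain (fun _ : Place k K1 × Place k K2 => (o1, o2)) a = _
  have h : Finsupp.mapDomain (fun x : Place k K1 × Place k K2 => x) a = a :=
    Finsupp.mapDomain_id
  rw [h]
  simp only [neg_smul, one_smul]
  abel

omit [CharZero k] [IsFF k K1] [IsFF k K2] in
variable (k K1 K2) in
theorem prod_const : ((curve k K1).prod (curve k K2)).Const :=
  fun L _ _ Q => ⟨Or.inl ⟨Q.1, fun _ => rfl⟩, Or.inl ⟨Q.2, fun _ => rfl⟩⟩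

omit [CharZero k] [IsFF k K1] [IsFF k K2] in
theorem th4_reg (o1 : Place k K1) (o2 : Place k K2) (j : Fin 4) :
    Reg (X := (curve k K1).prod (curve k K2)) (Y := (curve k K1).prod (curve k K2))
      (th4 o1 o2 j) := by
  intro L _ _ y hy
  fin_cases j
  · exact hy
  · exact ⟨Or.inl ⟨o1, fun _ => rfl⟩, hy.2⟩
  · exact ⟨hy.1, Or.inl ⟨o2, fun _ => rfl⟩⟩
  · exact prod_const k K1 K2 L (o1, o2)

/-- A zero-cycle whose images in the two curves are principal is equivalent to its reduction. -/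
theorem sub_lec4_mem (o1 : Place k K1) (o2 : Place k K2) {a : Place k K1 × Place k K2 →₀ ℤ}
    (h1 : Principal k K1 (Finsupp.mapDomain Prod.fst a))
    (h2 : Principal k K2 (Finsupp.mapDomain Prod.snd a)) :
    a - lec sg4 (th4 o1 o2) a ∈ RatEq ((curve k K1).prod (curve k K2)) := by
  obtain ⟨f, hf, hf'⟩ := h1
  obtain ⟨h, hh, hh'⟩ := h2
  have e1 : Finsupp.mapDomain (fun x => (o1, x.2)) a =
      Finsupp.mapDomain (fun t => (o1, t)) (divisor k h) := by
    rw [← hh', ← Finsupp.mapDomain_comp]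
    rfl
  have e2 : Finsupp.mapDomain (fun x => (x.1, o2)) a =
      Finsupp.mapDomain (fun s => (s, o2)) (divisor k f) := by
    rw [← hf', ← Finsupp.mapDomain_comp]
    rfl
  have e3 : Finsupp.mapDomain (fun _ => (o1, o2)) a =
      Finsupp.mapDomain (fun _ => (o1, o2)) (divisor k f) := by
    rw [← hf', ← Finsupp.mapDomain_comp]
    rfl
  have e4 : a - lec sg4 (th4 o1 o2) a =
      Finsupp.mapDomain (fun t => (o1, t)) (divisor k h) +
      Finsupp.mapDomain (fun s => (s, o2)) (divisor k f) -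
      Finsupp.mapDomain (fun _ => (o1, o2)) (divisor k f) := by
    rw [lec4_eq, e1, e2, e3]
    abel
  rw [e4]
  have hid : ∀ (K : Type) [Field K] [Algebra k K], (curve k K).IsMor K (fun P => P) :=
    fun K _ _ => Or.inr ⟨AlgHom.id k K, fun P => ⟨1, one_pos, fun g => by simp⟩⟩
  refine AddSubgroup.sub_mem _ (AddSubgroup.add_mem _ ?_ ?_) ?_
  · exact mem_ratEq (X := (curve k K1).prod (curve k K2)) (L := K2)
      ⟨curve_const K1 K2 o1, hid K2⟩ hh
  · exact mem_ratEq (X := (curve k K1).prod (curve k K2)) (L := K1)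
      ⟨hid K1, curve_const K2 K1 o2⟩ hf
  · exact mem_ratEq (X := (curve k K1).prod (curve k K2)) (L := K1)
      (prod_const k K1 K2 K1 (o1, o2)) hf

/-- Reduction of the alternating sums to cycles vanishing on the axes. -/
theorem l_altSum (o1 : Place k K1) (o2 : Place k K2) {n : ℕ}
    (a : Fin n → (Place k K1 × Place k K2 →₀ ℤ))
    (h1 : ∀ i, Principal k K1 (Finsupp.mapDomain Prod.fst (a i)))
    (h2 : ∀ i, Principal k K2 (Finsupp.mapDomain Prod.snd (a i)))
    (l : ((Fin n → Place k K1 × Place k K2) →₀ ℤ) →+ ℚ)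
    (hl : ∀ r ∈ RatEq (((curve k K1).prod (curve k K2)).pow (Fin n)), l r = 0) :
    l (altSum a) = l (EE sg4 (th4 o1 o2) n (ALT (ext a))) := by
  have h4 : ∀ σ : Equiv.Perm (Fin n), l (ext fun i => a (σ i)) =
      l (EE sg4 (th4 o1 o2) n (ext fun i => a (σ i))) := by
    intro σ
    have h5 := hl _ (ext_sub_mem (prod_const k K1 K2) (fun i => a (σ i))
      (fun i => lec sg4 (th4 o1 o2) (a (σ i))) fun i => sub_lec4_mem o1 o2 (h1 _) (h2 _))
    rw [map_sub, sub_eq_zero] at h5
    rw [EE_ext]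
    exact h5
  rw [← altSum_eq]
  unfold altSum
  rw [map_sum, map_sum, map_sum]
  refine Finset.sum_congr rfl fun σ _ => ?_
  rw [map_zsmul, map_zsmul, map_zsmul, h4 σ]

end

end Pool.Agent.J4.H17.ZC
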