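import Pool.Agent.J4.H17.ZC.G5
import Pool.Agent.J4.H17.ZC.Prd

/-!
# Products of zero-cycles on two curves and relations in powers of the product
-/

set_option autoImplicit false

open FF IntermediateField Equiv

namespace Pool.Agent.J4.H17.ZC

section px

variable {A B : Type}

/-- the product of two zero-cycles -/
noncomputable def px (Z : A →₀ ℤ) (W : B →₀ ℤ) : (A × B) →₀ ℤ :=
  Finsupp.linearCombination ℤ (fun s => Finsupp.mapDomain (fun t => (s, t)) W) Z

theorem px_add_left (Z Z' : A →₀ ℤ) (W : B →₀ ℤ) : px (Z + Z') W = px Z W + px Z' W := by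
  unfold px; rw [map_add]

theorem px_sub_left (Z Z' : A →₀ ℤ) (W : B →₀ ℤ) : px (Z - Z') W = px Z W - px Z' W := by
  unfold px; rw [map_sub]

theorem px_smul_left (c : ℤ) (Z : A →₀ ℤ) (W : B →₀ ℤ) : px (c • Z) W = c • px Z W := by
  unfold px; rw [map_smul]

theorem px_single_left (s : A) (W : B →₀ ℤ) :
    px (Finsupp.single s 1) W = Finsupp.mapDomain (fun t => (s, t)) W := by
  unfold px; rw [Finsupp.linearCombination_single, one_smul]

theorem px_single_single (s : A) (t : B) (m n : ℤ) :
    px (Finsupp.single s m) (Finsupp.single t n) = Finsupp.single (s, t) (m * n) := by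
  unfold px
  rw [Finsupp.linearCombination_single, Finsupp.mapDomain_single, Finsupp.smul_single, smul_eq_mul]

/-- `px` as a map which is additive in both variables -/
noncomputable def pxHom : (A →₀ ℤ) →+ (B →₀ ℤ) →+ ((A × B) →₀ ℤ) where
  toFun Z :=
    { toFun := fun W => px Z W
      map_zero' := by
        unfold px
        simp only [Finsupp.mapDomain_zero]
        rw [Finsupp.linearCombination_apply]
        simp
      map_add' := fun W W' => by
        unfold px
        simp only [Finsupp.linearCombination_apply, Finsupp.mapDomain_add, smul_add]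
        exact Finsupp.sum_add }
  map_zero' := by
    ext W
    simp [px]
  map_add' Z Z' := by
    refine AddMonoidHom.ext fun W => ?_
    exact px_add_left Z Z' W

theorem pxHom_apply (Z : A →₀ ℤ) (W : B →₀ ℤ) : pxHom Z W = px Z W := rfl

theorem px_add_right (Z : A →₀ ℤ) (W W' : B →₀ ℤ) : px Z (W + W') = px Z W + px Z W' :=
  (pxHom Z).map_add W W'

theorem px_sub_right (Z : A →₀ ℤ) (W W' : B →₀ ℤ) : px Z (W - W') = px Z W - px Z W' :=
  (pxHom Z).map_sub W W'

theorem px_smul_right (c : ℤ) (Z : A →₀ ℤ) (W : B →₀ ℤ) : px Z (c • W) = c • px Z W :=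
  (pxHom Z).map_zsmul c W

theorem px_sum_left {J : Type} (s : Finset J) (Z : J → A →₀ ℤ) (W : B →₀ ℤ) :
    px (∑ j ∈ s, Z j) W = ∑ j ∈ s, px (Z j) W := by
  rw [← pxHom_apply, map_sum, AddMonoidHom.finsetSum_apply]
  rfl

theorem px_sum_right {J : Type} (s : Finset J) (Z : A →₀ ℤ) (W : J → B →₀ ℤ) :
    px Z (∑ j ∈ s, W j) = ∑ j ∈ s, px Z (W j) := by
  rw [← pxHom_apply, map_sum]
  rfl

theorem px_swap (Z : A →₀ ℤ) (W : B →₀ ℤ) :
    px Z W = Finsupp.linearCombination ℤ (fun t => Finsupp.mapDomain (fun s => (s, t)) Z) W := by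
  induction W using Finsupp.induction_linear with
  | zero => rw [map_zero]; exact (pxHom Z).map_zero
  | add u v hu hv => rw [px_add_right, map_add, hu, hv]
  | single t c =>
    rw [Finsupp.linearCombination_single]
    induction Z using Finsupp.induction_linear with
    | zero => simp [px]
    | add u v hu hv => rw [px_add_left, Finsupp.mapDomain_add, smul_add, hu, hv]
    | single s m => rw [px_single_single, Finsupp.mapDomain_single, Finsupp.smul_single,
        smul_eq_mul, mul_comm]

end px

section rel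

variable {k : Type} [Field k] [CharZero k] {K1 K2 : Type} [Field K1] [Algebra k K1] [Field K2]
  [Algebra k K2] {n : ℕ}

theorem left_mem (W : Fin n → Place k K2 →₀ ℤ) {u : (Fin n → Place k K1) →₀ ℤ}
    (hu : u ∈ RatEq ((curve k K1).pow (Fin n))) :
    mx (fun i s => Finsupp.mapDomain (fun t => (s, t)) (W i)) u ∈
      RatEq (((curve k K1).prod (curve k K2)).pow (Fin n)) := by
  classical
  let U : Finset (Place k K2) := Finset.univ.biUnion fun i => (W i).support
  refine mx_mem (X := curve k K1) (Y := (curve k K1).prod (curve k K2)) (J := {t // t ∈ U})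
    _ (fun i t => W i t) (fun i t s => (s, (t : Place k K2))) ?_ ?_ hu
  · intro i s
    have h1 : Finsupp.mapDomain (fun t => (s, t)) (W i) =
        ∑ t ∈ U, W i t • Finsupp.single (s, t) (1 : ℤ) := by
      unfold Finsupp.mapDomain Finsupp.sum
      rw [Finset.sum_subset (Finset.subset_biUnion_of_mem (fun i => (W i).support)
        (Finset.mem_univ i))]
      · refine Finset.sum_congr rfl fun t _ => ?_
        rw [Finsupp.smul_single, smul_eq_mul, mul_one]
      · intro t _ ht
        rw [Finsupp.notMem_support_iff.1 ht]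
        exact Finsupp.single_zero _
    rw [h1]
    exact (Finset.sum_coe_sort U fun t => W i t • Finsupp.single (s, t) (1 : ℤ)).symm
  · intro i t L _ _ x hx
    exact ⟨hx, curve_const K2 L _⟩

theorem right_mem (Z : Fin n → Place k K1 →₀ ℤ) {u : (Fin n → Place k K2) →₀ ℤ}
    (hu : u ∈ RatEq ((curve k K2).pow (Fin n))) :
    mx (fun i t => Finsupp.mapDomain (fun s => (s, t)) (Z i)) u ∈
      RatEq (((curve k K1).prod (curve k K2)).pow (Fin n)) := by
  classical
  let U : Finset (Place k K1) := Finset.univ.biUnion fun i => (Z i).support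
  refine mx_mem (X := curve k K2) (Y := (curve k K1).prod (curve k K2)) (J := {s // s ∈ U})
    _ (fun i s => Z i s) (fun i s t => ((s : Place k K1), t)) ?_ ?_ hu
  · intro i t
    have h1 : Finsupp.mapDomain (fun s => (s, t)) (Z i) =
        ∑ s ∈ U, Z i s • Finsupp.single (s, t) (1 : ℤ) := by
      unfold Finsupp.mapDomain Finsupp.sum
      rw [Finset.sum_subset (Finset.subset_biUnion_of_mem (fun i => (Z i).support)
        (Finset.mem_univ i))]
      · refine Finset.sum_congr rfl fun s _ => ?_
        rw [Finsupp.smul_single, smul_eq_mul, mul_one]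
      · intro s _ hs
        rw [Finsupp.notMem_support_iff.1 hs]
        exact Finsupp.single_zero _
    rw [h1]
    exact (Finset.sum_coe_sort U fun s => Z i s • Finsupp.single (s, t) (1 : ℤ)).symm
  · intro i s L _ _ x hx
    exact ⟨curve_const K1 L _, hx⟩

variable [IsAlgClosed k]

/-- The relations in the first factors. -/
theorem rel_left [IsFF k K1] {H : Type} [Group H] [Fintype H] (β : H →* (K1 ≃ₐ[k] K1)) {g : ℕ}
    (hg : HasGenus k (fixedField β.range) g) (T : Finset (Fin n)) (hT : T.card = g + 1)
    (s : Fin n → Place k K1) (o : Place k K1) (Z : Fin n → Place k K1 →₀ ℤ)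
    (W : Fin n → Place k K2 →₀ ℤ)
    (l : ((Fin n → Place k K1 × Place k K2) →₀ ℤ) →+ ℚ)
    (hl : ∀ r ∈ RatEq (((curve k K1).prod (curve k K2)).pow (Fin n)), l r = 0) :
    ∑ τ ∈ PT T, l (extG fun i =>
      px (if i ∈ T then NN β (s (τ i)) - NN β o else Z i) (W i)) = 0 := by
  have h1 := vanish_multi β hg T hT s o
    (l.comp (mx fun i s => Finsupp.mapDomain (fun t => (s, t)) (W i)))
    (fun r hr => hl _ (left_mem W hr)) Z
  rw [← h1]
  refine Finset.sum_congr rfl fun τ _ => ?_
  change _ = l (mx (fun i s => Finsupp.mapDomain (fun t => (s, t)) (W i)) (extG _))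
  rw [mx_extG]
  rfl

/-- The relations in the second factors. -/
theorem rel_right [IsFF k K2] {H : Type} [Group H] [Fintype H] (β : H →* (K2 ≃ₐ[k] K2)) {g : ℕ}
    (hg : HasGenus k (fixedField β.range) g) (T : Finset (Fin n)) (hT : T.card = g + 1)
    (t : Fin n → Place k K2) (o : Place k K2) (Z : Fin n → Place k K1 →₀ ℤ)
    (W : Fin n → Place k K2 →₀ ℤ)
    (l : ((Fin n → Place k K1 × Place k K2) →₀ ℤ) →+ ℚ)
    (hl : ∀ r ∈ RatEq (((curve k K1).prod (curve k K2)).pow (Fin n)), l r = 0) :
    ∑ τ ∈ PT T, l (extG fun i =>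
      px (Z i) (if i ∈ T then NN β (t (τ i)) - NN β o else W i)) = 0 := by
  have h1 := vanish_multi β hg T hT t o
    (l.comp (mx fun i t => Finsupp.mapDomain (fun s => (s, t)) (Z i)))
    (fun r hr => hl _ (right_mem Z hr)) W
  rw [← h1]
  refine Finset.sum_congr rfl fun τ _ => ?_
  change _ = l (mx (fun i t => Finsupp.mapDomain (fun s => (s, t)) (Z i)) (extG _))
  rw [mx_extG]
  congr 2
  funext i
  exact px_swap _ _

end rel

end Pool.Agent.J4.H17.ZC
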