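import Pool.Agent.J4.H17.ZC.Rel

/-!
# Alternating sums of exterior products on powers of a product of two curves
-/

set_option autoImplicit false

open FF IntermediateField Pool.Agent.W603.LV Pool.Agent.W603.PV

namespace Pool.Agent.J4.H17.ZC

section

variable {A : Type} {n : ℕ}

/-- the alternating sum of the images of a zero-cycle under the permutations of the factors -/
noncomputable def ALT : ((Fin n → A) →₀ ℤ) →+ ((Fin n → A) →₀ ℤ) :=
  ∑ σ : Equiv.Perm (Fin n), (Equiv.Perm.sign σ : ℤ) •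
    Finsupp.mapDomain.addMonoidHom fun x i => x (σ i)

theorem ext_perm (a : Fin n → A →₀ ℤ) (σ : Equiv.Perm (Fin n)) :
    ext (fun i => a (σ i)) = Finsupp.mapDomain (fun x i => x (σ i)) (ext a) := by
  let e : (Fin n → A) ≃ (Fin n → A) :=
    { toFun := fun x i => x (σ i)
      invFun := fun x i => x (σ.symm i)
      left_inv := fun x => by funext i; simp
      right_inv := fun x => by funext i; simp }
  have h : Finsupp.mapDomain (fun x i => x (σ i)) (ext a) = Finsupp.mapDomain e (ext a) := rfl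
  rw [h]
  ext x
  have h1 := Finsupp.mapDomain_apply e.injective (ext a) (e.symm x)
  rw [Equiv.apply_symm_apply] at h1
  rw [h1, ext_apply, ext_apply]
  exact Fintype.prod_equiv σ _ _ fun i => by simp [e]

theorem altSum_eq (a : Fin n → A →₀ ℤ) : altSum a = ALT (ext a) := by
  unfold altSum ALT
  rw [AddMonoidHom.finsetSum_apply]
  refine Finset.sum_congr rfl fun σ _ => ?_
  rw [ext_perm]
  rfl

theorem ALT_single (x : Fin n → A) : ALT (Finsupp.single x 1) =
    ∑ σ : Equiv.Perm (Fin n), (Equiv.Perm.sign σ : ℤ) • Finsupp.single (fun i => x (σ i)) 1 := by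
  unfold ALT
  rw [AddMonoidHom.finsetSum_apply]
  refine Finset.sum_congr rfl fun σ _ => ?_
  change (Equiv.Perm.sign σ : ℤ) • Finsupp.mapDomain _ _ = _
  rw [Finsupp.mapDomain_single]

variable {J : Type} [Fintype J]

/-- the linear extension of `ec` -/
noncomputable def lec (ε : J → ℤ) (θ : J → A → A) : (A →₀ ℤ) →+ (A →₀ ℤ) :=
  ∑ j, ε j • Finsupp.mapDomain.addMonoidHom (θ j)

theorem lec_single (ε : J → ℤ) (θ : J → A → A) (x : A) (c : ℤ) :
    lec ε θ (Finsupp.single x c) = c • ec ε θ x := by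
  unfold lec ec
  rw [AddMonoidHom.finsetSum_apply, Finset.smul_sum]
  refine Finset.sum_congr rfl fun j _ => ?_
  change ε j • Finsupp.mapDomain _ _ = _
  rw [Finsupp.mapDomain_single, smul_comm c, Finsupp.smul_single c, smul_eq_mul, mul_one]

theorem EE_ext (ε : J → ℤ) (θ : J → A → A) (a : Fin n → A →₀ ℤ) :
    EE ε θ n (ext a) = ext fun i => lec ε θ (a i) := by
  classical
  -- both sides are multilinear
  let f1 : MultilinearMap ℤ (fun _ : Fin n => A →₀ ℤ) ((Fin n → A) →₀ ℤ) :=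
    (EE ε θ n).toIntLinearMap.compMultilinearMap (extM A n)
  let f2 : MultilinearMap ℤ (fun _ : Fin n => A →₀ ℤ) ((Fin n → A) →₀ ℤ) :=
    (extM A n).compLinearMap fun _ => (lec ε θ).toIntLinearMap
  have h : f1 = f2 := by
    refine Module.Basis.ext_multilinear (fun _ => Finsupp.basisSingleOne) ?_
    intro x
    change EE ε θ n (ext fun i => Finsupp.basisSingleOne (x i)) =
      ext fun i => lec ε θ (Finsupp.basisSingleOne (x i))
    simp only [Finsupp.coe_basisSingleOne, lec_single, one_smul]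
    rw [ext_single, EE_single]
  exact congrArg (fun g : MultilinearMap ℤ (fun _ : Fin n => A →₀ ℤ) ((Fin n → A) →₀ ℤ) => g a) h

end

section

variable {k : Type} [Field k] [CharZero k]

theorem curve_const (K : Type) [Field K] [Algebra k K] : (curve k K).Const :=
  fun _ _ _ Q => Or.inl ⟨Q, fun _ => rfl⟩

/-- A sufficient condition for the alternating sums to be torsion. -/
theorem alt_torsion [IsAlgClosed k] {K1 K2 : Type} [Field K1] [Algebra k K1] [IsFF k K1] [Field K2]
    [Algebra k K2] [IsFF k K2] {g1 g2 : ℕ} (h1 : HasGenus k K1 g1) (h2 : HasGenus k K2 g2)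
    {X : Var k} (hX : X.Const) (ins1 : X.Pt → Place k K1 → X.Pt)
    (hins1 : ∀ a, Reg (X := curve k K1) (Y := X) (ins1 a))
    (ins2 : X.Pt → Place k K2 → X.Pt) (hins2 : ∀ a, Reg (X := curve k K2) (Y := X) (ins2 a))
    (pt : Place k K1 → Place k K2 → X.Pt) (hpt1 : ∀ s t u, ins1 (pt s t) u = pt u t)
    (hpt2 : ∀ s t u, ins2 (pt s t) u = pt s u)
    (o1 : Place k K1) (o2 : Place k K2) {J : Type} [Fintype J] (ε : J → ℤ)
    (θ : J → X.Pt → X.Pt) (hθ : ∀ j, Reg (X := X) (Y := X) (θ j))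
    (he1 : ∀ a, ec ε θ (ins1 a o1) = 0) (he2 : ∀ a, ec ε θ (ins2 a o2) = 0)
    {n : ℕ} (hn : g1 * g2 < n) (s : Fin n → Place k K1) (t : Fin n → Place k K2)
    (l : ((Fin n → X.Pt) →₀ ℤ) →+ ℚ) (hl : ∀ r ∈ RatEq (X.pow (Fin n)), l r = 0) :
    l (EE ε θ n (ALT (Finsupp.single (fun i => pt (s i) (t i)) 1))) = 0 := by
  classical
  let Ψ : (Fin n → Place k K1) → (Fin n → Place k K2) → ℚ := fun s t =>
    l (ext fun i => ec ε θ (pt (s i) (t i)))
  have hΨ1 : ∀ (T : Finset (Fin n)), T.card = g1 + 1 → ∀ (s : Fin n → Place k K1)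
      (t : Fin n → Place k K2),
      ∑ τ ∈ PT T, Ψ (fun i => s (τ i)) t = 0 := by
    intro T hT s t
    obtain ⟨N, hN, h⟩ := sym_rel h1 hX ins1 hins1 o1 ε θ hθ he1 T hT (fun i => pt (s i) (t i)) s
    have h3 := hl _ h
    rw [map_nsmul, map_sum] at h3
    simp only [hpt1] at h3
    rcases smul_eq_zero.1 h3 with h4 | h4
    · omega
    · exact h4
  have hΨ2 : ∀ (T : Finset (Fin n)), T.card = g2 + 1 → ∀ (s : Fin n → Place k K1)
      (t : Fin n → Place k K2),
      ∑ τ ∈ PT T, Ψ s (fun i => t (τ i)) = 0 := by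
    intro T hT s t
    obtain ⟨N, hN, h⟩ := sym_rel h2 hX ins2 hins2 o2 ε θ hθ he2 T hT (fun i => pt (s i) (t i)) t
    have h3 := hl _ h
    rw [map_nsmul, map_sum] at h3
    simp only [hpt2] at h3
    rcases smul_eq_zero.1 h3 with h4 | h4
    · omega
    · exact h4
  let f : Equiv.Perm (Fin n) → ℚ := fun u => ∑ σ : Equiv.Perm (Fin n),
    ((Equiv.Perm.sign σ : ℤ) : ℚ) * Ψ (fun i => s (σ (u i))) (fun i => t (σ i))
  have hf : f ∈ killed (Fin n) g1 g2 := by
    constructor
    · intro T hT u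
      change ∑ τ ∈ PT T, ∑ σ : Equiv.Perm (Fin n), ((Equiv.Perm.sign σ : ℤ) : ℚ) *
        Ψ (fun i => s (σ (u (τ i)))) (fun i => t (σ i)) = 0
      rw [Finset.sum_comm]
      refine Finset.sum_eq_zero fun σ _ => ?_
      rw [← Finset.mul_sum, hΨ1 T hT (fun i => s (σ (u i))) (fun i => t (σ i)), mul_zero]
    · intro T hT u
      change ∑ τ ∈ PT T, ((Equiv.Perm.sign τ : ℤ) : ℚ) * ∑ σ : Equiv.Perm (Fin n),
        ((Equiv.Perm.sign σ : ℤ) : ℚ) * Ψ (fun i => s (σ (τ (u i)))) (fun i => t (σ i)) = 0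
      have h3 : ∀ τ : Equiv.Perm (Fin n), ((Equiv.Perm.sign τ : ℤ) : ℚ) *
          ∑ σ : Equiv.Perm (Fin n),
          ((Equiv.Perm.sign σ : ℤ) : ℚ) * Ψ (fun i => s (σ (τ (u i)))) (fun i => t (σ i)) =
          ∑ σ : Equiv.Perm (Fin n),
          ((Equiv.Perm.sign σ : ℤ) : ℚ) * Ψ (fun i => s (σ (u i))) (fun i => t (σ (τ⁻¹ i))) := by
        intro τ
        rw [Finset.mul_sum]
        refine Fintype.sum_equiv (Equiv.mulRight τ) _ _ fun σ => ?_
        have h5 : ∀ i, τ (τ⁻¹ i) = i := fun i => by simp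
        simp only [Equiv.coe_mulRight, Equiv.Perm.mul_apply, h5, map_mul]
        push_cast
        ring
      rw [Finset.sum_congr rfl fun τ _ => h3 τ, Finset.sum_comm]
      refine Finset.sum_eq_zero fun σ _ => ?_
      rw [← Finset.mul_sum]
      have h4 : ∑ τ ∈ PT T, Ψ (fun i => s (σ (u i))) (fun i => t (σ (τ⁻¹ i))) =
          ∑ τ ∈ PT T, Ψ (fun i => s (σ (u i))) (fun i => t (σ (τ i))) := by
        refine Finset.sum_nbij' (fun τ => τ⁻¹) (fun τ => τ⁻¹) ?_ ?_ ?_ ?_ ?_
        · intro τ hτ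
          rw [mem_PT] at hτ ⊢
          intro x hx
          rw [Equiv.Perm.inv_eq_iff_eq, hτ x hx]
        · intro τ hτ
          rw [mem_PT] at hτ ⊢
          intro x hx
          rw [Equiv.Perm.inv_eq_iff_eq, hτ x hx]
        · intro τ _; exact inv_inv τ
        · intro τ _; exact inv_inv τ
        · intro τ _; rfl
      rw [h4, hΨ2 T hT (fun i => s (σ (u i))) (fun i => t (σ i)), mul_zero]
  have h0 : f = 0 := killed_eq_zero (by rw [Fintype.card_fin]; exact hn) hf
  have h3 : f 1 = 0 := by rw [h0]; rfl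
  rw [ALT_single, map_sum, map_sum]
  rw [← h3]
  refine Finset.sum_congr rfl fun σ _ => ?_
  rw [map_zsmul, map_zsmul, EE_single, zsmul_eq_mul]
  rfl

end

end Pool.Agent.J4.H17.ZC
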