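import Pool.Agent.J4.H17.ZC.Quo
import Pool.Agent.J4.H17.ZC.Main

/-!
# Push-forward to quotients
-/

set_option autoImplicit false

open FF

namespace Pool.Agent.J4.H17.ZC

section

variable {k : Type} [Field k] [CharZero k]

theorem quot_mem {X : Var k} {Y : Type} (q : X.Pt → Y) {n : ℕ} {z : (Fin n → X.Pt) →₀ ℤ}
    (hz : z ∈ RatEq (X.pow (Fin n))) :
    Finsupp.mapDomain (fun x i => q (x i)) z ∈ RatEq ((X.quot q).pow (Fin n)) := by
  have h : RatEq (X.pow (Fin n)) ≤ (RatEq ((X.quot q).pow (Fin n))).comap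
      (Finsupp.mapDomain.addMonoidHom fun x i => q (x i)) := by
    unfold RatEq
    rw [AddSubgroup.closure_le]
    rintro z ⟨L, _, _, _, x, f, hx, hf, rfl⟩
    change Finsupp.mapDomain (fun x i => q (x i)) (Finsupp.mapDomain x (divisor k f)) ∈
      RatEq ((X.quot q).pow (Fin n))
    rw [← Finsupp.mapDomain_comp]
    refine AddSubgroup.subset_closure ⟨L, inferInstance, inferInstance, inferInstance,
      (fun x i => q (x i)) ∘ x, f, ?_, hf, rfl⟩
    intro i
    refine ⟨L, inferInstance, inferInstance, inferInstance, AlgHom.id k L, fun P => x P i, hx i, ?_⟩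
    intro P P' e he hP
    have h1 : P' = P := by
      refine Place.eq_of_le _ _ fun f hf0 hf => ?_
      have h2 := hP f
      rw [AlgHom.id_apply] at h2
      have h3 : (0 : ℤ) < e := by exact_mod_cast he
      by_contra hcon
      push Not at hcon
      nlinarith
    rw [h1]
    rfl
  exact h hz

theorem map_ext {A B : Type} (q : A → B) {n : ℕ} (a : Fin n → A →₀ ℤ) :
    Finsupp.mapDomain (fun x i => q (x i)) (ext a) = ext fun i => Finsupp.mapDomain q (a i) := by
  classical
  let f1 : MultilinearMap ℤ (fun _ : Fin n => A →₀ ℤ) ((Fin n → B) →₀ ℤ) :=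
    (Finsupp.mapDomain.addMonoidHom fun (x : Fin n → A) i => q (x i)).toIntLinearMap.compMultilinearMap
      (extM A n)
  let f2 : MultilinearMap ℤ (fun _ : Fin n => A →₀ ℤ) ((Fin n → B) →₀ ℤ) :=
    (extM B n).compLinearMap fun _ => (Finsupp.mapDomain.addMonoidHom q).toIntLinearMap
  have h : f1 = f2 := by
    refine Module.Basis.ext_multilinear (fun _ => Finsupp.basisSingleOne) ?_
    intro x
    change Finsupp.mapDomain _ (ext fun i => Finsupp.basisSingleOne (x i)) =
      ext fun i => Finsupp.mapDomain q (Finsupp.basisSingleOne (x i))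
    simp only [Finsupp.coe_basisSingleOne, Finsupp.mapDomain_single]
    rw [ext_single, ext_single, Finsupp.mapDomain_single]
  exact congrArg (fun g : MultilinearMap ℤ (fun _ : Fin n => A →₀ ℤ) ((Fin n → B) →₀ ℤ) => g a) h

theorem map_altSum {A B : Type} (q : A → B) {n : ℕ} (a : Fin n → A →₀ ℤ) :
    Finsupp.mapDomain (fun x i => q (x i)) (altSum a) =
      altSum fun i => Finsupp.mapDomain q (a i) := by
  unfold altSum
  have h := map_sum (Finsupp.mapDomain.addMonoidHom fun (x : Fin n → A) i => q (x i))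
    (fun σ : Equiv.Perm (Fin n) => (Equiv.Perm.sign σ : ℤ) • ext fun i => a (σ i)) Finset.univ
  refine h.trans ?_
  refine Finset.sum_congr rfl fun σ _ => ?_
  rw [map_zsmul]
  congr 1
  exact map_ext q fun i => a (σ i)

theorem altSum_smul {A : Type} {n : ℕ} (c : ℤ) (a : Fin n → A →₀ ℤ) :
    altSum (fun i => c • a i) = c ^ n • altSum a := by
  unfold altSum
  rw [Finset.smul_sum]
  refine Finset.sum_congr rfl fun σ _ => ?_
  rw [smul_comm (c ^ n)]
  congr 1
  rw [← extM_apply, MultilinearMap.map_smul_univ]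
  simp [extM_apply]

end

/-- The relation from the theorem of Riemann for a family of points of the same curve. -/
theorem fam_rel {k : Type} [Field k] [CharZero k] [IsAlgClosed k] {K : Type} [Field K]
    [Algebra k K] [IsFF k K] {g : ℕ} (hg : HasGenus k K g) {X : Var k} {I : Type} [Fintype I]
    [DecidableEq I] {n : ℕ} (F : (I → Place k K) → (Fin n → X.Pt))
    (hF : Reg (X := (curve k K).pow I) (Y := X.pow (Fin n)) F)
    (o : Place k K) {J : Type} [Fintype J] (ε : J → ℤ) (θ : J → X.Pt → X.Pt)
    (hθ : ∀ j, Reg (X := X) (Y := X) (θ j))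
    (he : ∀ (w : I → Place k K) (i : I), w i = o → ext (fun i => ec ε θ (F w i)) = 0)
    (T : Finset I) (hT : T.card = g + 1) (w : I → Place k K) :
    ∃ N : ℕ, 0 < N ∧ N • ∑ τ ∈ PT T, ext (fun i => ec ε θ (F (fun j => w (τ j)) i)) ∈
      RatEq (X.pow (Fin n)) := by
  classical
  obtain ⟨p', ⟨i1, hi1⟩, f, hf⟩ := move hg (T := {x // x ∈ T}) (by rw [Fintype.card_coe, hT])
    (fun i => w i) o
  obtain ⟨N, hN, hmem⟩ := pencil (fun i : {x // x ∈ T} => w i) p' f hf
  refine ⟨N, hN, ?_⟩
  let G : ({x // x ∈ T} → Place k K) → (I → Place k K) := fun u i =>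
    if h : i ∈ T then u ⟨i, h⟩ else w i
  have hG : Reg (X := (curve k K).pow {x // x ∈ T}) (Y := (curve k K).pow I) G := by
    intro L _ _ x hx i
    by_cases h : i ∈ T
    · have h1 := hx ⟨i, h⟩
      have h2 : (fun P => G (x P) i) = fun P => x P ⟨i, h⟩ := by
        funext P
        simp only [G, h, dite_true]
      rw [h2]
      exact h1
    · have h2 : (fun P => G (x P) i) = fun _ : Place k L => w i := by
        funext P
        simp only [G, h, dite_false]
      rw [h2]
      exact curve_const K L _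
  have h1 := EE_mem (X := X) ε θ hθ (hF.push (hG.push hmem))
  have h2 : EE ε θ n (Finsupp.mapDomain F (Finsupp.mapDomain G
      (N • (sy (fun i : {x // x ∈ T} => w i) - sy p')))) =
      N • ∑ τ ∈ PT T, ext (fun i => ec ε θ (F (fun j => w (τ j)) i)) := by
    have h3 : ∀ q : {x // x ∈ T} → Place k K,
        EE ε θ n (Finsupp.mapDomain F (Finsupp.mapDomain G (sy q))) =
        ∑ σ : Equiv.Perm {x // x ∈ T}, ext (fun i => ec ε θ (F (G fun j => q (σ j)) i)) := by
      intro q
      unfold sy
      rw [Finsupp.mapDomain_finsetSum, Finsupp.mapDomain_finsetSum, map_sum]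
      refine Finset.sum_congr rfl fun σ _ => ?_
      rw [Finsupp.mapDomain_single, Finsupp.mapDomain_single, EE_single]
    have h4 : Finsupp.mapDomain F (Finsupp.mapDomain G
        (N • (sy (fun i : {x // x ∈ T} => w i) - sy p'))) =
        N • (Finsupp.mapDomain F (Finsupp.mapDomain G (sy (fun i : {x // x ∈ T} => w i))) -
          Finsupp.mapDomain F (Finsupp.mapDomain G (sy p'))) := by
      rw [Finsupp.mapDomain_smul, Finsupp.mapDomain_smul]
      congr 1
      have e1 := map_sub (Finsupp.mapDomain.addMonoidHom (M := ℤ) G)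
        (sy (fun i : {x // x ∈ T} => w i)) (sy p')
      have e2 := map_sub (Finsupp.mapDomain.addMonoidHom (M := ℤ) F)
        (Finsupp.mapDomain G (sy (fun i : {x // x ∈ T} => w i))) (Finsupp.mapDomain G (sy p'))
      exact (congrArg (Finsupp.mapDomain F) e1).trans e2
    rw [h4, map_nsmul, map_sub, h3, h3]
    have h5 : ∑ σ : Equiv.Perm {x // x ∈ T},
        ext (fun i => ec ε θ (F (G fun j => p' (σ j)) i)) = 0 := by
      refine Finset.sum_eq_zero fun σ _ => ?_
      refine he _ ((σ.symm i1 : {x // x ∈ T}) : I) ?_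
      simp only [G, (σ.symm i1).2, dite_true, Subtype.coe_eta, Equiv.apply_symm_apply, hi1]
    rw [h5, sub_zero, sum_PT]
    congr 1
    refine Finset.sum_congr rfl fun σ _ => ?_
    have h8 : (G fun j => w (σ j)) = fun j => w (Equiv.Perm.ofSubtype σ j) := by
      funext i
      by_cases h : i ∈ T
      · have h7 : Equiv.Perm.ofSubtype σ i = σ ⟨i, h⟩ :=
          Equiv.Perm.ofSubtype_apply_of_mem σ h
        simp only [G, h, dite_true, h7]
      · have h7 : Equiv.Perm.ofSubtype σ i = i := Equiv.Perm.ofSubtype_apply_of_not_mem σ h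
        simp only [G, h, dite_false, h7]
    rw [h8]
  rw [← h2]
  exact h1

end Pool.Agent.J4.H17.ZC
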