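import Pool.Agent.J4.H17.ZC.G6
import Pool.Agent.J4.H17.ZC.QGen
import Pool.Agent.J4.H17.ZC.Prd

/-!
# Cycles with vanishing exterior products; quotients of genus zero
-/

set_option autoImplicit false

open FF IntermediateField Equiv

namespace Pool.Agent.J4.H17.ZC

section null

variable {A : Type} {n : ℕ}

/-- the zero-cycles whose exterior products are killed by `l` -/
noncomputable def Null (l : ((Fin n → A) →₀ ℤ) →+ ℚ) : AddSubgroup (A →₀ ℤ) where
  carrier := {w | ∀ (i : Fin n) (z : Fin n → A →₀ ℤ), l (extG (Function.update z i w)) = 0}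
  zero_mem' := fun i z => by
    rw [← extGM_apply, MultilinearMap.map_update_zero, map_zero]
  add_mem' := fun {a b} ha hb i z => by
    have h1 := ha i z
    have h2 := hb i z
    rw [← extGM_apply] at h1 h2 ⊢
    rw [MultilinearMap.map_update_add, map_add, h1, h2, add_zero]
  neg_mem' := fun {a} ha i z => by
    have h1 := ha i z
    rw [← extGM_apply] at h1 ⊢
    have h2 : Function.update z i (-a) = Function.update z i ((-1 : ℤ) • a) := by simp
    rw [h2, MultilinearMap.map_update_smul, map_zsmul, h1, smul_zero]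

theorem mem_Null (l : ((Fin n → A) →₀ ℤ) →+ ℚ) (w : A →₀ ℤ) :
    w ∈ Null l ↔ ∀ (i : Fin n) (z : Fin n → A →₀ ℤ), l (extG (Function.update z i w)) = 0 :=
  Iff.rfl

theorem Null_of_nsmul (l : ((Fin n → A) →₀ ℤ) →+ ℚ) {w : A →₀ ℤ} {N : ℕ} (hN : 0 < N)
    (h : N • w ∈ Null l) : w ∈ Null l := by
  intro i z
  have h1 := h i z
  rw [← natCast_zsmul, ← extGM_apply, MultilinearMap.map_update_smul, extGM_apply, map_zsmul,
    zsmul_eq_mul] at h1
  rcases mul_eq_zero.1 h1 with h2 | h2
  · exfalso
    have h3 : (N : ℚ) = 0 := by exact_mod_cast h2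
    have h4 : N = 0 := by exact_mod_cast h3
    omega
  · exact h2

theorem tele (l : ((Fin n → A) →₀ ℤ) →+ ℚ) (u v : Fin n → A →₀ ℤ)
    (h : ∀ i, u i - v i ∈ Null l) : l (extG u) = l (extG v) := by
  classical
  have key : ∀ s : Finset (Fin n), l (extG (s.piecewise u v)) = l (extG v) := by
    intro s
    induction s using Finset.induction_on with
    | empty => rw [Finset.piecewise_empty]
    | insert i s hi ih =>
      have h1 : (insert i s).piecewise u v = Function.update (s.piecewise u v) i (u i) :=
        Finset.piecewise_insert s u v i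
      have h2 : s.piecewise u v = Function.update (s.piecewise u v) i (v i) := by
        conv_lhs => rw [← Function.update_eq_self i (s.piecewise u v)]
        rw [Finset.piecewise_eq_of_notMem s u v hi]
      have h3 : extG ((insert i s).piecewise u v) - extG (s.piecewise u v) =
          extG (Function.update (s.piecewise u v) i (u i - v i)) := by
        rw [h1]
        nth_rw 2 [h2]
        rw [← extGM_apply, ← extGM_apply, ← extGM_apply, MultilinearMap.map_update_sub]
      have h4 := h i i (s.piecewise u v)
      rw [← h3, map_sub, sub_eq_zero] at h4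
      rw [h4, ih]
  have := key Finset.univ
  rwa [Finset.piecewise_univ] at this

theorem Null_of_map {B : Type} (q : A → B) (l : ((Fin n → B) →₀ ℤ) →+ ℚ) {w : A →₀ ℤ}
    (hw : Finsupp.mapDomain q w = 0) :
    w ∈ Null (l.comp (Finsupp.mapDomain.addMonoidHom fun x i => q (x i))) := by
  intro i z
  change l (Finsupp.mapDomain (fun x i => q (x i)) (extG _)) = 0
  rw [map_extG, extG_zero _ i, map_zero]
  rw [Function.update_self, hw]

variable {k : Type} [Field k] [CharZero k]

theorem Null_of_mem {X : Var k} (hX : X.Const) (l : ((Fin n → X.Pt) →₀ ℤ) →+ ℚ)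
    (hl : ∀ r ∈ RatEq (X.pow (Fin n)), l r = 0) {w : X.Pt →₀ ℤ} (hw : w ∈ RatEq X) :
    w ∈ Null l := by
  intro i z
  rw [← ext_eq_extG]
  exact hl _ (ext_mem hX i _ (by rw [Function.update_self]; exact hw))

end null

section zero

variable {k : Type} [Field k] [CharZero k] [IsAlgClosed k] {K : Type} [Field K] [Algebra k K]
  [IsFF k K] {H : Type} [Group H] [Fintype H] (β : H →* (K ≃ₐ[k] K))

/-- If the quotient curve is rational then the inverse images of its points are rationally
equivalent up to torsion. -/
theorem NN_torsion (hg : HasGenus k (fixedField β.range) 0) (s o : Place k K) :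
    ∃ N : ℕ, 0 < N ∧ N • (NN β s - NN β o) ∈ RatEq (curve k K) := by
  classical
  refine torsion_of_hom _ _ fun l hl => ?_
  let l2 : ((Unit → Place k K) →₀ ℤ) →+ ℚ :=
    l.comp (Finsupp.mapDomain.addMonoidHom fun x => x ())
  have h1 := vanish_pull β hg (T := Unit) (by simp) (fun _ => s) o l2 (by
    intro r hr
    refine hl _ (Reg.push (X := (curve k K).pow Unit) (Y := curve k K) (F := fun x => x ()) ?_ hr)
    intro L _ _ x hx
    exact hx ())
  have h2 : ∀ a : Unit → Place k K →₀ ℤ, Finsupp.mapDomain (fun x : Unit → Place k K => x ())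
      (extG a) = a () := by
    intro a
    let e : (Unit → Place k K) ≃ Place k K := Equiv.funUnique Unit (Place k K)
    have h3 : Finsupp.mapDomain (fun x : Unit → Place k K => x ()) (extG a) =
        Finsupp.mapDomain e (extG a) := rfl
    rw [h3]
    ext x
    have h4 := Finsupp.mapDomain_apply e.injective (extG a) (e.symm x)
    rw [Equiv.apply_symm_apply] at h4
    rw [h4, extG_apply]
    simp [e]
  rw [Fintype.sum_unique] at h1
  change l (Finsupp.mapDomain (fun x : Unit → Place k K => x ()) (extG _)) = 0 at h1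
  rw [h2] at h1
  exact h1

end zero

section px

variable {k : Type} [Field k] [CharZero k] {K1 K2 : Type} [Field K1] [Algebra k K1] [Field K2]
  [Algebra k K2]

theorem px_mem_left {u : Place k K1 →₀ ℤ} (hu : u ∈ RatEq (curve k K1)) (W : Place k K2 →₀ ℤ) :
    px u W ∈ RatEq ((curve k K1).prod (curve k K2)) := by
  rw [px_swap, Finsupp.linearCombination_apply]
  unfold Finsupp.sum
  refine AddSubgroup.sum_mem _ fun t _ => AddSubgroup.zsmul_mem _ ?_ _
  refine Reg.push (X := curve k K1) (Y := (curve k K1).prod (curve k K2)) (F := fun s => (s, t))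
    ?_ hu
  intro L _ _ x hx
  exact ⟨hx, curve_const K2 L _⟩

theorem px_mem_right {u : Place k K2 →₀ ℤ} (hu : u ∈ RatEq (curve k K2)) (Z : Place k K1 →₀ ℤ) :
    px Z u ∈ RatEq ((curve k K1).prod (curve k K2)) := by
  unfold px
  rw [Finsupp.linearCombination_apply]
  unfold Finsupp.sum
  refine AddSubgroup.sum_mem _ fun s _ => AddSubgroup.zsmul_mem _ ?_ _
  refine Reg.push (X := curve k K2) (Y := (curve k K1).prod (curve k K2)) (F := fun t => (s, t))
    ?_ hu
  intro L _ _ x hx
  exact ⟨curve_const K1 L _, hx⟩

end px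

end Pool.Agent.J4.H17.ZC
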