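import Pool.Agent.J4.H17.ZC.G7

/-!
# The identity for the zero-cycles on a quotient of a product of two curves
-/

set_option autoImplicit false

open FF IntermediateField Equiv

namespace Pool.Agent.J4.H17.ZC

section group

variable {G : Type} [Group G] [Fintype G] {M : Type} [AddCommGroup M]

theorem sum_conj_sub (H : Subgroup G) [Fintype H] (F : G → M) :
    ∑ g : G, ∑ h : H, ∑ h' : H, F (g⁻¹ * (h : G)⁻¹ * h' * g) =
      (Fintype.card H : ℤ) • ∑ x : G, (Nat.card {g : G // g * x * g⁻¹ ∈ H} : ℤ) • F x := by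
  classical
  have h1 : ∀ (g : G) (h : H), ∑ h' : H, F (g⁻¹ * (h : G)⁻¹ * h' * g) =
      ∑ h' : H, F (g⁻¹ * h' * g) := by
    intro g h
    refine Fintype.sum_equiv (Equiv.mulLeft h⁻¹) _ _ fun h' => ?_
    rw [Equiv.coe_mulLeft]
    push_cast
    simp only [mul_assoc]
  have h2 : ∀ g : G, ∑ h : H, F (g⁻¹ * h * g) = ∑ x : G, if g * x * g⁻¹ ∈ H then F x else 0 := by
    intro g
    rw [← Finset.sum_filter]
    refine Finset.sum_bij (fun h _ => g⁻¹ * (h : G) * g) ?_ ?_ ?_ ?_
    · intro h _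
      rw [Finset.mem_filter]
      refine ⟨Finset.mem_univ _, ?_⟩
      have : g * (g⁻¹ * (h : G) * g) * g⁻¹ = h := by group
      rw [this]
      exact h.2
    · intro h _ h' _ he
      apply Subtype.ext
      simpa using he
    · intro x hx
      rw [Finset.mem_filter] at hx
      exact ⟨⟨g * x * g⁻¹, hx.2⟩, Finset.mem_univ _, by group⟩
    · intro h _; rfl
  rw [Finset.smul_sum]
  calc ∑ g : G, ∑ h : H, ∑ h' : H, F (g⁻¹ * (h : G)⁻¹ * h' * g)
      = ∑ g : G, (Fintype.card H : ℤ) • ∑ x : G, (if g * x * g⁻¹ ∈ H then F x else 0) := by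
        refine Finset.sum_congr rfl fun g _ => ?_
        rw [Finset.sum_congr rfl fun h _ => h1 g h, Finset.sum_const, Finset.card_univ, h2,
          natCast_zsmul]
    _ = _ := by
        rw [← Finset.smul_sum, Finset.sum_comm, Finset.smul_sum]
        refine Finset.sum_congr rfl fun x _ => ?_
        congr 1
        rw [← Finset.sum_filter, Finset.sum_const, natCast_zsmul]
        congr 1
        rw [Nat.card_eq_fintype_card, Fintype.card_subtype]

end group

section

variable {k : Type} [Field k] {K1 K2 : Type} [Field K1] [Algebra k K1] [Field K2]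
  [Algebra k K2] {G : Type} [Group G] [Fintype G] (α1 : G →* (K1 ≃ₐ[k] K1))
  (α2 : G →* (K2 ≃ₐ[k] K2))

/-- the cycle `∑ g, N (g s) × N (g t)`, where `N` is the norm for the subgroup `H` -/
noncomputable def EJ (H : Subgroup G) [Fintype H] (x : Place k K1 × Place k K2) :
    (Place k K1 × Place k K2) →₀ ℤ :=
  ∑ g : G, px (NN (α1.comp H.subtype) (act (α1 g) x.1)) (NN (α2.comp H.subtype) (act (α2 g) x.2))

theorem EJ_map (H : Subgroup G) [Fintype H] {Y : Type} (q : Place k K1 × Place k K2 → Y)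
    (hq : ∀ (g : G) (s : Place k K1) (t : Place k K2),
      q (act (α1 g) s, act (α2 g) t) = q (s, t)) (s : Place k K1) (t : Place k K2) :
    Finsupp.mapDomain q (EJ α1 α2 H (s, t)) = (Fintype.card H : ℤ) • ∑ x : G,
      (Nat.card {g : G // g * x * g⁻¹ ∈ H} : ℤ) • Finsupp.single (q (s, act (α2 x) t)) (1 : ℤ) := by
  classical
  rw [← sum_conj_sub H fun x => Finsupp.single (q (s, act (α2 x) t)) (1 : ℤ)]
  unfold EJ
  rw [Finsupp.mapDomain_finsetSum]
  refine Finset.sum_congr rfl fun g _ => ?_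
  unfold NN
  rw [px_sum_left, Finsupp.mapDomain_finsetSum]
  refine Finset.sum_congr rfl fun h _ => ?_
  rw [px_sum_right, Finsupp.mapDomain_finsetSum]
  refine Finset.sum_congr rfl fun h' _ => ?_
  rw [px_single_single, mul_one, Finsupp.mapDomain_single]
  congr 1
  have h1 : act ((α1.comp H.subtype) h) (act (α1 g) s) = act (α1 (h * g)) s := by
    rw [map_mul, act_mul]; rfl
  have h2 : act ((α2.comp H.subtype) h') (act (α2 g) t) =
      act (α2 (h * g)) (act (α2 (g⁻¹ * (h : G)⁻¹ * h' * g)) t) := by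
    have h3 : (h : G) * g * (g⁻¹ * (h : G)⁻¹ * h' * g) = h' * g := by group
    rw [← act_mul (α2 (h * g)), ← map_mul, h3, map_mul, act_mul]
    rfl
  change q (act ((α1.comp H.subtype) h) (act (α1 g) s), act ((α2.comp H.subtype) h') (act (α2 g) t)) = _
  rw [h1, h2, hq]

variable {J : Type} [Fintype J] [DecidableEq J] (H : J → Subgroup G) [∀ j, Fintype (H j)]
  (c : J → ℤ)

/-- the modified coefficients -/
def cc (j : J) : ℤ := c j * ∏ i ∈ Finset.univ.erase j, (Fintype.card (H i) : ℤ)

/-- the product of the orders of the subgroups -/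
def DD : ℤ := ∏ i, (Fintype.card (H i) : ℤ)

theorem cc_mul (j : J) : cc H c j * (Fintype.card (H j) : ℤ) = DD H * c j := by
  unfold cc DD
  rw [← Finset.mul_prod_erase Finset.univ (fun i => (Fintype.card (H i) : ℤ)) (Finset.mem_univ j)]
  ring

theorem EJ_sum (hc : ∀ x : G, x ≠ 1 →
      ∑ j, c j * (Nat.card {g : G // g * x * g⁻¹ ∈ H j} : ℤ) = 0)
    {Y : Type} (q : Place k K1 × Place k K2 → Y)
    (hq : ∀ (g : G) (s : Place k K1) (t : Place k K2),
      q (act (α1 g) s, act (α2 g) t) = q (s, t)) (x : Place k K1 × Place k K2) :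
    Finsupp.mapDomain q (∑ j, cc H c j • EJ α1 α2 (H j) x) =
      (DD H * (Fintype.card G * ∑ j, c j)) • Finsupp.single (q x) (1 : ℤ) := by
  classical
  obtain ⟨s, t⟩ := x
  rw [Finsupp.mapDomain_finsetSum]
  have h1 : ∀ j, Finsupp.mapDomain q (cc H c j • EJ α1 α2 (H j) (s, t)) =
      ∑ x : G, (DD H * (c j * (Nat.card {g : G // g * x * g⁻¹ ∈ H j} : ℤ))) •
        Finsupp.single (q (s, act (α2 x) t)) (1 : ℤ) := by
    intro j
    rw [Finsupp.mapDomain_smul, EJ_map α1 α2 (H j) q hq, ← mul_smul, cc_mul, Finset.smul_sum]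
    refine Finset.sum_congr rfl fun x _ => ?_
    rw [← mul_smul, mul_assoc]
  rw [Finset.sum_congr rfl fun j _ => h1 j, Finset.sum_comm]
  have h2 : ∀ x : G, ∑ j, (DD H * (c j * (Nat.card {g : G // g * x * g⁻¹ ∈ H j} : ℤ))) •
        Finsupp.single (q (s, act (α2 x) t)) (1 : ℤ) =
      (DD H * ∑ j, c j * (Nat.card {g : G // g * x * g⁻¹ ∈ H j} : ℤ)) •
        Finsupp.single (q (s, act (α2 x) t)) (1 : ℤ) := by
    intro x
    rw [← Finset.sum_smul, Finset.mul_sum]
  rw [Finset.sum_congr rfl fun x _ => h2 x, Finset.sum_eq_single (1 : G)]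
  · have h3 : ∀ j, Nat.card {g : G // g * 1 * g⁻¹ ∈ H j} = Fintype.card G := by
      intro j
      rw [← Nat.card_eq_fintype_card]
      refine Nat.card_congr (Equiv.subtypeUnivEquiv fun g => ?_)
      rw [mul_one, mul_inv_cancel]
      exact (H j).one_mem
    have h4 : act (α2 1) t = t := by rw [map_one, act_one]
    rw [h4]
    congr 1
    congr 1
    rw [Finset.mul_sum]
    refine Finset.sum_congr rfl fun j _ => ?_
    rw [h3, mul_comm]
  · intro x _ hx
    rw [hc x hx, mul_zero, zero_smul]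
  · intro h
    exact absurd (Finset.mem_univ _) h

end

end Pool.Agent.J4.H17.ZC
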