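import Pool.Agent.J4.H17.ZC.G8

/-!
# Reduction of zero-cycles on a quotient of a product of two curves
-/

set_option autoImplicit false

open FF IntermediateField Equiv

namespace Pool.Agent.J4.H17.ZC

section

variable {k : Type} [Field k] {K1 K2 : Type} [Field K1] [Algebra k K1] [Field K2]
  [Algebra k K2] {G : Type} [Group G] [Fintype G] (α1 : G →* (K1 ≃ₐ[k] K1))
  (α2 : G →* (K2 ≃ₐ[k] K2)) (o1 : Place k K1) (o2 : Place k K2)

/-- the product of the inverse images of two points under the quotient maps for `H`, made to vanish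
on the axes -/
noncomputable def RJ (H : Subgroup G) [Fintype H] (x : Place k K1 × Place k K2) :
    (Place k K1 × Place k K2) →₀ ℤ :=
  px (NN (α1.comp H.subtype) x.1 - NN (α1.comp H.subtype) o1)
    (NN (α2.comp H.subtype) x.2 - NN (α2.comp H.subtype) o2)

/-- the sum of the images under the group -/
noncomputable def trG : ((Place k K1 × Place k K2) →₀ ℤ) →+ ((Place k K1 × Place k K2) →₀ ℤ) :=
  ∑ g : G, Finsupp.mapDomain.addMonoidHom fun x => (act (α1 g) x.1, act (α2 g) x.2)

/-- the operator `b ↦ R (∑ g, g b)` -/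
noncomputable def QJ (H : Subgroup G) [Fintype H] :
    ((Place k K1 × Place k K2) →₀ ℤ) →+ ((Place k K1 × Place k K2) →₀ ℤ) :=
  (Finsupp.linearCombination ℤ (RJ α1 α2 o1 o2 H)).toAddMonoidHom.comp (trG α1 α2)

theorem sum_NN {K : Type} [Field K] [Algebra k K] (α : G →* (K ≃ₐ[k] K)) (H : Subgroup G)
    [Fintype H] (s : Place k K) :
    ∑ g : G, NN (α.comp H.subtype) (act (α g) s) = (Fintype.card H : ℤ) • NN α s := by
  unfold NN
  rw [Finset.sum_comm]
  have h1 : ∀ h : H, ∑ g : G, Finsupp.single (act ((α.comp H.subtype) h) (act (α g) s)) (1 : ℤ) =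
      ∑ g : G, Finsupp.single (act (α g) s) (1 : ℤ) := by
    intro h
    refine Fintype.sum_equiv (Equiv.mulLeft (h : G)) _ _ fun g => ?_
    rw [Equiv.coe_mulLeft, map_mul, act_mul]
    rfl
  rw [Finset.sum_congr rfl fun h _ => h1 h, Finset.sum_const, Finset.card_univ, natCast_zsmul]

theorem QJ_single (H : Subgroup G) [Fintype H] (s : Place k K1) (t : Place k K2) :
    QJ α1 α2 o1 o2 H (Finsupp.single (s, t) 1) = EJ α1 α2 H (s, t) -
      (Fintype.card H : ℤ) • px (NN α1 s) (NN (α2.comp H.subtype) o2) -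
      (Fintype.card H : ℤ) • px (NN (α1.comp H.subtype) o1) (NN α2 t) +
      (Fintype.card G : ℤ) • px (NN (α1.comp H.subtype) o1) (NN (α2.comp H.subtype) o2) := by
  have h1 : trG α1 α2 (Finsupp.single (s, t) 1) =
      ∑ g : G, Finsupp.single (act (α1 g) s, act (α2 g) t) (1 : ℤ) := by
    unfold trG
    rw [AddMonoidHom.finsetSum_apply]
    refine Finset.sum_congr rfl fun g _ => ?_
    change Finsupp.mapDomain _ _ = _
    rw [Finsupp.mapDomain_single]
  have h2 : QJ α1 α2 o1 o2 H (Finsupp.single (s, t) 1) =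
      ∑ g : G, RJ α1 α2 o1 o2 H (act (α1 g) s, act (α2 g) t) := by
    unfold QJ
    change Finsupp.linearCombination ℤ (RJ α1 α2 o1 o2 H) (trG α1 α2 (Finsupp.single (s, t) 1)) = _
    rw [h1, map_sum]
    refine Finset.sum_congr rfl fun g _ => ?_
    rw [Finsupp.linearCombination_single, one_smul]
  rw [h2]
  unfold RJ EJ
  simp only [px_sub_left, px_sub_right, Finset.sum_sub_distrib]
  rw [← px_sum_left, ← px_sum_right, sum_NN, sum_NN, px_smul_left, px_smul_right,
    Finset.sum_const, Finset.card_univ, ← natCast_zsmul]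
  abel

/-- the constant in the reduction -/
noncomputable def CJ (H : Subgroup G) [Fintype H] : (Place k K1 × Place k K2) →₀ ℤ :=
  -((Fintype.card H : ℤ) • px (NN α1 o1) (NN (α2.comp H.subtype) o2)) -
      (Fintype.card H : ℤ) • px (NN (α1.comp H.subtype) o1) (NN α2 o2) +
      (Fintype.card G : ℤ) • px (NN (α1.comp H.subtype) o1) (NN (α2.comp H.subtype) o2)

variable [CharZero k] [IsAlgClosed k] [IsFF k K1] [IsFF k K2]

theorem QJ_null (h01 : HasGenus k (fixedField α1.range) 0)
    (h02 : HasGenus k (fixedField α2.range) 0) (H : Subgroup G) [Fintype H] {n : ℕ}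
    (l : ((Fin n → Place k K1 × Place k K2) →₀ ℤ) →+ ℚ)
    (hl : ∀ r ∈ RatEq (((curve k K1).prod (curve k K2)).pow (Fin n)), l r = 0)
    (b : (Place k K1 × Place k K2) →₀ ℤ) :
    QJ α1 α2 o1 o2 H b - Finsupp.linearCombination ℤ (EJ α1 α2 H) b -
      dg b • CJ α1 α2 o1 o2 H ∈ Null l := by
  have hX := prod_const k K1 K2
  have h1 : ∀ (s : Place k K1) (W : Place k K2 →₀ ℤ), px (NN α1 s - NN α1 o1) W ∈ Null l := by
    intro s W
    obtain ⟨N, hN, h⟩ := NN_torsion α1 h01 s o1
    refine Null_of_nsmul l hN ?_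
    rw [← natCast_zsmul, ← px_smul_left]
    refine Null_of_mem (X := (curve k K1).prod (curve k K2)) hX l hl (px_mem_left ?_ W)
    rwa [natCast_zsmul]
  have h2 : ∀ (t : Place k K2) (Z : Place k K1 →₀ ℤ), px Z (NN α2 t - NN α2 o2) ∈ Null l := by
    intro t Z
    obtain ⟨N, hN, h⟩ := NN_torsion α2 h02 t o2
    refine Null_of_nsmul l hN ?_
    rw [← natCast_zsmul, ← px_smul_right]
    refine Null_of_mem (X := (curve k K1).prod (curve k K2)) hX l hl (px_mem_right ?_ Z)
    rwa [natCast_zsmul]
  induction b using Finsupp.induction_linear with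
  | zero =>
    rw [map_zero, map_zero, map_zero, zero_smul, sub_zero, sub_zero]
    exact AddSubgroup.zero_mem _
  | add u v hu hv =>
    have h3 := AddSubgroup.add_mem _ hu hv
    rw [map_add, map_add, map_add, add_smul]
    convert h3 using 1
    abel
  | single x m =>
    obtain ⟨s, t⟩ := x
    have h3 : Finsupp.single (s, t) m = m • Finsupp.single (s, t) (1 : ℤ) := by
      rw [Finsupp.smul_single, smul_eq_mul, mul_one]
    have h4 : QJ α1 α2 o1 o2 H (Finsupp.single (s, t) 1) - EJ α1 α2 H (s, t) -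
        CJ α1 α2 o1 o2 H ∈ Null l := by
      have h5 : QJ α1 α2 o1 o2 H (Finsupp.single (s, t) 1) - EJ α1 α2 H (s, t) -
          CJ α1 α2 o1 o2 H = -((Fintype.card H : ℤ) • px (NN α1 s - NN α1 o1)
            (NN (α2.comp H.subtype) o2)) - (Fintype.card H : ℤ) •
            px (NN (α1.comp H.subtype) o1) (NN α2 t - NN α2 o2) := by
        rw [QJ_single, px_sub_left, px_sub_right, smul_sub, smul_sub]
        unfold CJ
        abel
      rw [h5]
      exact AddSubgroup.sub_mem _ (AddSubgroup.neg_mem _ (AddSubgroup.zsmul_mem _ (h1 s _) _))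
        (AddSubgroup.zsmul_mem _ (h2 t _) _)
    have h5 := AddSubgroup.zsmul_mem _ h4 m
    rw [smul_sub, smul_sub, ← map_zsmul, ← h3] at h5
    rw [Finsupp.linearCombination_single, dg_single]
    exact h5

/-- The reduction: a multiple of a zero-cycle of degree zero agrees with a combination of products
of differences of inverse images of points of the quotients, as far as the exterior products on the
quotient surface are concerned. -/
theorem red {J : Type} [Fintype J] [DecidableEq J] (H : J → Subgroup G) [∀ j, Fintype (H j)]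
    (c : J → ℤ) (hc : ∀ x : G, x ≠ 1 →
      ∑ j, c j * (Nat.card {g : G // g * x * g⁻¹ ∈ H j} : ℤ) = 0)
    (h01 : HasGenus k (fixedField α1.range) 0) (h02 : HasGenus k (fixedField α2.range) 0)
    {Y : Type} (q : Place k K1 × Place k K2 → Y)
    (hq : ∀ (g : G) (s : Place k K1) (t : Place k K2),
      q (act (α1 g) s, act (α2 g) t) = q (s, t)) {n : ℕ}
    (l : ((Fin n → Y) →₀ ℤ) →+ ℚ)
    (hl : ∀ r ∈ RatEq (((curve k K1).prod (curve k K2)).pow (Fin n)),
      l (Finsupp.mapDomain (fun x i => q (x i)) r) = 0)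
    (b : (Place k K1 × Place k K2) →₀ ℤ) (hb : dg b = 0) :
    (DD H * (Fintype.card G * ∑ j, c j)) • b - ∑ j, cc H c j • QJ α1 α2 o1 o2 (H j) b ∈
      Null (l.comp (Finsupp.mapDomain.addMonoidHom fun x i => q (x i))) := by
  have h1 : (DD H * (Fintype.card G * ∑ j, c j)) • b -
      ∑ j, cc H c j • Finsupp.linearCombination ℤ (EJ α1 α2 (H j)) b ∈
      Null (l.comp (Finsupp.mapDomain.addMonoidHom fun x i => q (x i))) := by
    refine Null_of_map q l ?_
    have h2 : ∀ b : (Place k K1 × Place k K2) →₀ ℤ, Finsupp.mapDomain q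
        (∑ j, cc H c j • Finsupp.linearCombination ℤ (EJ α1 α2 (H j)) b) =
        (DD H * (Fintype.card G * ∑ j, c j)) • Finsupp.mapDomain q b := by
      intro b
      induction b using Finsupp.induction_linear with
      | zero => simp
      | add u v hu hv =>
        rw [Finsupp.mapDomain_add, smul_add, ← hu, ← hv, ← Finsupp.mapDomain_add,
          ← Finset.sum_add_distrib]
        congr 1
        refine Finset.sum_congr rfl fun j _ => ?_
        rw [map_add, smul_add]
      | single x m =>
        have h3 := EJ_sum α1 α2 H c hc q hq x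
        have h4 : ∑ j, cc H c j • Finsupp.linearCombination ℤ (EJ α1 α2 (H j))
            (Finsupp.single x m) = m • ∑ j, cc H c j • EJ α1 α2 (H j) x := by
          rw [Finset.smul_sum]
          refine Finset.sum_congr rfl fun j _ => ?_
          rw [Finsupp.linearCombination_single, smul_comm]
        rw [h4, Finsupp.mapDomain_smul, h3, Finsupp.mapDomain_single, smul_comm,
          Finsupp.smul_single m, smul_eq_mul, mul_one]
    have h5 := map_sub (Finsupp.mapDomain.addMonoidHom (M := ℤ) q)
      ((DD H * (Fintype.card G * ∑ j, c j)) • b)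
      (∑ j, cc H c j • Finsupp.linearCombination ℤ (EJ α1 α2 (H j)) b)
    refine h5.trans ?_
    change Finsupp.mapDomain q _ - Finsupp.mapDomain q _ = 0
    rw [h2, Finsupp.mapDomain_smul, sub_self]
  have h2 : ∑ j, cc H c j • QJ α1 α2 o1 o2 (H j) b -
      ∑ j, cc H c j • Finsupp.linearCombination ℤ (EJ α1 α2 (H j)) b ∈
      Null (l.comp (Finsupp.mapDomain.addMonoidHom fun x i => q (x i))) := by
    rw [← Finset.sum_sub_distrib]
    refine AddSubgroup.sum_mem _ fun j _ => ?_
    rw [← smul_sub]
    refine AddSubgroup.zsmul_mem _ ?_ _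
    have h3 := QJ_null α1 α2 o1 o2 h01 h02 (H j)
      (l.comp (Finsupp.mapDomain.addMonoidHom fun x i => q (x i))) hl b
    rwa [hb, zero_smul, sub_zero] at h3
  have h3 := AddSubgroup.sub_mem _ h1 h2
  rwa [sub_sub_sub_cancel_right] at h3

end

end Pool.Agent.J4.H17.ZC
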