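import Pool.Agent.J4.H17.ZC.Defs
import Mathlib.Algebra.Category.Grp.Injective

/-!
# Push-forward of rational equivalence, a criterion for torsion, enumeration of effective divisors
-/

set_option autoImplicit false

open FF

namespace Pool.Agent.J4.H17.ZC

section push

variable {k : Type} [Field k] [CharZero k]

/-- maps of points which preserve the morphisms from curves -/
def Reg {X Y : Var k} (F : X.Pt → Y.Pt) : Prop :=
  ∀ (L : Type) [Field L] [Algebra k L] (x : Place k L → X.Pt), X.IsMor L x →
    Y.IsMor L (fun P => F (x P))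

theorem Reg.push {X Y : Var k} {F : X.Pt → Y.Pt} (hF : Reg F) {z : X.Pt →₀ ℤ}
    (hz : z ∈ RatEq X) : Finsupp.mapDomain F z ∈ RatEq Y := by
  have h : RatEq X ≤ (RatEq Y).comap (Finsupp.mapDomain.addMonoidHom F) := by
    unfold RatEq
    rw [AddSubgroup.closure_le]
    rintro z ⟨L, _, _, _, x, f, hx, hf, rfl⟩
    change Finsupp.mapDomain F (Finsupp.mapDomain x (divisor k f)) ∈ RatEq Y
    rw [← Finsupp.mapDomain_comp]
    exact AddSubgroup.subset_closure ⟨L, inferInstance, inferInstance, inferInstance, F ∘ x, f,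
      hF L x hx, hf, rfl⟩
  exact h hz

theorem mem_ratEq {X : Var k} {L : Type} [Field L] [Algebra k L] [IsFF k L]
    {x : Place k L → X.Pt} (hx : X.IsMor L x) {f : L} (hf : f ≠ 0) :
    Finsupp.mapDomain x (divisor k f) ∈ RatEq X :=
  AddSubgroup.subset_closure ⟨L, inferInstance, inferInstance, inferInstance, x, f, hx, hf, rfl⟩

end push

/-- A criterion for an element to be torsion modulo a subgroup. -/
theorem torsion_of_hom {M : Type} [AddCommGroup M] (R : AddSubgroup M) (z : M)
    (h : ∀ l : M →+ ℚ, (∀ r ∈ R, l r = 0) → l z = 0) : ∃ N : ℕ, 0 < N ∧ N • z ∈ R := by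
  by_contra hcon
  push Not at hcon
  let q : M →+ M ⧸ R := QuotientAddGroup.mk' R
  let f : ℤ →+ M ⧸ R := zmultiplesHom _ (q z)
  have hf : Function.Injective f := by
    rw [injective_iff_map_eq_zero]
    intro n hn
    by_contra hn0
    have h1 : n • q z = 0 := hn
    have h2 : n.natAbs • q z = 0 := by
      rcases Int.natAbs_eq n with h3 | h3
      · rw [h3, natCast_zsmul] at h1; exact h1
      · rw [h3, neg_smul, natCast_zsmul, neg_eq_zero] at h1; exact h1
    rw [← map_nsmul] at h2
    exact hcon n.natAbs (by omega) ((QuotientAddGroup.eq_zero_iff _).1 h2)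
  obtain ⟨l, hl⟩ := (Module.Baer.of_divisible ℚ).extension_property_addMonoidHom f hf
    (Int.castAddHom ℚ)
  have h3 := h (l.comp q) (fun r hr => by
    change l (q r) = 0
    have : q r = 0 := (QuotientAddGroup.eq_zero_iff _).2 hr
    rw [this, map_zero])
  have h4 : l (f 1) = 1 := by
    have := DFunLike.congr_fun hl 1
    simpa using this
  have h5 : f 1 = q z := by simp [f]
  rw [h5] at h4
  have h6 : l (q z) = 0 := h3
  rw [h6] at h4
  exact zero_ne_one h4

section enum

variable {A : Type}

/-- the sum of the values of a family -/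
noncomputable def tot {ι : Type} [Fintype ι] (p : ι → A) : A →₀ ℤ :=
  ∑ i, Finsupp.single (p i) 1

theorem tot_apply {ι : Type} [Fintype ι] [DecidableEq A] (p : ι → A) (a : A) :
    tot p a = ((Finset.univ.filter fun i => p i = a).card : ℤ) := by
  unfold tot
  rw [Finsupp.finsetSum_apply, Finset.card_filter]
  push_cast
  refine Finset.sum_congr rfl fun i _ => ?_
  rw [Finsupp.single_apply]

theorem tot_comp {ι κ : Type} [Fintype ι] [Fintype κ] (e : ι ≃ κ) (p : κ → A) :
    tot (fun i => p (e i)) = tot p :=
  Equiv.sum_comp e fun j => Finsupp.single (p j) (1 : ℤ)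

theorem tot_sum {ι κ : Type} [Fintype ι] [Fintype κ] (p : ι → A) (q : κ → A) :
    tot (Sum.elim p q) = tot p + tot q := by
  unfold tot
  rw [Fintype.sum_sum_type]
  rfl

theorem tot_nonneg {ι : Type} [Fintype ι] (p : ι → A) : 0 ≤ tot p := by
  classical
  intro a
  rw [tot_apply]
  simp

/-- the degree -/
noncomputable def dg : (A →₀ ℤ) →+ ℤ := Finsupp.liftAddHom fun _ => AddMonoidHom.id ℤ

theorem dg_single (a : A) (n : ℤ) : dg (Finsupp.single a n) = n := by
  simp [dg]

theorem dg_tot {ι : Type} [Fintype ι] (p : ι → A) : dg (tot p) = Fintype.card ι := by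
  unfold tot
  rw [map_sum]
  simp [dg_single]

theorem enum_aux : ∀ (d : ℕ) (D : A →₀ ℤ), 0 ≤ D → dg D = d → ∃ R : Fin d → A, tot R = D := by
  intro d
  induction d with
  | zero =>
    intro D hD hd
    refine ⟨Fin.elim0, ?_⟩
    have h1 : ∑ a ∈ D.support, D a = 0 := by
      simpa [dg, Finsupp.sum] using hd
    rw [Finset.sum_eq_zero_iff_of_nonneg fun a _ => hD a] at h1
    ext a
    by_cases ha : a ∈ D.support
    · rw [h1 a ha]; simp [tot]
    · rw [Finsupp.notMem_support_iff.1 ha]; simp [tot]
  | succ d ih =>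
    intro D hD hd
    have h1 : ∃ a, 0 < D a := by
      by_contra hcon
      push Not at hcon
      have h2 : D = 0 := by
        ext a
        have := hD a
        exact le_antisymm (hcon a) this
      rw [h2, map_zero] at hd
      push_cast at hd
      omega
    obtain ⟨a, ha⟩ := h1
    obtain ⟨R, hR⟩ := ih (D - Finsupp.single a 1) (by
      intro b
      classical
      rw [Finsupp.sub_apply, Finsupp.single_apply]
      have := hD b
      split_ifs with h
      · subst h; simp only [Finsupp.coe_zero, Pi.zero_apply]; omega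
      · simpa using this) (by rw [map_sub, dg_single, hd]; push_cast; ring)
    refine ⟨Fin.cons a R, ?_⟩
    unfold tot at hR ⊢
    rw [Fin.sum_univ_succ]
    simp only [Fin.cons_zero, Fin.cons_succ]
    rw [hR]
    abel

/-- An effective divisor is the sum of the values of a family. -/
theorem enum {ι : Type} [Fintype ι] (D : A →₀ ℤ) (h0 : 0 ≤ D) (h1 : dg D = Fintype.card ι) :
    ∃ R : ι → A, tot R = D := by
  obtain ⟨R, hR⟩ := enum_aux _ D h0 h1
  exact ⟨fun i => R (Fintype.equivFin ι i), by rw [tot_comp, hR]⟩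

/-- Two families with the same sum differ by a permutation. -/
theorem exists_perm {ι : Type} [Fintype ι] {p q : ι → A} (h : tot p = tot q) :
    ∃ σ : Equiv.Perm ι, q = fun i => p (σ i) := by
  classical
  have h1 : ∀ a, Fintype.card {i // q i = a} = Fintype.card {i // p i = a} := by
    intro a
    have := DFunLike.congr_fun h a
    rw [tot_apply, tot_apply] at this
    rw [Fintype.card_subtype, Fintype.card_subtype]
    exact_mod_cast this.symm
  let e : ∀ a, {i // q i = a} ≃ {i // p i = a} := fun a => Fintype.equivOfCardEq (h1 a)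
  let σ : Equiv.Perm ι := (Equiv.sigmaFiberEquiv q).symm.trans
    ((Equiv.sigmaCongrRight e).trans (Equiv.sigmaFiberEquiv p))
  refine ⟨σ, ?_⟩
  funext i
  have : p (σ i) = q i := (e (q i) ⟨i, rfl⟩).2
  exact this.symm

/-- the sum of the points obtained by permutation of the coordinates -/
noncomputable def sy {ι : Type} [Fintype ι] [DecidableEq ι] (p : ι → A) : (ι → A) →₀ ℤ :=
  ∑ σ : Equiv.Perm ι, Finsupp.single (fun i => p (σ i)) 1

theorem sy_congr {ι : Type} [Fintype ι] [DecidableEq ι] {p q : ι → A} (h : tot p = tot q) :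
    sy p = sy q := by
  obtain ⟨σ, rfl⟩ := exists_perm h
  unfold sy
  exact (Equiv.sum_comp (Equiv.mulLeft σ)
    fun τ : Equiv.Perm ι => Finsupp.single (fun i => p (τ i)) (1 : ℤ)).symm

end enum

end Pool.Agent.J4.H17.ZC
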