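import Pool.Agent.J4.H17.ZC.Pencil

/-!
# Exterior products of zero-cycles and rational equivalence
-/

set_option autoImplicit false

open FF

namespace Pool.Agent.J4.H17.ZC

section ext

variable {A : Type} {n : ℕ}

theorem ext_apply (a : Fin n → A →₀ ℤ) (x : Fin n → A) : ext a x = ∏ i, a i (x i) := rfl

theorem ext_single (x : Fin n → A) :
    ext (fun i => Finsupp.single (x i) (1 : ℤ)) = Finsupp.single x 1 := by
  classical
  ext y
  rw [ext_apply, Finsupp.single_apply]
  split_ifs with h
  · subst h; simp
  · obtain ⟨i, hi⟩ := Function.ne_iff.1 h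
    refine Finset.prod_eq_zero (Finset.mem_univ i) ?_
    rw [Finsupp.single_eq_of_ne (Ne.symm hi)]

/-- the exterior product as a multilinear map -/
noncomputable def extM (A : Type) (n : ℕ) :
    MultilinearMap ℤ (fun _ : Fin n => A →₀ ℤ) ((Fin n → A) →₀ ℤ) where
  toFun := ext
  map_update_add' := by
    intro inst m i x y
    ext z
    rw [Finsupp.add_apply, ext_apply, ext_apply, ext_apply]
    have h : ∀ w : A →₀ ℤ, ∏ j, (Function.update m i w) j (z j) =
        w (z i) * ∏ j ∈ Finset.univ.erase i, m j (z j) := by
      intro w
      rw [← Finset.mul_prod_erase _ _ (Finset.mem_univ i), Function.update_self]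
      congr 1
      refine Finset.prod_congr ?_ fun j hj => ?_
      · ext j; simp
      rw [Function.update_of_ne (Finset.ne_of_mem_erase hj)]
    rw [h, h, h, Finsupp.add_apply, add_mul]
  map_update_smul' := by
    intro inst m i c x
    ext z
    rw [Finsupp.smul_apply, ext_apply, ext_apply]
    have h : ∀ w : A →₀ ℤ, ∏ j, (Function.update m i w) j (z j) =
        w (z i) * ∏ j ∈ Finset.univ.erase i, m j (z j) := by
      intro w
      rw [← Finset.mul_prod_erase _ _ (Finset.mem_univ i), Function.update_self]
      congr 1
      refine Finset.prod_congr ?_ fun j hj => ?_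
      · ext j; simp
      rw [Function.update_of_ne (Finset.ne_of_mem_erase hj)]
    rw [h, h, Finsupp.smul_apply, smul_eq_mul, smul_eq_mul, mul_assoc]

theorem extM_apply (a : Fin n → A →₀ ℤ) : extM A n a = ext a := rfl

end ext

section rat

variable {k : Type} [Field k] [CharZero k]

/-- the constant maps are morphisms -/
def Var.Const (X : Var k) : Prop :=
  ∀ (L : Type) [Field L] [Algebra k L] (Q : X.Pt), X.IsMor L (fun _ => Q)

theorem ext_mem_aux {X : Var k} (hX : X.Const) {n : ℕ} (i0 : Fin n) : ∀ (s : Finset (Fin n)),
    i0 ∉ s → ∀ a : Fin n → X.Pt →₀ ℤ, a i0 ∈ RatEq X →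
    (∀ j, j ∉ s → j ≠ i0 → ∃ y, a j = Finsupp.single y 1) → ext a ∈ RatEq (X.pow (Fin n)) := by
  classical
  intro s
  induction s using Finset.induction_on with
  | empty =>
    intro _ a ha hs
    by_cases hne : Nonempty X.Pt
    · obtain ⟨y0⟩ := hne
      have h1 : ∀ j, ∃ y, j ≠ i0 → a j = Finsupp.single y 1 := by
        intro j
        by_cases hj : j = i0
        · exact ⟨y0, fun h => absurd hj h⟩
        · obtain ⟨y, hy⟩ := hs j (by simp) hj
          exact ⟨y, fun _ => hy⟩
      choose y hy using h1
      have h2 : ext a = Finsupp.mapDomain (fun u => Function.update y i0 u) (a i0) := by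
        have h3 : a = Function.update (fun j => Finsupp.single (y j) (1 : ℤ)) i0 (a i0) := by
          funext j
          by_cases hj : j = i0
          · subst hj; rw [Function.update_self]
          · rw [Function.update_of_ne hj, hy j hj]
        have h4 : ∀ w : X.Pt →₀ ℤ, ext (Function.update (fun j => Finsupp.single (y j) (1 : ℤ)) i0 w)
            = Finsupp.mapDomain (fun u => Function.update y i0 u) w := by
          intro w
          induction w using Finsupp.induction_linear with
          | zero => rw [← extM_apply, MultilinearMap.map_update_zero, Finsupp.mapDomain_zero]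
          | add u v hu hv =>
            rw [← extM_apply, MultilinearMap.map_update_add, extM_apply, extM_apply, hu, hv,
              Finsupp.mapDomain_add]
          | single u c =>
            have h5 : Finsupp.single u c = c • Finsupp.single u (1 : ℤ) := by
              rw [Finsupp.smul_single, smul_eq_mul, mul_one]
            rw [h5, ← extM_apply, MultilinearMap.map_update_smul, extM_apply,
              Finsupp.mapDomain_smul, Finsupp.mapDomain_single]
            congr 1
            rw [← ext_single]
            congr 1
            funext j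
            by_cases hj : j = i0
            · subst hj; rw [Function.update_self, Function.update_self]
            · rw [Function.update_of_ne hj, Function.update_of_ne hj]
        conv_lhs => rw [h3]
        exact h4 _
      rw [h2]
      refine Reg.push (X := X) (Y := X.pow (Fin n)) ?_ ha
      intro L _ _ x hx j
      by_cases hj : j = i0
      · subst hj
        simpa using hx
      · simpa [Function.update_of_ne hj] using hX L (y j)
    · have h2 : IsEmpty X.Pt := not_nonempty_iff.1 hne
      have h3 : ext a = 0 := by
        ext x
        exact (h2.false (x i0)).elim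
      rw [h3]
      exact AddSubgroup.zero_mem _
  | insert j s hj ih =>
    intro hi0 a ha hs
    have hij : j ≠ i0 := fun h => hi0 (by rw [h]; exact Finset.mem_insert_self _ _)
    have hi0s : i0 ∉ s := fun h => hi0 (Finset.mem_insert_of_mem h)
    have h1 : ∀ w : X.Pt →₀ ℤ, ext (Function.update a j w) ∈ RatEq (X.pow (Fin n)) := by
      intro w
      induction w using Finsupp.induction_linear with
      | zero =>
        rw [← extM_apply, MultilinearMap.map_update_zero]
        exact AddSubgroup.zero_mem _
      | add u v hu hv =>
        rw [← extM_apply, MultilinearMap.map_update_add]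
        exact AddSubgroup.add_mem _ hu hv
      | single u c =>
        have h5 : Finsupp.single u c = c • Finsupp.single u (1 : ℤ) := by
          rw [Finsupp.smul_single, smul_eq_mul, mul_one]
        rw [h5, ← extM_apply, MultilinearMap.map_update_smul, extM_apply]
        refine AddSubgroup.zsmul_mem _ ?_ c
        refine ih hi0s _ (by rw [Function.update_of_ne hij.symm]; exact ha) ?_
        intro l hl hli
        by_cases hlj : l = j
        · subst hlj; exact ⟨u, by rw [Function.update_self]⟩
        · rw [Function.update_of_ne hlj]
          exact hs l (by rw [Finset.mem_insert, not_or]; exact ⟨hlj, hl⟩) hli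
    have h2 := h1 (a j)
    rwa [Function.update_eq_self] at h2

/-- The exterior product is rationally equivalent to zero if one of the factors is. -/
theorem ext_mem {X : Var k} (hX : X.Const) {n : ℕ} (i0 : Fin n) (a : Fin n → X.Pt →₀ ℤ)
    (ha : a i0 ∈ RatEq X) : ext a ∈ RatEq (X.pow (Fin n)) := by
  classical
  refine ext_mem_aux hX i0 (Finset.univ.erase i0) (by simp) a ha ?_
  intro j hj hji
  simp [hji] at hj

theorem ext_sub_mem {X : Var k} (hX : X.Const) {n : ℕ} (a b : Fin n → X.Pt →₀ ℤ)
    (h : ∀ i, a i - b i ∈ RatEq X) : ext a - ext b ∈ RatEq (X.pow (Fin n)) := by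
  classical
  have key : ∀ s : Finset (Fin n), ext (s.piecewise a b) - ext b ∈ RatEq (X.pow (Fin n)) := by
    intro s
    induction s using Finset.induction_on with
    | empty =>
      rw [Finset.piecewise_empty, sub_self]
      exact AddSubgroup.zero_mem _
    | insert i s hi ih =>
      have h1 : (insert i s).piecewise a b = Function.update (s.piecewise a b) i (a i) :=
        Finset.piecewise_insert s a b i
      have h2 : s.piecewise a b = Function.update (s.piecewise a b) i (b i) := by
        conv_lhs => rw [← Function.update_eq_self i (s.piecewise a b)]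
        rw [Finset.piecewise_eq_of_notMem s a b hi]
      have h3 : ext ((insert i s).piecewise a b) - ext (s.piecewise a b) =
          ext (Function.update (s.piecewise a b) i (a i - b i)) := by
        rw [h1]
        nth_rw 2 [h2]
        rw [← extM_apply, ← extM_apply, ← extM_apply, MultilinearMap.map_update_sub]
      have h4 : ext (Function.update (s.piecewise a b) i (a i - b i)) ∈
          RatEq (X.pow (Fin n)) := ext_mem hX i _ (by rw [Function.update_self]; exact h i)
      rw [← h3] at h4
      have h5 := AddSubgroup.add_mem _ h4 ih
      rwa [sub_add_sub_cancel] at h5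
  have := key Finset.univ
  rwa [Finset.piecewise_univ] at this

end rat

section EE

variable {k : Type} [Field k] [CharZero k] {J : Type} [Fintype J]

/-- the zero-cycle `∑ j, ε j • θ j x` -/
noncomputable def ec {A : Type} (ε : J → ℤ) (θ : J → A → A) (x : A) : A →₀ ℤ :=
  ∑ j, ε j • Finsupp.single (θ j x) 1

/-- the operator on zero-cycles of a power induced by `ec` -/
noncomputable def EE {A : Type} (ε : J → ℤ) (θ : J → A → A) (n : ℕ) :
    ((Fin n → A) →₀ ℤ) →+ ((Fin n → A) →₀ ℤ) := by
  classical
  exact ∑ c : Fin n → J, (∏ i, ε (c i)) •
    Finsupp.mapDomain.addMonoidHom fun (x : Fin n → A) i => θ (c i) (x i)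

theorem EE_single {A : Type} (ε : J → ℤ) (θ : J → A → A) (n : ℕ) (x : Fin n → A) :
    EE ε θ n (Finsupp.single x 1) = ext fun i => ec ε θ (x i) := by
  classical
  unfold EE ec
  rw [AddMonoidHom.finsetSum_apply, ← extM_apply, MultilinearMap.map_sum]
  refine Finset.sum_congr ?_ fun c _ => ?_
  · ext; simp
  rw [MultilinearMap.map_smul_univ]
  change (∏ i, ε (c i)) • Finsupp.mapDomain _ _ = _
  rw [Finsupp.mapDomain_single, extM_apply, ext_single]

theorem EE_mem {X : Var k} (ε : J → ℤ) (θ : J → X.Pt → X.Pt) (hθ : ∀ j, Reg (X := X) (Y := X) (θ j))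
    {n : ℕ} {z : (Fin n → X.Pt) →₀ ℤ} (hz : z ∈ RatEq (X.pow (Fin n))) :
    EE ε θ n z ∈ RatEq (X.pow (Fin n)) := by
  classical
  unfold EE
  rw [AddMonoidHom.finsetSum_apply]
  refine AddSubgroup.sum_mem _ fun c _ => ?_
  refine AddSubgroup.zsmul_mem _ ?_ _
  exact Reg.push (X := X.pow (Fin n)) (Y := X.pow (Fin n)) (F := fun x i => θ (c i) (x i))
    (fun L _ _ x hx i => hθ (c i) L _ (hx i)) hz

end EE

end Pool.Agent.J4.H17.ZC
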