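import Pool.Agent.J4.H17.ZC.Cnt

/-!
# Linearly equivalent effective divisors and symmetrized zero-cycles on powers of a curve
-/

set_option autoImplicit false

open FF IntermediateField Pool.Agent.W603.LV Pool.Agent.W603.PV Pool.Agent.W619.PQ
  Pool.Agent.N162.CV Pool.Agent.N75.CV

namespace Pool.Agent.J4.H17.ZC

theorem exists_split (F K : Type) [Field F] [Field K] [Algebra F K] [FiniteDimensional F K]
    [CharZero F] : ∃ (L : Type) (_ : Field L) (_ : Algebra F L) (_ : FiniteDimensional F L)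
    (_ : Fintype (K →ₐ[F] L)), Fintype.card (K →ₐ[F] L) = Module.finrank F K ∧
    ∀ z : K, algebraMap F L (Algebra.norm F z) = ∏ φ : K →ₐ[F] L, φ z := by
  classical
  let A := AlgebraicClosure K
  let e := normalClosure.algHomEquiv F K A
  let i1 : Fintype (K →ₐ[F] normalClosure F K A) := Fintype.ofEquiv _ e.symm
  refine ⟨normalClosure F K A, inferInstance, inferInstance, inferInstance, i1, ?_, ?_⟩
  · rw [Fintype.card_congr e, AlgHom.card]
  · intro z
    have h1 := Algebra.norm_eq_prod_embeddings F A z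
    have h2 : Function.Injective (algebraMap (normalClosure F K A) A) :=
      (algebraMap (normalClosure F K A) A).injective
    apply h2
    rw [← IsScalarTower.algebraMap_apply, h1, map_prod]
    exact (Fintype.prod_equiv e _ _ fun φ => rfl).symm

theorem gen_top {k K : Type} [Field k] [Field K] [Algebra k K] (f : K) :
    k⟮AdjoinSimple.gen k f⟯ = ⊤ := by
  rw [eq_top_iff]
  intro x _
  have h1 : (IntermediateField.map (k⟮f⟯).val k⟮AdjoinSimple.gen k f⟯) = k⟮f⟯ := by
    rw [IntermediateField.adjoin_map, Set.image_singleton]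
    rfl
  have h2 : (x : K) ∈ IntermediateField.map (k⟮f⟯).val k⟮AdjoinSimple.gen k f⟯ := by
    rw [h1]; exact x.2
  obtain ⟨y, hy, hyx⟩ := h2
  have h3 : y = x := Subtype.ext hyx
  rwa [← h3]

theorem finrank_gen {k K : Type} [Field k] [Field K] [Algebra k K] (f : K) :
    Module.finrank k⟮AdjoinSimple.gen k f⟯ k⟮f⟯ = 1 := by
  have h := IntermediateField.finrank_top (F := k) (E := k⟮f⟯)
  rw [gen_top]
  exact h

section

variable {k : Type} [Field k] [CharZero k] {K : Type} [Field K] [Algebra k K]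

theorem place_gen {F : Type} [Field F] [Algebra k F] [IsFF k F]
    (t : F) (ht : Transcendental k t) (h1 : Module.finrank k⟮t⟯ F = 1) :
    ∀ v : Place k F, 0 < v.ord t → v.ord t = 1 ∧ ∀ v' : Place k F, 0 < v'.ord t → v' = v := by
  classical
  obtain ⟨S, hS, hS1, hS2⟩ := zeros ht
  rw [h1] at hS2
  intro v hv
  have h2 : ∀ w ∈ S, 0 < (w.ord t).toNat * w.deg := fun w hw =>
    Nat.mul_pos (by have := (hS w).1 hw; omega) (hS1 w hw)
  have h3 : ∀ v ∈ S, ∀ v' ∈ S, v' = v := by
    intro v hv v' hv'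
    by_contra hne
    have h4 := Finset.add_le_sum (f := fun w : Place k F => (w.ord t).toNat * w.deg)
      (fun _ _ => Nat.zero_le _) hv hv' (Ne.symm hne)
    rw [hS2] at h4
    have h5 := h2 v hv
    have h6 := h2 v' hv'
    omega
  refine ⟨?_, fun v' hv' => h3 v ((hS v).2 hv) v' ((hS v').2 hv')⟩
  have h4 := Finset.single_le_sum (f := fun w : Place k F => (w.ord t).toNat * w.deg)
      (fun _ _ => Nat.zero_le _) ((hS v).2 hv)
  rw [hS2] at h4
  have h5 := h2 v ((hS v).2 hv)
  have h6 : (v.ord t).toNat * v.deg = 1 := by omega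
  have h7 := Nat.eq_one_of_mul_eq_one_right h6
  omega

/-- symmetrization of zero-cycles on a power -/
noncomputable def SY {A ι : Type} [Fintype ι] [DecidableEq ι] :
    ((ι → A) →₀ ℤ) →+ ((ι → A) →₀ ℤ) :=
  ∑ σ : Equiv.Perm ι, Finsupp.mapDomain.addMonoidHom fun p i => p (σ i)

theorem SY_single {A ι : Type} [Fintype ι] [DecidableEq ι] (p : ι → A) (n : ℤ) :
    SY (Finsupp.single p n) = n • sy p := by
  unfold SY sy
  rw [AddMonoidHom.finsetSum_apply, Finset.smul_sum]
  refine Finset.sum_congr rfl fun σ _ => ?_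
  change Finsupp.mapDomain _ (Finsupp.single p n) = _
  rw [Finsupp.mapDomain_single, Finsupp.smul_single, smul_eq_mul, mul_one]

theorem SY_mem {X : Var k} {ι : Type} [Fintype ι] [DecidableEq ι] {z : (ι → X.Pt) →₀ ℤ}
    (hz : z ∈ RatEq (X.pow ι)) : SY z ∈ RatEq (X.pow ι) := by
  unfold SY
  rw [AddMonoidHom.finsetSum_apply]
  refine AddSubgroup.sum_mem _ fun σ _ => ?_
  exact Reg.push (X := X.pow ι) (Y := X.pow ι) (F := fun p i => p (σ i))
    (fun L _ _ x hx i => hx (σ i)) hz

variable [IsAlgClosed k] [IsFF k K]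

theorem dg_divisor (f : K) : dg (divisor k f) = 0 := by
  have h := ddeg_divisor (k := k) f
  unfold ddeg at h
  rw [← h]
  simp only [dg, Finsupp.liftAddHom_apply]
  unfold Finsupp.sum
  refine Finset.sum_congr rfl fun P _ => ?_
  change divisor k f P = divisor k f P * (P.deg : ℤ)
  rw [deg_one]
  simp

theorem pencil {ι : Type} [Fintype ι] [DecidableEq ι] (p p' : ι → Place k K) (f : K)
    (h : tot p - tot p' = divisor k f) :
    ∃ N : ℕ, 0 < N ∧ N • (sy p - sy p') ∈ RatEq ((curve k K).pow ι) := by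
  classical
  by_cases halg : IsAlgebraic k f
  · refine ⟨1, one_pos, ?_⟩
    have h1 : divisor k f = 0 := by
      ext P
      rw [divisor_apply]
      by_cases hf0 : f = 0
      · rw [hf0, P.ord_zero]; rfl
      · exact P.ord_eq_zero_of_isAlgebraic hf0 halg
    rw [h1, sub_eq_zero] at h
    rw [sy_congr h, sub_self, smul_zero]
    exact AddSubgroup.zero_mem _
  have hf : Transcendental k f := halg
  let t : k⟮f⟯ := AdjoinSimple.gen k f
  have hft : algebraMap k⟮f⟯ K t = f := rfl
  have ht : Transcendental k t := by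
    rw [← transcendental_algebraMap_iff (algebraMap k⟮f⟯ K).injective]
    exact hf
  have ht0 : t ≠ 0 := by
    rintro h
    rw [h] at ht
    exact ht isAlgebraic_zero
  have hr : Module.finrank k⟮t⟯ k⟮f⟯ = 1 := finrank_gen f
  have hr' : Module.finrank k⟮t⁻¹⟯ k⟮f⟯ = 1 := by rw [adjoin_inv]; exact hr
  have ht' : Transcendental k t⁻¹ := by
    intro h
    apply ht
    have := h.inv
    rwa [inv_inv] at this
  have hfd : FiniteDimensional k⟮t⟯ k⟮f⟯ := Module.finite_of_finrank_pos (by rw [hr]; exact one_pos)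
  have : IsFF k k⟮f⟯ := IsFF.of_finite ht hfd
  have : FiniteDimensional k⟮f⟯ K := IsFF.finite hf
  have : CharZero k⟮f⟯ := charZero_of_injective_algebraMap (algebraMap k k⟮f⟯).injective
  obtain ⟨L, _, _, _, _, hcard, hN⟩ := exists_split k⟮f⟯ K
  let _ : Algebra k L := ((algebraMap k⟮f⟯ L).comp (algebraMap k k⟮f⟯)).toAlgebra
  have : IsScalarTower k k⟮f⟯ L := IsScalarTower.of_algebraMap_eq fun _ => rfl
  have : IsFF k L := isFF_of_finite (F := k⟮f⟯)
  let fL : L := algebraMap k⟮f⟯ L t
  have hfL : Transcendental k fL :=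
    (transcendental_algebraMap_iff (algebraMap k⟮f⟯ L).injective).2 ht
  have hfL0 : fL ≠ 0 := by
    rintro h
    rw [h] at hfL
    exact hfL isAlgebraic_zero
  -- the counting lemma at zeros and poles
  have key : ∀ (s : k⟮f⟯), Transcendental k s → Module.finrank k⟮s⟯ k⟮f⟯ = 1 → ∀ P : Place k L,
      0 < P.ord (algebraMap k⟮f⟯ L s) → ∀ w : Place k K,
      tot (fun φ : K →ₐ[k⟮f⟯] L => pb (φ.restrictScalars k) P) w =
        max (w.ord (algebraMap k⟮f⟯ K s)) 0 := by
    intro s hs hs1 P hP w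
    have h1 : 0 < (under k⟮f⟯ P).ord s := by
      rw [ord_under] at hP
      have h3 : (0 : ℤ) < ram k⟮f⟯ P := by exact_mod_cast (ram_spec (F := k⟮f⟯) P).1
      by_contra hcon
      push Not at hcon
      nlinarith
    have h2 := place_gen s hs hs1 _ h1
    exact count hN P s h2.1 h2.2 w
  have hinv : algebraMap k⟮f⟯ K t⁻¹ = f⁻¹ := by rw [map_inv₀, hft]
  have hinvL : algebraMap k⟮f⟯ L t⁻¹ = fL⁻¹ := by rw [map_inv₀]
  -- a zero of `f` on the covering
  obtain ⟨S, hS, hS1, hS2⟩ := zeros hfL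
  have hpos : 0 < Module.finrank k⟮fL⟯ L := by
    have := IsFF.finite hfL
    exact Module.finrank_pos
  obtain ⟨P0, hP0⟩ : ∃ P0, P0 ∈ S := by
    by_contra hcon
    push Not at hcon
    have : S = ∅ := Finset.eq_empty_of_forall_notMem hcon
    rw [this, Finset.sum_empty] at hS2
    omega
  rw [hS] at hP0
  let Z := tot (fun φ : K →ₐ[k⟮f⟯] L => pb (φ.restrictScalars k) P0)
  have hZ : ∀ w, Z w = max (w.ord f) 0 := fun w => key t ht hr P0 hP0 w
  have hZdg : dg Z = Module.finrank k⟮f⟯ K := by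
    change dg (tot _) = _
    rw [dg_tot, hcard]
  have hle : ∀ w, 0 ≤ (tot p - Z) w := by
    intro w
    rw [Finsupp.sub_apply, hZ]
    have h1 := DFunLike.congr_fun h w
    rw [Finsupp.sub_apply, divisor_apply] at h1
    have h2 : 0 ≤ tot p w := tot_nonneg p w
    have h3 : 0 ≤ tot p' w := tot_nonneg p' w
    rcases max_cases (w.ord f) 0 with h4 | h4 <;> omega
  have hdeg : dg (tot p - Z) = (Fintype.card ι : ℤ) - Module.finrank k⟮f⟯ K := by
    rw [map_sub, dg_tot, hZdg]
  have hdeg0 : 0 ≤ dg (tot p - Z) := by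
    simp only [dg, Finsupp.liftAddHom_apply]
    exact Finset.sum_nonneg fun w _ => hle w
  have hmle : Module.finrank k⟮f⟯ K ≤ Fintype.card ι := by
    rw [hdeg] at hdeg0
    omega
  obtain ⟨R, hR⟩ := enum (ι := Fin (Fintype.card ι - Module.finrank k⟮f⟯ K)) (tot p - Z) hle (by
    rw [hdeg, Fintype.card_fin]
    push_cast [hmle]
    rfl)
  have e : ι ≃ (K →ₐ[k⟮f⟯] L) ⊕ Fin (Fintype.card ι - Module.finrank k⟮f⟯ K) :=
    Fintype.equivOfCardEq (by rw [Fintype.card_sum, hcard, Fintype.card_fin]; omega)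
  let x : Place k L → ι → Place k K := fun P i =>
    Sum.elim (fun φ : K →ₐ[k⟮f⟯] L => pb (φ.restrictScalars k) P) R (e i)
  have hx : ((curve k K).pow ι).IsMor L x := by
    intro i
    change (curve k K).IsMor L (fun P => x P i)
    rcases hei : e i with φ | j
    · right
      refine ⟨φ.restrictScalars k, fun P => ?_⟩
      have : x P i = pb (φ.restrictScalars k) P := by
        change Sum.elim _ R (e i) = _
        rw [hei]; rfl
      obtain ⟨c, hc, hc'⟩ := pb_spec (φ.restrictScalars k) P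
      refine ⟨c, hc, fun g => ?_⟩
      change _ = (c : ℤ) * (x P i).ord g
      rw [this]
      exact hc' g
    · left
      refine ⟨R j, fun P => ?_⟩
      change Sum.elim _ R (e i) = _
      rw [hei]; rfl
  have hxt : ∀ P, tot (x P) = tot (fun φ : K →ₐ[k⟮f⟯] L => pb (φ.restrictScalars k) P) +
      (tot p - Z) := by
    intro P
    rw [← hR, ← tot_sum]
    exact tot_comp e _
  have hx0 : ∀ P, 0 < P.ord fL → sy (x P) = sy p := by
    intro P hP
    apply sy_congr
    rw [hxt P]
    ext w
    rw [Finsupp.add_apply, Finsupp.sub_apply, key t ht hr P hP w, hft, hZ]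
    ring
  have hx1 : ∀ P, P.ord fL < 0 → sy (x P) = sy p' := by
    intro P hP
    apply sy_congr
    rw [hxt P]
    ext w
    have hP' : 0 < P.ord (algebraMap k⟮f⟯ L t⁻¹) := by
      rw [hinvL, P.ord_inv]; omega
    have h1 := DFunLike.congr_fun h w
    rw [Finsupp.sub_apply, divisor_apply] at h1
    rw [Finsupp.add_apply, Finsupp.sub_apply, key t⁻¹ ht' hr' P hP' w, hinv, w.ord_inv, hZ]
    rcases max_cases (w.ord f) 0 with h4 | h4 <;> rcases max_cases (-w.ord f) 0 with h5 | h5 <;>
      omega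
  -- the cycle
  have hmem := SY_mem (X := curve k K) (mem_ratEq (X := (curve k K).pow ι) hx hfL0)
  set D := divisor k fL with hD
  have h1 : SY (Finsupp.mapDomain x D) = ∑ P ∈ D.support, D P • sy (x P) := by
    rw [Finsupp.mapDomain, Finsupp.sum, map_sum]
    exact Finset.sum_congr rfl fun P _ => SY_single _ _
  have h2 : ∀ P ∈ D.support, D P • sy (x P) =
      (max (D P) 0) • (sy p - sy p') + D P • sy p' := by
    intro P hP
    rw [Finsupp.mem_support_iff, hD, divisor_apply] at hP
    rw [hD, divisor_apply]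
    rcases lt_or_gt_of_ne hP with h | h
    · rw [hx1 P h, max_eq_right h.le, zero_smul, zero_add]
    · rw [hx0 P h, max_eq_left h.le, smul_sub, sub_add_cancel]
  have h3 : ∑ P ∈ D.support, D P = 0 := by
    have := dg_divisor (k := k) fL
    rw [← hD] at this
    simpa only [dg, Finsupp.liftAddHom_apply, Finsupp.sum, AddMonoidHom.id_apply] using this
  have h6 : SY (Finsupp.mapDomain x D) = (∑ P ∈ D.support, max (D P) 0) • (sy p - sy p') := by
    rw [h1, Finset.sum_congr rfl h2, Finset.sum_add_distrib, ← Finset.sum_smul,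
      ← Finset.sum_smul, h3, zero_smul, add_zero]
  have h4 : 0 < ∑ P ∈ D.support, max (D P) 0 := by
    apply Finset.sum_pos'
    · intro P _; exact le_max_right _ _
    · refine ⟨P0, ?_, ?_⟩
      · rw [Finsupp.mem_support_iff, hD, divisor_apply]; omega
      · rw [hD, divisor_apply]; exact lt_max_of_lt_left hP0
  refine ⟨(∑ P ∈ D.support, max (D P) 0).toNat, by omega, ?_⟩
  have h5 : (((∑ P ∈ D.support, max (D P) 0).toNat : ℕ) : ℤ) = ∑ P ∈ D.support, max (D P) 0 :=
    Int.toNat_of_nonneg h4.le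
  rw [← natCast_zsmul, h5, ← h6]
  exact hmem

end

end Pool.Agent.J4.H17.ZC
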