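import Pool.Agent.J4.H17.ZC.Main

/-!
# Voisin's conjecture on zero-cycles for products of two curves

The definitions of zero-cycles, rational equivalence, genus and exterior products are in
`Pool.Agent.J4.H17.ZC.Defs`.
-/

set_option autoImplicit false

open FF

namespace Pool.Agent.Results.MP_83b46e_ag.ProductsOfCurves

open Pool.Agent.J4.H17.ZC

section

variable {k : Type} [Field k] [CharZero k] {K1 K2 : Type} [Field K1] [Algebra k K1] [IsFF k K1]
  [Field K2] [Algebra k K2] [IsFF k K2]

/-- Albanese-trivial zero-cycles on the product of two curves: the images in the two curves are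
principal divisors. -/
def AlbTrivial (a : Place k K1 × Place k K2 →₀ ℤ) : Prop :=
  Principal k K1 (Finsupp.mapDomain Prod.fst a) ∧ Principal k K2 (Finsupp.mapDomain Prod.snd a)

/-- the maps of the product which are used in the reduction to cycles vanishing on the two axes -/
def th (o1 : Place k K1) (o2 : Place k K2) :
    Fin 4 → Place k K1 × Place k K2 → Place k K1 × Place k K2 :=
  ![fun x => x, fun x => (o1, x.2), fun x => (x.1, o2), fun _ => (o1, o2)]

/-- the signs of the maps `th` -/
def sg : Fin 4 → ℤ := ![1, -1, -1, 1]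

theorem ec_eq (o1 : Place k K1) (o2 : Place k K2) (x : Place k K1 × Place k K2) :
    ec sg (th o1 o2) x = Finsupp.single x 1 - Finsupp.single (o1, x.2) 1 -
      Finsupp.single (x.1, o2) 1 + Finsupp.single (o1, o2) 1 := by
  unfold ec
  rw [Fin.sum_univ_four]
  change (1 : ℤ) • Finsupp.single x 1 + (-1 : ℤ) • Finsupp.single (o1, x.2) 1 +
    (-1 : ℤ) • Finsupp.single (x.1, o2) 1 + (1 : ℤ) • Finsupp.single (o1, o2) 1 = _
  simp only [neg_smul, one_smul]
  abel

theorem lec_eq (o1 : Place k K1) (o2 : Place k K2) (a : Place k K1 × Place k K2 →₀ ℤ) :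
    lec sg (th o1 o2) a = a - Finsupp.mapDomain (fun x => (o1, x.2)) a -
      Finsupp.mapDomain (fun x => (x.1, o2)) a + Finsupp.mapDomain (fun _ => (o1, o2)) a := by
  unfold lec
  rw [AddMonoidHom.finsetSum_apply, Fin.sum_univ_four]
  change (1 : ℤ) • Finsupp.mapDomain (fun x => x) a +
    (-1 : ℤ) • Finsupp.mapDomain (fun x : Place k K1 × Place k K2 => (o1, x.2)) a +
    (-1 : ℤ) • Finsupp.mapDomain (fun x : Place k K1 × Place k K2 => (x.1, o2)) a +
    (1 : ℤ) • Finsupp.mapDomain (fun _ : Place k K1 × Place k K2 => (o1, o2)) a = _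
  have h : Finsupp.mapDomain (fun x : Place k K1 × Place k K2 => x) a = a :=
    Finsupp.mapDomain_id
  rw [h]
  simp only [neg_smul, one_smul]
  abel

end

/-- Voisin's conjecture, with rational coefficients, for the products of two smooth projective
curves `C₁`, `C₂` of genera `g₁`, `g₂`; the geometric genus of `C₁ × C₂` is `g₁ g₂`. -/
theorem result {k : Type} [Field k] [IsAlgClosed k] [CharZero k] (K1 K2 : Type)
    [Field K1] [Algebra k K1] [IsFF k K1] [Field K2] [Algebra k K2] [IsFF k K2] (g1 g2 : ℕ)
    (h1 : HasGenus k K1 g1) (h2 : HasGenus k K2 g2) (n : ℕ) (hn : g1 * g2 < n)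
    (a : Fin n → (Place k K1 × Place k K2 →₀ ℤ)) (ha : ∀ i, AlbTrivial (a i)) :
    ∃ N : ℕ, 0 < N ∧ N • altSum a ∈ RatEq (((curve k K1).prod (curve k K2)).pow (Fin n)) := by
  obtain ⟨o1, -⟩ := exists_place (k := k) (K := K1)
  obtain ⟨o2, -⟩ := exists_place (k := k) (K := K2)
  have hX : ((curve k K1).prod (curve k K2)).Const :=
    fun L _ _ Q => ⟨curve_const K1 L Q.1, curve_const K2 L Q.2⟩
  refine torsion_of_hom _ _ fun l hl => ?_
  -- reduction to cycles vanishing on the axes
  have h3 : ∀ i, a i - lec sg (th o1 o2) (a i) ∈ RatEq ((curve k K1).prod (curve k K2)) := by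
    intro i
    obtain ⟨⟨f, hf, hf'⟩, ⟨h, hh, hh'⟩⟩ := ha i
    have e1 : Finsupp.mapDomain (fun x => (o1, x.2)) (a i) =
        Finsupp.mapDomain (fun t => (o1, t)) (divisor k h) := by
      rw [← hh', ← Finsupp.mapDomain_comp]
      rfl
    have e2 : Finsupp.mapDomain (fun x => (x.1, o2)) (a i) =
        Finsupp.mapDomain (fun s => (s, o2)) (divisor k f) := by
      rw [← hf', ← Finsupp.mapDomain_comp]
      rfl
    have e3 : Finsupp.mapDomain (fun _ => (o1, o2)) (a i) =
        Finsupp.mapDomain (fun _ => (o1, o2)) (divisor k f) := by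
      rw [← hf', ← Finsupp.mapDomain_comp]
      rfl
    have e4 : a i - lec sg (th o1 o2) (a i) =
        Finsupp.mapDomain (fun t => (o1, t)) (divisor k h) +
        Finsupp.mapDomain (fun s => (s, o2)) (divisor k f) -
        Finsupp.mapDomain (fun _ => (o1, o2)) (divisor k f) := by
      rw [lec_eq, e1, e2, e3]
      abel
    rw [e4]
    have hid : ∀ (K : Type) [Field K] [Algebra k K], (curve k K).IsMor K (fun P => P) :=
      fun K _ _ => Or.inr ⟨AlgHom.id k K, fun P => ⟨1, one_pos, fun g => by simp⟩⟩
    refine AddSubgroup.sub_mem _ (AddSubgroup.add_mem _ ?_ ?_) ?_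
    · exact mem_ratEq (X := (curve k K1).prod (curve k K2)) (L := K2)
        ⟨curve_const K1 K2 o1, hid K2⟩ hh
    · exact mem_ratEq (X := (curve k K1).prod (curve k K2)) (L := K1)
        ⟨hid K1, curve_const K2 K1 o2⟩ hf
    · exact mem_ratEq (X := (curve k K1).prod (curve k K2)) (L := K1) (hX K1 (o1, o2)) hf
  have h4 : ∀ σ : Equiv.Perm (Fin n), l (ext fun i => a (σ i)) =
      l (EE sg (th o1 o2) n (ext fun i => a (σ i))) := by
    intro σ
    have h5 := hl _ (ext_sub_mem hX (fun i => a (σ i)) (fun i => lec sg (th o1 o2) (a (σ i)))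
      fun i => h3 (σ i))
    rw [map_sub, sub_eq_zero] at h5
    rw [EE_ext]
    exact h5
  have h5 : l (altSum a) = l (EE sg (th o1 o2) n (ALT (ext a))) := by
    rw [← altSum_eq]
    unfold altSum
    rw [map_sum, map_sum, map_sum]
    refine Finset.sum_congr rfl fun σ _ => ?_
    rw [map_zsmul, map_zsmul, map_zsmul, h4 σ]
  rw [h5]
  -- vanishing for all zero-cycles
  have h6 : ∀ z : (Fin n → Place k K1 × Place k K2) →₀ ℤ,
      l (EE sg (th o1 o2) n (ALT z)) = 0 := by
    intro z
    induction z using Finsupp.induction_linear with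
    | zero => rw [map_zero, map_zero, map_zero]
    | add u v hu hv => rw [map_add, map_add, map_add, hu, hv, add_zero]
    | single x c =>
      have h7 : Finsupp.single x c = c • Finsupp.single x (1 : ℤ) := by
        rw [Finsupp.smul_single, smul_eq_mul, mul_one]
      rw [h7, map_zsmul, map_zsmul, map_zsmul]
      have h8 := alt_torsion h1 h2 hX (fun x u => (u, x.2))
        (fun x L _ _ y hy => ⟨hy, curve_const K2 L x.2⟩) (fun x u => (x.1, u))
        (fun x L _ _ y hy => ⟨curve_const K1 L x.1, hy⟩) (fun s t => (s, t))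
        (fun _ _ _ => rfl) (fun _ _ _ => rfl) o1 o2 sg (th o1 o2) (by
          intro j L _ _ y hy
          fin_cases j
          · exact hy
          · exact ⟨curve_const K1 L o1, hy.2⟩
          · exact ⟨hy.1, curve_const K2 L o2⟩
          · exact hX L (o1, o2)) (by
          intro x
          rw [ec_eq]
          simp only
          abel) (by
          intro x
          rw [ec_eq]
          simp only
          abel) hn (fun i => (x i).1) (fun i => (x i).2) l hl
      have h9 : l (EE sg (th o1 o2) n (ALT (Finsupp.single x 1))) = 0 := h8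
      rw [h9, smul_zero]
  exact h6 _

end Pool.Agent.Results.MP_83b46e_ag.ProductsOfCurves
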