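import Pool.Agent.J4.H17.ZC.Defs

/-!
# Quotients by finite groups
-/

set_option autoImplicit false

open FF

namespace Pool.Agent.J4.H17.ZC

/-- The quotient of `X` with the quotient map `q` (by the action of a finite group). The morphisms
to it from the smooth projective curve `D` with function field `L` are the maps which, after a
finite covering `D' → D` by a smooth projective curve with function field `L'`, are given by a
morphism `y : D' → X`: the image of a point `P` of `D` is `q (y P')` for the points `P'` of `D'`
over `P`. -/
def Var.quot {k : Type} [Field k] (X : Var k) {Y : Type} (q : X.Pt → Y) : Var k where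
  Pt := Y
  IsMor L _ _ x := ∃ (L' : Type) (_ : Field L') (_ : Algebra k L') (_ : IsFF k L')
    (φ : L →ₐ[k] L') (y : Place k L' → X.Pt), X.IsMor L' y ∧
    ∀ (P : Place k L) (P' : Place k L') (e : ℕ), 0 < e →
      (∀ f : L, P'.ord (φ f) = e * P.ord f) → x P = q (y P')

/-- The symmetric square of the curve with function field `K`; its points are the unordered pairs
of points of the curve. -/
def symSq (k : Type) [Field k] (K : Type) [Field K] [Algebra k K] : Var k :=
  ((curve k K).prod (curve k K)).quot fun p => s(p.1, p.2)

end Pool.Agent.J4.H17.ZC
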