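import Pool.Agent.J4.H17.ZC.G11

/-!
# MP_83b46e_ag: Voisin's conjecture for quotients of products of two curves

Let `G` be a finite group acting on two smooth projective curves `C₁`, `C₂` with rational quotients
`C₁/G`, `C₂/G`, and `S = (C₁ × C₂)/G` the quotient by the diagonal action, which has irregularity
`0`. Let `H j` be subgroups of `G` and `c j` integers with sum not zero such that the combination
`∑ c j |H j| Ind (1 from H j to G)` is a multiple of the regular character. If `n` is larger than
the sum of the products of the genera of `C₁/H j` and `C₂/H j`, then the alternating sum of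
`a 1 × ... × a n` on `S ^ n` is zero in the Chow group with rational coefficients, for all
zero-cycles of degree zero `a 1`, ..., `a n` on `S`.

If all elements of `G` have order at most two then one may take the subgroups of index at most two,
and the sum of the products of the genera is the geometric genus of (the desingularization of) `S`.
-/

set_option autoImplicit false

open FF IntermediateField

namespace Pool.Agent.Results.MP_83b46e_ag.RationalQuotients

open Pool.Agent.J4.H17.ZC

variable {k : Type} [Field k] {K1 K2 : Type} [Field K1] [Algebra k K1] [Field K2] [Algebra k K2]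
  {G : Type} [Group G]

/-- Two pairs of points are equivalent if they are in the same orbit of the diagonal action of the
group `G`, which acts on the two curves by `α1` and `α2`. -/
def orb (α1 : G →* (K1 ≃ₐ[k] K1)) (α2 : G →* (K2 ≃ₐ[k] K2)) :
    Setoid (Place k K1 × Place k K2) where
  r x y := ∃ g : G, y = (act (α1 g) x.1, act (α2 g) x.2)
  iseqv :=
    { refl := fun x => ⟨1, by rw [map_one, map_one, act_one, act_one]⟩
      symm := by
        rintro x y ⟨g, rfl⟩
        refine ⟨g⁻¹, ?_⟩
        change x = (act (α1 g⁻¹) (act (α1 g) x.1), act (α2 g⁻¹) (act (α2 g) x.2))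
        rw [← act_mul, ← act_mul, ← map_mul, ← map_mul, inv_mul_cancel, map_one, map_one, act_one,
          act_one]
      trans := by
        rintro x y z ⟨g, rfl⟩ ⟨h, rfl⟩
        refine ⟨h * g, ?_⟩
        rw [map_mul, map_mul, act_mul, act_mul] }

/-- The quotient of the product of the two curves by the diagonal action of the group. -/
def quotSurf (α1 : G →* (K1 ≃ₐ[k] K1)) (α2 : G →* (K2 ≃ₐ[k] K2)) : Var k :=
  ((curve k K1).prod (curve k K2)).quot (Quotient.mk (orb α1 α2))

/-- The conclusion of the conjecture for `n` and the surface `S`: the alternating sums of the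
exterior products of `n` zero-cycles of degree zero are torsion modulo rational equivalence. -/
def Vanishes [CharZero k] (S : Var k) (n : ℕ) : Prop :=
  ∀ a : Fin n → (S.Pt →₀ ℤ), (∀ i, (a i).sum (fun _ m => m) = 0) →
    ∃ N : ℕ, 0 < N ∧ N • altSum a ∈ RatEq (S.pow (Fin n))

theorem dg_eq {A : Type} (b : A →₀ ℤ) : dg b = b.sum fun _ m => m := rfl

/-- The general case. -/
theorem general [IsAlgClosed k] [CharZero k] [IsFF k K1] [IsFF k K2] [Finite G]
    (α1 : G →* (K1 ≃ₐ[k] K1)) (α2 : G →* (K2 ≃ₐ[k] K2))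
    (h01 : HasGenus k (fixedField α1.range) 0) (h02 : HasGenus k (fixedField α2.range) 0)
    {J : Type} [Fintype J] (H : J → Subgroup G) (c : J → ℤ) (g1 g2 : J → ℕ)
    (hc : ∀ x : G, x ≠ 1 → ∑ j, c j * (Nat.card {g : G // g * x * g⁻¹ ∈ H j} : ℤ) = 0)
    (hc0 : ∑ j, c j ≠ 0)
    (h1 : ∀ j, HasGenus k (fixedField ((H j).map α1)) (g1 j))
    (h2 : ∀ j, HasGenus k (fixedField ((H j).map α2)) (g2 j))
    (n : ℕ) (hn : ∑ j, g1 j * g2 j < n) : Vanishes (quotSurf α1 α2) n := by
  classical
  intro a ha
  have : Fintype G := Fintype.ofFinite G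
  have hr1 : ∀ j, (α1.comp (H j).subtype).range = (H j).map α1 := fun j => by
    rw [MonoidHom.range_comp, Subgroup.range_subtype]
  have hr2 : ∀ j, (α2.comp (H j).subtype).range = (H j).map α2 := fun j => by
    rw [MonoidHom.range_comp, Subgroup.range_subtype]
  have hq : ∀ y : Quotient (orb α1 α2), ∃ x, (Quotient.mk (orb α1 α2) x) = y :=
    fun y => Quotient.exists_rep y
  choose r hr using hq
  have h3 := quot_alt α1 α2 H g1 g2 c hc hc0 h01 h02 (fun j => by rw [hr1]; exact h1 j)
    (fun j => by rw [hr2]; exact h2 j) hn (Quotient.mk (orb α1 α2)) (by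
      intro g s t
      exact (Quotient.sound (s := orb α1 α2) (show (orb α1 α2).r (s, t) _ from ⟨g, rfl⟩)).symm)
    (fun i => Finsupp.mapDomain r (a i)) (by
      intro i
      rw [dg_eq, Finsupp.sum_mapDomain_index (fun _ => rfl) (fun _ _ _ => rfl)]
      exact ha i)
  have h4 : (fun i => Finsupp.mapDomain (Quotient.mk (orb α1 α2)) (Finsupp.mapDomain r (a i))) =
      a := by
    funext i
    rw [← Finsupp.mapDomain_comp]
    have : (Quotient.mk (orb α1 α2)) ∘ r = id := funext hr
    rw [this, Finsupp.mapDomain_id]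
  rw [h4] at h3
  exact h3

/-- Voisin's conjecture, with rational coefficients, for the quotients of products of two curves by
finite groups with rational quotients of the two curves. -/
theorem result {k : Type} [Field k] [IsAlgClosed k] [CharZero k] (K1 K2 : Type) [Field K1]
    [Algebra k K1] [IsFF k K1] [Field K2] [Algebra k K2] [IsFF k K2] (G : Type) [Group G]
    [Finite G] (α1 : G →* (K1 ≃ₐ[k] K1)) (α2 : G →* (K2 ≃ₐ[k] K2))
    (h01 : HasGenus k (fixedField α1.range) 0) (h02 : HasGenus k (fixedField α2.range) 0) :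
    (∀ (J : Type) [Fintype J] (H : J → Subgroup G) (c : J → ℤ) (g1 g2 : J → ℕ),
      (∀ x : G, x ≠ 1 → ∑ j, c j * (Nat.card {g : G // g * x * g⁻¹ ∈ H j} : ℤ) = 0) →
      ∑ j, c j ≠ 0 →
      (∀ j, HasGenus k (fixedField ((H j).map α1)) (g1 j)) →
      (∀ j, HasGenus k (fixedField ((H j).map α2)) (g2 j)) →
      ∀ n : ℕ, ∑ j, g1 j * g2 j < n → Vanishes (quotSurf α1 α2) n) ∧
    ((∀ x : G, x * x = 1) → ∀ g1 g2 : (G →* ℤˣ) → ℕ,
      (∀ χ, χ ≠ 1 → HasGenus k (fixedField (χ.ker.map α1)) (g1 χ)) →
      (∀ χ, χ ≠ 1 → HasGenus k (fixedField (χ.ker.map α2)) (g2 χ)) →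
      ∀ n : ℕ, ∑ᶠ χ ∈ {χ : G →* ℤˣ | χ ≠ 1}, g1 χ * g2 χ < n →
        Vanishes (quotSurf α1 α2) n) := by
  classical
  refine ⟨fun J _ H c g1 g2 hc hc0 h1 h2 n hn => general α1 α2 h01 h02 H c g1 g2 hc hc0 h1 h2 n hn,
    ?_⟩
  intro hG g1 g2 h1 h2 n hn
  have : Finite (G →* ℤˣ) := inferInstance
  have : Fintype (G →* ℤˣ) := Fintype.ofFinite _
  have hmap : ∀ {K : Type} [Field K] [Algebra k K] (α : G →* (K ≃ₐ[k] K)),
      (1 : G →* ℤˣ).ker.map α = α.range := by
    intro K _ _ α
    rw [MonoidHom.ker_one, MonoidHom.range_eq_map]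
  refine general α1 α2 h01 h02 (fun χ : G →* ℤˣ => χ.ker)
    (fun χ => if χ = 1 then 2 - (Fintype.card (G →* ℤˣ) : ℤ) else 2)
    (fun χ => if χ = 1 then 0 else g1 χ) (fun χ => if χ = 1 then 0 else g2 χ) ?_ ?_ ?_ ?_ n ?_
  · intro x hx
    have h3 : ∀ χ : G →* ℤˣ, (Nat.card {g : G // g * x * g⁻¹ ∈ χ.ker} : ℤ) =
        Nat.card G * (if χ x = 1 then 1 else 0) := by
      intro χ
      have h4 : ∀ g : G, g * x * g⁻¹ ∈ χ.ker ↔ χ x = 1 := by
        intro g
        rw [MonoidHom.mem_ker, map_mul, map_mul, map_inv, mul_right_comm, mul_inv_cancel, one_mul]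
      split_ifs with h
      · rw [mul_one]
        congr 1
        exact Nat.card_congr (Equiv.subtypeUnivEquiv fun g => (h4 g).2 h)
      · rw [mul_zero]
        have h5 : IsEmpty {g : G // g * x * g⁻¹ ∈ χ.ker} := ⟨fun g => h ((h4 g.1).1 g.2)⟩
        rw [Nat.card_of_isEmpty]
        rfl
    have h4 : ∀ χ : G →* ℤˣ, (if χ = 1 then 2 - (Fintype.card (G →* ℤˣ) : ℤ) else 2) *
        (Nat.card {g : G // g * x * g⁻¹ ∈ χ.ker} : ℤ) =
        Nat.card G * (2 * (if χ x = 1 then 1 else 0)) -
          (if χ = 1 then (Nat.card G : ℤ) * Fintype.card (G →* ℤˣ) else 0) := by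
      intro χ
      rw [h3]
      by_cases h : χ = 1
      · subst h
        simp only [if_true, MonoidHom.one_apply]
        ring
      · simp only [h, if_false]
        ring
    rw [Finset.sum_congr rfl fun χ _ => h4 χ, Finset.sum_sub_distrib, ← Finset.mul_sum,
      ← Finset.mul_sum, char_count hG hx, Finset.sum_ite_eq' Finset.univ (1 : G →* ℤˣ),
      if_pos (Finset.mem_univ _), sub_self]
  · have h3 : ∀ χ : G →* ℤˣ, (if χ = 1 then 2 - (Fintype.card (G →* ℤˣ) : ℤ) else 2) =
        2 - (if χ = 1 then (Fintype.card (G →* ℤˣ) : ℤ) else 0) := by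
      intro χ
      split_ifs <;> ring
    rw [Finset.sum_congr rfl fun χ _ => h3 χ, Finset.sum_sub_distrib,
      Finset.sum_ite_eq' Finset.univ (1 : G →* ℤˣ), if_pos (Finset.mem_univ _), Finset.sum_const,
      Finset.card_univ, nsmul_eq_mul]
    have : 0 < Fintype.card (G →* ℤˣ) := Fintype.card_pos
    omega
  · intro χ
    by_cases h : χ = 1
    · subst h
      rw [if_pos rfl, hmap]
      exact h01
    · rw [if_neg h]
      exact h1 χ h
  · intro χ
    by_cases h : χ = 1
    · subst h
      rw [if_pos rfl, hmap]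
      exact h02
    · rw [if_neg h]
      exact h2 χ h
  · refine lt_of_eq_of_lt ?_ hn
    rw [finsum_mem_def, finsum_eq_sum_of_fintype]
    refine Finset.sum_congr rfl fun χ _ => ?_
    by_cases h : χ = 1
    · simp [h]
    · simp [h]

end Pool.Agent.Results.MP_83b46e_ag.RationalQuotients
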