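import Pool.Agent.J4.H17.ZC.Mul
import Pool.Agent.J4.H17.ZC.Fun

/-!
# Relations from the theorem of Riemann
-/

set_option autoImplicit false

open FF IntermediateField Pool.Agent.W603.LV Pool.Agent.W603.PV

namespace Pool.Agent.J4.H17.ZC

section

variable {k : Type} [Field k] [CharZero k] {K : Type} [Field K] [Algebra k K] [IsAlgClosed k]
  [IsFF k K]

theorem ddeg_eq_dg (D : Place k K →₀ ℤ) : ddeg D = dg D := by
  simp only [dg, Finsupp.liftAddHom_apply]
  unfold ddeg Finsupp.sum
  refine Finset.sum_congr rfl fun P _ => ?_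
  change D P * (P.deg : ℤ) = D P
  rw [deg_one]
  simp

theorem RR_eq (D : Place k K →₀ ℤ) : RR D = LL D := by
  unfold RR
  have h : {f : K | f = 0 ∨ ∀ P : Place k K, -D P ≤ P.ord f} = (LL D : Set K) := by
    ext f
    exact mem_LL.symm
  rw [h, Submodule.span_eq]

theorem HasGenus.ell_eq {g : ℕ} (hg : HasGenus k K g) :
    ∃ N : ℤ, ∀ D : Place k K →₀ ℤ, N ≤ ddeg D → ell D = ddeg D + 1 - g := by
  obtain ⟨N, hN⟩ := hg
  refine ⟨N, fun D hD => ?_⟩
  have h1 : ddeg D = D.sum fun _ n => n := by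
    rw [ddeg_eq_dg]
    simp only [dg, Finsupp.liftAddHom_apply]
    rfl
  rw [h1] at hD ⊢
  rw [← hN D hD, RR_eq]
  rfl

theorem ell_lower {g : ℕ} (hg : HasGenus k K g) (D : Place k K →₀ ℤ) :
    ddeg D + 1 - g ≤ ell D := by
  obtain ⟨γ, N, h1, h2⟩ := riemann k K
  obtain ⟨N', h3⟩ := hg.ell_eq
  obtain ⟨P, -⟩ := exists_place (k := k) (K := K)
  let E : Place k K →₀ ℤ := Finsupp.single P (max N N')
  have hE : ddeg E = max N N' := by
    rw [ddeg_eq_dg, dg_single]
  have h4 := h2 E (by rw [hE]; exact le_max_left _ _)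
  have h5 := h3 E (by rw [hE]; exact le_max_right _ _)
  have h6 := h1 D
  omega

/-- An effective divisor of degree `g + 1` can be moved so that it contains a given point. -/
theorem move {g : ℕ} (hg : HasGenus k K g) {T : Type} [Fintype T] (hT : Fintype.card T = g + 1)
    (s : T → Place k K) (o : Place k K) : ∃ p' : T → Place k K, (∃ i, p' i = o) ∧
      ∃ f : K, tot s - tot p' = divisor k f := by
  classical
  have h1 : ddeg (tot s - Finsupp.single o 1) = g := by
    rw [ddeg_eq_dg, map_sub, dg_tot, dg_single, hT]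
    push_cast
    ring
  have h2 := ell_lower hg (tot s - Finsupp.single o 1)
  rw [h1] at h2
  obtain ⟨z, hz, hz0⟩ := exists_ne_zero_of_ell_pos
    (show 0 < ell (tot s - Finsupp.single o 1) by omega)
  rw [mem_LL' hz0] at hz
  have h3 : (0 : Place k K →₀ ℤ) ≤ divisor k z + tot s := by
    intro P
    have h4 := hz P
    rw [Finsupp.add_apply, Finsupp.sub_apply, Finsupp.single_apply] at h4
    rw [Finsupp.add_apply]
    simp only [Finsupp.coe_zero, Pi.zero_apply] at h4 ⊢
    split_ifs at h4 <;> omega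
  obtain ⟨p', hp'⟩ := enum (ι := T) (divisor k z + tot s) h3 (by
    rw [map_add, dg_divisor, dg_tot, zero_add])
  refine ⟨p', ?_, z⁻¹, ?_⟩
  · have h4 := hz o
    have h5 := DFunLike.congr_fun hp' o
    rw [Finsupp.add_apply, Finsupp.sub_apply, Finsupp.single_eq_same] at h4
    rw [Finsupp.add_apply, tot_apply] at h5
    simp only [Finsupp.coe_zero, Pi.zero_apply] at h4
    have h6 : 0 < (Finset.univ.filter fun i => p' i = o).card := by omega
    obtain ⟨i, hi⟩ := Finset.card_pos.1 h6
    exact ⟨i, (Finset.mem_filter.1 hi).2⟩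
  · rw [hp', divisor_inv]
    abel

end

theorem sum_PT {Y M : Type} [Fintype Y] [DecidableEq Y] [AddCommMonoid M] (T : Finset Y)
    (F : Equiv.Perm Y → M) :
    ∑ τ ∈ PT T, F τ = ∑ σ : Equiv.Perm {x // x ∈ T}, F (Equiv.Perm.ofSubtype σ) := by
  symm
  refine Finset.sum_bij' (fun σ _ => Equiv.Perm.ofSubtype σ)
    (fun τ hτ => τ.subtypePerm fun x => ?_) ?_ ?_ ?_ ?_ ?_
  · rw [mem_PT] at hτ
    constructor
    · intro hx
      by_contra h
      rw [hτ x h] at hx
      exact h hx
    · intro hx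
      by_contra h
      have := hτ (τ x) h
      rw [τ.injective.eq_iff] at this
      rw [this] at h
      exact h hx
  · intro σ _
    rw [mem_PT]
    intro x hx
    exact Equiv.Perm.ofSubtype_apply_of_not_mem σ hx
  · intro τ _
    exact Finset.mem_univ _
  · intro σ _
    exact Equiv.Perm.subtypePerm_ofSubtype σ
  · intro τ hτ
    rw [mem_PT] at hτ
    refine Equiv.Perm.ofSubtype_subtypePerm _ ?_
    intro x hx
    by_contra h
    exact hx (hτ x h)
  · intro σ _
    rfl

section

variable {k : Type} [Field k] [CharZero k] [IsAlgClosed k] {K : Type} [Field K] [Algebra k K]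
  [IsFF k K]

/-- The relation from the theorem of Riemann in a power of `X`. -/
theorem sym_rel {g : ℕ} (hg : HasGenus k K g) {X : Var k} (hX : X.Const)
    (ins : X.Pt → Place k K → X.Pt) (hins : ∀ a, Reg (X := curve k K) (Y := X) (ins a))
    (o : Place k K) {J : Type} [Fintype J] (ε : J → ℤ) (θ : J → X.Pt → X.Pt)
    (hθ : ∀ j, Reg (X := X) (Y := X) (θ j)) (he : ∀ a, ec ε θ (ins a o) = 0) {n : ℕ}
    (T : Finset (Fin n)) (hT : T.card = g + 1) (z : Fin n → X.Pt) (s : Fin n → Place k K) :
    ∃ N : ℕ, 0 < N ∧ N • ∑ τ ∈ PT T, ext (fun i => ec ε θ (ins (z i) (s (τ i)))) ∈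
      RatEq (X.pow (Fin n)) := by
  classical
  obtain ⟨p', ⟨i1, hi1⟩, f, hf⟩ := move hg (T := {x // x ∈ T}) (by rw [Fintype.card_coe, hT])
    (fun i => s i) o
  obtain ⟨N, hN, hmem⟩ := pencil (fun i : {x // x ∈ T} => s i) p' f hf
  refine ⟨N, hN, ?_⟩
  let F : ({x // x ∈ T} → Place k K) → (Fin n → X.Pt) := fun u i =>
    if h : i ∈ T then ins (z i) (u ⟨i, h⟩) else ins (z i) (s i)
  have hF : Reg (X := (curve k K).pow {x // x ∈ T}) (Y := X.pow (Fin n)) F := by
    intro L _ _ x hx i
    by_cases h : i ∈ T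
    · have h1 := hins (z i) L _ (hx ⟨i, h⟩)
      have h2 : (fun P => F (x P) i) = fun P => ins (z i) (x P ⟨i, h⟩) := by
        funext P
        simp only [F, h, dite_true]
      rw [h2]
      exact h1
    · have h2 : (fun P => F (x P) i) = fun _ : Place k L => ins (z i) (s i) := by
        funext P
        simp only [F, h, dite_false]
      rw [h2]
      exact hX L _
  have h1 := EE_mem (X := X) ε θ hθ (hF.push hmem)
  have h2 : EE ε θ n (Finsupp.mapDomain F (N • (sy (fun i : {x // x ∈ T} => s i) - sy p'))) =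
      N • ∑ τ ∈ PT T, ext (fun i => ec ε θ (ins (z i) (s (τ i)))) := by
    have h3 : ∀ q : {x // x ∈ T} → Place k K, EE ε θ n (Finsupp.mapDomain F (sy q)) =
        ∑ σ : Equiv.Perm {x // x ∈ T}, ext (fun i => ec ε θ (F (fun j => q (σ j)) i)) := by
      intro q
      unfold sy
      rw [Finsupp.mapDomain_finsetSum, map_sum]
      refine Finset.sum_congr rfl fun σ _ => ?_
      rw [Finsupp.mapDomain_single, EE_single]
    have h4 : Finsupp.mapDomain F (N • (sy (fun i : {x // x ∈ T} => s i) - sy p')) =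
        N • (Finsupp.mapDomain F (sy (fun i : {x // x ∈ T} => s i)) -
          Finsupp.mapDomain F (sy p')) := by
      rw [Finsupp.mapDomain_smul]
      congr 1
      exact map_sub (Finsupp.mapDomain.addMonoidHom F) _ _
    rw [h4, map_nsmul, map_sub, h3, h3]
    have h5 : ∑ σ : Equiv.Perm {x // x ∈ T}, ext (fun i => ec ε θ (F (fun j => p' (σ j)) i)) =
        0 := by
      refine Finset.sum_eq_zero fun σ _ => ?_
      rw [← extM_apply]
      refine MultilinearMap.map_coord_zero _ ((σ.symm i1 : {x // x ∈ T}) : Fin n) ?_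
      have h6 : F (fun j => p' (σ j)) ((σ.symm i1 : {x // x ∈ T}) : Fin n) =
          ins (z ((σ.symm i1 : {x // x ∈ T}) : Fin n)) o := by
        simp only [F, (σ.symm i1).2, dite_true, Subtype.coe_eta, Equiv.apply_symm_apply, hi1]
      rw [h6, he]
    rw [h5, sub_zero, sum_PT]
    congr 1
    refine Finset.sum_congr rfl fun σ _ => ?_
    congr 1
    funext i
    by_cases h : i ∈ T
    · have h7 : Equiv.Perm.ofSubtype σ i = σ ⟨i, h⟩ :=
        Equiv.Perm.ofSubtype_apply_of_mem σ h
      simp only [F, h, dite_true, h7]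
    · have h7 : Equiv.Perm.ofSubtype σ i = i := Equiv.Perm.ofSubtype_apply_of_not_mem σ h
      simp only [F, h, dite_false, h7]
  rw [← h2]
  exact h1

end

end Pool.Agent.J4.H17.ZC
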