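import Mathlib

/-!
# Representations of symmetric groups without vectors fixed by large symmetric subgroups
-/

set_option autoImplicit false

namespace Pool.Agent.J4.H17.ZC

open Equiv Finset

section

variable {V X : Type*} [AddCommGroup V] [Module ℚ V] [DecidableEq X]
  (ρ : Perm X →* Module.End ℚ V)

theorem rho_swap_swap (a b c d : X) (v : V) :
    ρ (swap a b) (ρ (swap c d) v) = ρ (swap (swap a b c) (swap a b d)) (ρ (swap a b) v) := by
  rw [← Module.End.mul_apply, ← map_mul, Equiv.mul_swap_eq_swap_mul, map_mul,
    Module.End.mul_apply]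

theorem rho_swap_swap' (a b c d : X) (v : V) :
    ρ (swap a b) (ρ (swap c d) v) = ρ (swap c d) (ρ (swap (swap c d a) (swap c d b)) v) := by
  rw [← Module.End.mul_apply, ← map_mul, Equiv.swap_mul_eq_mul_swap, map_mul,
    Module.End.mul_apply, Equiv.swap_inv]

/-- A nonzero space on which the symmetric group of `U` acts, without nonzero vectors which are
symmetric in `g + 1` elements, contains a nonzero vector which is alternating on the classes of a
partition of `U` with at most `g` classes. -/
theorem exists_coloring : ∀ (g : ℕ) (U : Finset X) (W : Submodule ℚ V),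
    (∀ i ∈ U, ∀ j ∈ U, ∀ v ∈ W, ρ (swap i j) v ∈ W) → (∃ v ∈ W, v ≠ 0) →
    (∀ T ⊆ U, T.card = g + 1 → ∀ v ∈ W, (∀ i ∈ T, ∀ j ∈ T, ρ (swap i j) v = v) → v = 0) →
    ∃ c : X → ℕ, (∀ i ∈ U, c i < g) ∧ ∃ v ∈ W, v ≠ 0 ∧
      ∀ i ∈ U, ∀ j ∈ U, i ≠ j → c i = c j → ρ (swap i j) v = -v := by
  classical
  intro g
  induction g with
  | zero =>
    intro U W _ hne hfix
    obtain ⟨v, hv, hv0⟩ := hne
    have hU : ∀ i, i ∉ U := by
      intro i hi
      apply hv0
      refine hfix {i} (by simpa using hi) (by simp) v hv ?_
      intro a ha b hb
      rw [mem_singleton] at ha hb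
      rw [ha, hb, swap_self]
      change ρ 1 v = v
      rw [map_one, Module.End.one_apply]
    exact ⟨fun _ => 0, fun i hi => absurd hi (hU i), v, hv, hv0, fun i hi => absurd hi (hU i)⟩
  | succ g ih =>
    intro U W hst hne hfix
    -- a maximal alternating subset
    let Q : Finset X → Prop := fun R => ∃ v ∈ W, v ≠ 0 ∧
      ∀ i ∈ R, ∀ j ∈ R, i ≠ j → ρ (swap i j) v = -v
    obtain ⟨R, hR, hmax⟩ := Finset.exists_max_image (U.powerset.filter Q) Finset.card
      ⟨∅, by
        rw [mem_filter]
        refine ⟨by simp, ?_⟩
        obtain ⟨v, hv, hv0⟩ := hne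
        exact ⟨v, hv, hv0, by simp⟩⟩
    rw [mem_filter, mem_powerset] at hR
    obtain ⟨hRU, hRQ⟩ := hR
    let W' : Submodule ℚ V :=
      { carrier := {v | v ∈ W ∧ ∀ i ∈ R, ∀ j ∈ R, i ≠ j → ρ (swap i j) v = -v}
        zero_mem' := ⟨W.zero_mem, fun i _ j _ _ => by rw [map_zero, neg_zero]⟩
        add_mem' := fun {a b} ha hb => ⟨W.add_mem ha.1 hb.1, fun i hi j hj hij => by
          rw [map_add, ha.2 i hi j hj hij, hb.2 i hi j hj hij]; abel⟩
        smul_mem' := fun c a ha => ⟨W.smul_mem c ha.1, fun i hi j hj hij => by
          rw [map_smul, ha.2 i hi j hj hij, smul_neg]⟩ }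
    have hmemW' : ∀ v, v ∈ W' ↔ v ∈ W ∧ ∀ i ∈ R, ∀ j ∈ R, i ≠ j → ρ (swap i j) v = -v :=
      fun v => Iff.rfl
    suffices H : ∃ c : X → ℕ, (∀ i ∈ U \ R, c i < g) ∧ ∃ v ∈ W', v ≠ 0 ∧
        ∀ i ∈ U \ R, ∀ j ∈ U \ R, i ≠ j → c i = c j → ρ (swap i j) v = -v by
      obtain ⟨c, hc, v, hv, hv0, hcv⟩ := H
      refine ⟨fun i => if i ∈ R then g else c i, ?_, v, hv.1, hv0, ?_⟩
      · intro i hi
        by_cases h : i ∈ R
        · simp [h]
        · have := hc i (mem_sdiff.2 ⟨hi, h⟩)
          simp only [h, if_false]
          omega
      · intro i hi j hj hij h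
        by_cases hiR : i ∈ R <;> by_cases hjR : j ∈ R
        · exact hv.2 i hiR j hjR hij
        · have := hc j (mem_sdiff.2 ⟨hj, hjR⟩)
          simp only [hiR, hjR, if_true, if_false] at h
          omega
        · have := hc i (mem_sdiff.2 ⟨hi, hiR⟩)
          simp only [hiR, hjR, if_true, if_false] at h
          omega
        · simp only [hiR, hjR, if_false] at h
          exact hcv i (mem_sdiff.2 ⟨hi, hiR⟩) j (mem_sdiff.2 ⟨hj, hjR⟩) hij h
    refine ih (U \ R) W' ?_ ?_ ?_
    · -- stability
      intro i hi j hj v hv
      rw [mem_sdiff] at hi hj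
      refine ⟨hst i hi.1 j hj.1 v hv.1, ?_⟩
      intro a ha b hb hab
      have hia : i ≠ a := fun h => hi.2 (h ▸ ha)
      have hja : j ≠ a := fun h => hj.2 (h ▸ ha)
      have hib : i ≠ b := fun h => hi.2 (h ▸ hb)
      have hjb : j ≠ b := fun h => hj.2 (h ▸ hb)
      rw [rho_swap_swap ρ a b i j v, swap_apply_of_ne_of_ne hia hib,
        swap_apply_of_ne_of_ne hja hjb, hv.2 a ha b hb hab, map_neg]
    · obtain ⟨v, hv, hv0, h⟩ := hRQ
      exact ⟨v, ⟨hv, h⟩, hv0⟩
    · -- no fixed vectors
      intro T hT hTc v hv hTv
      have hTR : ∀ y ∈ T, y ∉ R := fun y hy => (mem_sdiff.1 (hT hy)).2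
      have hTU : ∀ y ∈ T, y ∈ U := fun y hy => (mem_sdiff.1 (hT hy)).1
      -- symmetrization
      have h1 : ∀ t ∈ R, v + ∑ y ∈ T, ρ (swap t y) v = 0 := by
        intro t ht
        have htT : t ∉ T := fun h => hTR t h ht
        refine hfix (insert t T) ?_ ?_ _ ?_ ?_
        · intro x hx
          rcases mem_insert.1 hx with rfl | hx
          · exact hRU ht
          · exact hTU x hx
        · rw [card_insert_of_notMem htT, hTc]
        · exact W.add_mem hv.1 (W.sum_mem fun y hy => hst t (hRU ht) y (hTU y hy) v hv.1)
        · -- invariance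
          have key : ∀ y0 ∈ T, ρ (swap t y0) (v + ∑ y ∈ T, ρ (swap t y) v) =
              v + ∑ y ∈ T, ρ (swap t y) v := by
            intro y0 hy0
            rw [map_add, map_sum, ← Finset.add_sum_erase T _ hy0,
              ← Finset.add_sum_erase T (fun y => ρ (swap t y) v) hy0]
            have e1 : ρ (swap t y0) (ρ (swap t y0) v) = v := by
              rw [← Module.End.mul_apply, ← map_mul, swap_mul_self, map_one,
                Module.End.one_apply]
            have e2 : ∀ y ∈ T.erase y0, ρ (swap t y0) (ρ (swap t y) v) = ρ (swap t y) v := by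
              intro y hy
              have hy' := mem_erase.1 hy
              have hy0t : y0 ≠ t := fun h => htT (h ▸ hy0)
              rw [rho_swap_swap' ρ t y0 t y v, swap_apply_left,
                swap_apply_of_ne_of_ne hy0t (Ne.symm hy'.1),
                hTv y hy'.2 y0 hy0]
            rw [e1, Finset.sum_congr rfl e2]
            abel
          have key2 : ∀ i ∈ T, ∀ j ∈ T, ρ (swap i j) (v + ∑ y ∈ T, ρ (swap t y) v) =
              v + ∑ y ∈ T, ρ (swap t y) v := by
            intro i hi j hj
            have hit : t ≠ i := fun h => htT (h ▸ hi)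
            have hjt : t ≠ j := fun h => htT (h ▸ hj)
            rw [map_add, map_sum, hTv i hi j hj]
            congr 1
            refine Finset.sum_nbij' (fun y => swap i j y) (fun y => swap i j y) ?_ ?_ ?_ ?_ ?_
            · intro y hy
              rcases eq_or_ne y i with rfl | h1
              · rw [swap_apply_left]; exact hj
              · rcases eq_or_ne y j with rfl | h2
                · rw [swap_apply_right]; exact hi
                · rw [swap_apply_of_ne_of_ne h1 h2]; exact hy
            · intro y hy
              rcases eq_or_ne y i with rfl | h1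
              · rw [swap_apply_left]; exact hj
              · rcases eq_or_ne y j with rfl | h2
                · rw [swap_apply_right]; exact hi
                · rw [swap_apply_of_ne_of_ne h1 h2]; exact hy
            · intro y _; exact swap_apply_self i j y
            · intro y _; exact swap_apply_self i j y
            · intro y _
              rw [rho_swap_swap ρ i j t y v, swap_apply_of_ne_of_ne hit hjt, hTv i hi j hj]
          intro i hi j hj
          rcases mem_insert.1 hi with hi' | hi'
          · rcases mem_insert.1 hj with hj' | hj'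
            · rw [hi', hj', swap_self]
              change ρ 1 _ = _
              rw [map_one, Module.End.one_apply]
            · rw [hi']; exact key j hj'
          · rcases mem_insert.1 hj with hj' | hj'
            · rw [hj', swap_comm]; exact key i hi'
            · exact key2 i hi' j hj'
      have h2 : ∀ y ∈ T, v - ∑ t ∈ R, ρ (swap t y) v = 0 := by
        intro y hy
        by_contra hcon
        have hyR : y ∉ R := hTR y hy
        have hQ : Q (insert y R) := by
          refine ⟨v - ∑ t ∈ R, ρ (swap t y) v, ?_, hcon, ?_⟩
          · exact W.sub_mem hv.1 (W.sum_mem fun t ht => hst t (hRU ht) y (hTU y hy) v hv.1)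
          · have key : ∀ t0 ∈ R, ρ (swap t0 y) (v - ∑ t ∈ R, ρ (swap t y) v) =
                -(v - ∑ t ∈ R, ρ (swap t y) v) := by
              intro t0 ht0
              have ht0y : t0 ≠ y := fun h => hyR (h ▸ ht0)
              rw [map_sub, map_sum, ← Finset.add_sum_erase R _ ht0,
                ← Finset.add_sum_erase R (fun t => ρ (swap t y) v) ht0]
              have e1 : ρ (swap t0 y) (ρ (swap t0 y) v) = v := by
                rw [← Module.End.mul_apply, ← map_mul, swap_mul_self, map_one,
                  Module.End.one_apply]
              have e2 : ∀ t ∈ R.erase t0, ρ (swap t0 y) (ρ (swap t y) v) =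
                  - ρ (swap t y) v := by
                intro t ht
                have ht' := mem_erase.1 ht
                rw [rho_swap_swap' ρ t0 y t y v, swap_apply_right,
                  swap_apply_of_ne_of_ne (Ne.symm ht'.1) ht0y,
                  hv.2 t0 ht0 t ht'.2 (Ne.symm ht'.1), map_neg]
              rw [e1, Finset.sum_congr rfl e2, Finset.sum_neg_distrib]
              abel
            have key2 : ∀ i ∈ R, ∀ j ∈ R, i ≠ j → ρ (swap i j) (v - ∑ t ∈ R, ρ (swap t y) v) =
                -(v - ∑ t ∈ R, ρ (swap t y) v) := by
              intro i hi j hj hij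
              have hiy : y ≠ i := fun h => hyR (h ▸ hi)
              have hjy : y ≠ j := fun h => hyR (h ▸ hj)
              have e3 : ∑ t ∈ R, ρ (swap i j) (ρ (swap t y) v) = ∑ t ∈ R, -ρ (swap t y) v := by
                refine Finset.sum_nbij' (fun y => swap i j y) (fun y => swap i j y) ?_ ?_ ?_ ?_ ?_
                · intro y hy
                  rcases eq_or_ne y i with rfl | h1
                  · rw [swap_apply_left]; exact hj
                  · rcases eq_or_ne y j with rfl | h2
                    · rw [swap_apply_right]; exact hi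
                    · rw [swap_apply_of_ne_of_ne h1 h2]; exact hy
                · intro y hy
                  rcases eq_or_ne y i with rfl | h1
                  · rw [swap_apply_left]; exact hj
                  · rcases eq_or_ne y j with rfl | h2
                    · rw [swap_apply_right]; exact hi
                    · rw [swap_apply_of_ne_of_ne h1 h2]; exact hy
                · intro y _; exact swap_apply_self i j y
                · intro y _; exact swap_apply_self i j y
                · intro t _
                  rw [rho_swap_swap ρ i j t y v, swap_apply_of_ne_of_ne hiy hjy,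
                    hv.2 i hi j hj hij, map_neg]
              rw [map_sub, map_sum, hv.2 i hi j hj hij, e3, Finset.sum_neg_distrib]
              abel
            intro i hi j hj hij
            rcases mem_insert.1 hi with hi' | hi'
            · rcases mem_insert.1 hj with hj' | hj'
              · exact absurd (hi'.trans hj'.symm) hij
              · rw [hi', swap_comm]; exact key j hj'
            · rcases mem_insert.1 hj with hj' | hj'
              · rw [hj']; exact key i hi'
              · exact key2 i hi' j hj' hij
        have h3 := hmax (insert y R) (by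
          rw [mem_filter, mem_powerset]
          refine ⟨?_, hQ⟩
          intro x hx
          rcases mem_insert.1 hx with rfl | hx
          · exact hTU x hy
          · exact hRU hx)
        rw [card_insert_of_notMem hyR] at h3
        omega
      have h3 : ∑ t ∈ R, (v + ∑ y ∈ T, ρ (swap t y) v) = 0 := Finset.sum_eq_zero h1
      have h4 : ∑ y ∈ T, (v - ∑ t ∈ R, ρ (swap t y) v) = 0 := Finset.sum_eq_zero h2
      rw [Finset.sum_add_distrib, Finset.sum_const] at h3
      rw [Finset.sum_sub_distrib, Finset.sum_const, Finset.sum_comm] at h4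
      have h5 : (R.card + T.card) • v = 0 := by
        rw [add_smul]
        calc R.card • v + T.card • v
            = (R.card • v + ∑ t ∈ R, ∑ y ∈ T, ρ (swap t y) v) +
              (T.card • v - ∑ t ∈ R, ∑ y ∈ T, ρ (swap t y) v) := by abel
          _ = 0 := by rw [h3, h4, add_zero]
      rw [← Nat.cast_smul_eq_nsmul ℚ, smul_eq_zero] at h5
      rcases h5 with h5 | h5
      · exfalso
        have h6 : R.card + T.card = 0 := by exact_mod_cast h5
        omega
      · exact h5

end

/-- The permutations of `X` which move only elements of `T`. -/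
def PT {X : Type*} [Fintype X] [DecidableEq X] (T : Finset X) : Finset (Perm X) :=
  univ.filter fun τ => ∀ x, x ∉ T → τ x = x

theorem mem_PT {X : Type*} [Fintype X] [DecidableEq X] {T : Finset X} {τ : Perm X} :
    τ ∈ PT T ↔ ∀ x, x ∉ T → τ x = x := by
  simp [PT]

/-- Induction on the permutations of `T` by means of transpositions. -/
theorem PT_induction {X : Type*} [Fintype X] [DecidableEq X] {T : Finset X}
    {P : Perm X → Prop} (h1 : P 1) (h2 : ∀ i ∈ T, ∀ j ∈ T, ∀ τ, P τ → P (swap i j * τ))
    {τ : Perm X} (hτ : τ ∈ PT T) : P τ := by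
  rw [mem_PT] at hτ
  have hmap : ∀ x, x ∈ T ↔ τ x ∈ T := by
    intro x
    constructor
    · intro hx
      by_contra h
      have := hτ (τ x) h
      rw [τ.injective.eq_iff] at this
      rw [this] at h
      exact h hx
    · intro hx
      by_contra h
      rw [hτ x h] at hx
      exact h hx
  have key : ∀ s : Perm {x // x ∈ T}, P (Perm.ofSubtype s) := by
    intro s
    induction s using Equiv.Perm.swap_induction_on with
    | one => rw [map_one]; exact h1
    | swap_mul f x y _ ih =>
      rw [map_mul, Perm.ofSubtype_swap_eq]
      exact h2 _ x.2 _ y.2 _ ih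
  have h3 := key (τ.subtypePerm fun x => (hmap x).symm)
  rwa [Perm.ofSubtype_subtypePerm (fun x => (hmap x).symm)] at h3
  intro x hx
  by_contra h
  exact hx (hτ x h)

end Pool.Agent.J4.H17.ZC
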