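import Pool.Agent.J4.H17.ZC.Fun

/-!
# Functions on the symmetric group of the set of the elements of pairs
-/

set_option autoImplicit false

namespace Pool.Agent.J4.H17.ZC

open Equiv Finset

section

variable {n : ℕ}

/-- the exchange of the elements of the pair `m` -/
def flip (m : Fin n) : Perm (Fin n × Bool) := swap (m, false) (m, true)

/-- the permutation of the pairs -/
def prm (σ : Perm (Fin n)) : Perm (Fin n × Bool) := Equiv.prodCongr σ (Equiv.refl Bool)

theorem prm_apply (σ : Perm (Fin n)) (i : Fin n) (b : Bool) : prm σ (i, b) = (σ i, b) := rfl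

theorem cross_eq {m m' : Fin n} (h : m ≠ m') :
    swap (m, true) (m', false) * swap (m, false) (m', true) =
      flip m * flip m' * prm (swap m m') := by
  ext1 ⟨i, e⟩
  have h' : m' ≠ m := h.symm
  rw [Perm.mul_apply, Perm.mul_apply, Perm.mul_apply, prm_apply]
  unfold flip
  by_cases h1 : i = m
  · subst h1
    cases e <;> simp [swap_apply_def, h, h']
  · by_cases h2 : i = m'
    · subst h2
      cases e <;> simp [swap_apply_def, h, h']
    · cases e <;> simp [swap_apply_def, h1, h2]

variable (n) in
/-- the functions which are invariant under exchanges in the pairs, alternating under permutations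
of the pairs, and killed by symmetrization in `g + 1` elements on the right -/
def killed2 (g : ℕ) : Submodule ℚ (Perm (Fin n × Bool) → ℚ) where
  carrier := {f | (∀ T : Finset (Fin n × Bool), T.card = g + 1 → ∀ u,
      ∑ τ ∈ PT T, f (u * τ) = 0) ∧
    (∀ m u, f (flip m * u) = f u) ∧
    ∀ σ u, f (prm σ * u) = ((Perm.sign σ : ℤ) : ℚ) * f u}
  zero_mem' := ⟨fun T _ u => by simp, fun m u => rfl, fun σ u => by simp⟩
  add_mem' := fun {f g} hf hg => ⟨fun T hT u => by
      simp only [Pi.add_apply, Finset.sum_add_distrib, hf.1 T hT u, hg.1 T hT u, add_zero],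
    fun m u => by rw [Pi.add_apply, Pi.add_apply, hf.2.1, hg.2.1],
    fun σ u => by rw [Pi.add_apply, Pi.add_apply, hf.2.2, hg.2.2, mul_add]⟩
  smul_mem' := fun c f hf => ⟨fun T hT u => by
      simp only [Pi.smul_apply, smul_eq_mul, ← Finset.mul_sum, hf.1 T hT u, mul_zero],
    fun m u => by rw [Pi.smul_apply, Pi.smul_apply, hf.2.1],
    fun σ u => by rw [Pi.smul_apply, Pi.smul_apply, hf.2.2, smul_eq_mul, smul_eq_mul]; ring⟩

theorem rtr_killed2 {g : ℕ} (σ : Perm (Fin n × Bool)) {f : Perm (Fin n × Bool) → ℚ}
    (hf : f ∈ killed2 n g) : rtr (Fin n × Bool) σ f ∈ killed2 n g := by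
  refine ⟨?_, ?_, ?_⟩
  · intro T hT u
    have h := hf.1 (T.map (σ⁻¹).toEmbedding) (by rw [card_map, hT]) (u * σ)
    rw [← sum_conj] at h
    rw [← h]
    refine Finset.sum_congr rfl fun τ _ => ?_
    rw [rtr_apply]
    congr 1
    group
  · intro m u
    rw [rtr_apply, rtr_apply, mul_assoc, hf.2.1]
  · intro τ u
    rw [rtr_apply, rtr_apply, mul_assoc, hf.2.2]

/-- The functions in `killed2` are zero if the number of the pairs is greater than the number of
the pairs of colours. -/
theorem killed2_eq_zero {g : ℕ} (hn : g.choose 2 < n) {f : Perm (Fin n × Bool) → ℚ}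
    (hf : f ∈ killed2 n g) : f = 0 := by
  classical
  by_contra hf0
  obtain ⟨c, hc, v, hv, hv0, hcv⟩ := exists_coloring (rtr (Fin n × Bool)) g univ (killed2 n g)
    (fun i _ j _ v hv => rtr_killed2 _ hv) ⟨f, hf, hf0⟩ (by
      intro T _ hT v hv hfix
      have h1 : ∀ τ ∈ PT T, ∀ u, v (u * τ) = v u := by
        intro τ hτ
        refine PT_induction (P := fun τ => ∀ u, v (u * τ) = v u) (by simp) ?_ hτ
        intro i hi j hj τ h u
        rw [← mul_assoc, h]
        have := congrFun (hfix i hi j hj) u
        rwa [rtr_apply] at this
      ext u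
      have h2 := hv.1 T hT u
      rw [Finset.sum_congr rfl fun τ hτ => h1 τ hτ u, Finset.sum_const, nsmul_eq_mul,
        mul_eq_zero] at h2
      rcases h2 with h2 | h2
      · exfalso
        have h3 : (PT T).card = 0 := by exact_mod_cast h2
        rw [Finset.card_eq_zero] at h3
        have h4 : (1 : Perm (Fin n × Bool)) ∈ PT T := by rw [mem_PT]; intro x _; rfl
        rw [h3] at h4
        exact absurd h4 (Finset.notMem_empty _)
      · exact h2)
  have hcv' : ∀ i j, i ≠ j → c i = c j → ∀ u, v (u * swap i j) = - v u := by
    intro i j hij h u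
    have := congrFun (hcv i (mem_univ _) j (mem_univ _) hij h) u
    rwa [rtr_apply, Pi.neg_apply] at this
  apply hv0
  funext u
  by_contra hu
  have hu' : v u ≠ 0 := hu
  -- the colours of the elements of the pairs
  let b : Fin n → Bool → ℕ := fun m e => c (u.symm (m, e))
  have hb : ∀ m e m' e', (m, e) ≠ (m', e') → b m e = b m' e' →
      v (swap (m, e) (m', e') * u) = - v u := by
    intro m e m' e' hne h
    have h1 := hcv' (u.symm (m, e)) (u.symm (m', e')) (fun h => hne (u.symm.injective h)) h u
    rw [Equiv.mul_swap_eq_swap_mul, Equiv.apply_symm_apply, Equiv.apply_symm_apply] at h1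
    exact h1
  have hbu : ∀ (w : Perm (Fin n × Bool)) m e m' e', (m, e) ≠ (m', e') →
      c (w.symm (m, e)) = c (w.symm (m', e')) → v (swap (m, e) (m', e') * w) = - v w := by
    intro w m e m' e' hne h
    have h1 := hcv' (w.symm (m, e)) (w.symm (m', e')) (fun h => hne (w.symm.injective h)) h w
    rw [Equiv.mul_swap_eq_swap_mul, Equiv.apply_symm_apply, Equiv.apply_symm_apply] at h1
    exact h1
  have hne : ∀ m, b m false ≠ b m true := by
    intro m h
    have h1 := hb m false m true (by simp) h
    have h2 := hv.2.1 m u
    unfold flip at h2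
    rw [h2] at h1
    apply hu'
    linarith
  -- the pairs of colours
  have hcard : ((range g).powersetCard 2).card < (univ : Finset (Fin n)).card := by
    rw [card_powersetCard, card_range, card_univ, Fintype.card_fin]
    exact hn
  obtain ⟨m, _, m', _, hmm, hpair⟩ := Finset.exists_ne_map_eq_of_card_lt_of_maps_to hcard
    (f := fun m => {b m false, b m true}) (by
      intro m _
      rw [Finset.mem_coe, Finset.mem_powersetCard]
      refine ⟨?_, ?_⟩
      · intro x hx
        simp only [Finset.mem_insert, Finset.mem_singleton] at hx
        rw [Finset.mem_range]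
        rcases hx with rfl | rfl
        · exact hc _ (mem_univ _)
        · exact hc _ (mem_univ _)
      · exact Finset.card_pair (hne m))
  have hpair' : ({b m false, b m true} : Finset ℕ) = {b m' false, b m' true} := hpair
  have hsgn : v (prm (swap m m') * u) = - v u := by
    rw [hv.2.2, Perm.sign_swap hmm]
    push_cast
    ring
  have hpair2 : (b m false = b m' false ∧ b m true = b m' true) ∨
      (b m false = b m' true ∧ b m true = b m' false) := by
    have h1 : b m false ∈ ({b m' false, b m' true} : Finset ℕ) := by
      rw [← hpair']; simp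
    have h2 : b m true ∈ ({b m' false, b m' true} : Finset ℕ) := by
      rw [← hpair']; simp
    have h3 := hne m
    simp only [Finset.mem_insert, Finset.mem_singleton] at h1 h2
    omega
  rcases hpair2 with ⟨h1, h2⟩ | ⟨h1, h2⟩
  · have h3 := hb m false m' false (fun h => hmm (congrArg Prod.fst h)) h1
    have h4 := hbu (swap (m, false) (m', false) * u) m true m' true
      (fun h => hmm (congrArg Prod.fst h)) (by
        have e1 : (swap (m, false) (m', false) * u).symm (m, true) = u.symm (m, true) := by
          rw [Equiv.symm_apply_eq, Perm.mul_apply, Equiv.apply_symm_apply,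
            swap_apply_of_ne_of_ne (by simp) (by simp)]
        have e2 : (swap (m, false) (m', false) * u).symm (m', true) = u.symm (m', true) := by
          rw [Equiv.symm_apply_eq, Perm.mul_apply, Equiv.apply_symm_apply,
            swap_apply_of_ne_of_ne (by simp) (by simp)]
        rw [e1, e2]
        exact h2)
    have h5 : swap (m, true) (m', true) * (swap (m, false) (m', false) * u) =
        prm (swap m m') * u := by
      rw [← mul_assoc]
      congr 1
      ext1 ⟨i, e⟩
      rw [prm_apply, Perm.mul_apply]
      rcases eq_or_ne i m with rfl | hi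
      · cases e
        · rw [swap_apply_left, swap_apply_left, swap_apply_of_ne_of_ne (by simp) (by simp)]
        · rw [swap_apply_left, swap_apply_of_ne_of_ne (a := (i, false)) (by simp) (by simp),
            swap_apply_left]
      · rcases eq_or_ne i m' with rfl | hi'
        · cases e
          · rw [swap_apply_right, swap_apply_right, swap_apply_of_ne_of_ne (by simp) (by simp)]
          · rw [swap_apply_right, swap_apply_of_ne_of_ne (a := (m, false)) (by simp) (by simp),
              swap_apply_right]
        · rw [swap_apply_of_ne_of_ne hi hi', swap_apply_of_ne_of_ne (a := (m, false))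
            (by simp [hi]) (by simp [hi']), swap_apply_of_ne_of_ne (by simp [hi]) (by simp [hi'])]
    rw [h5, h3, hsgn] at h4
    apply hu'
    linarith
  · have h3 := hb m false m' true (fun h => hmm (congrArg Prod.fst h)) h1
    have h4 := hbu (swap (m, false) (m', true) * u) m true m' false
      (fun h => hmm (congrArg Prod.fst h)) (by
        have e1 : (swap (m, false) (m', true) * u).symm (m, true) = u.symm (m, true) := by
          rw [Equiv.symm_apply_eq, Perm.mul_apply, Equiv.apply_symm_apply,
            swap_apply_of_ne_of_ne (by simp) (by simp [hmm])]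
        have e2 : (swap (m, false) (m', true) * u).symm (m', false) = u.symm (m', false) := by
          rw [Equiv.symm_apply_eq, Perm.mul_apply, Equiv.apply_symm_apply,
            swap_apply_of_ne_of_ne (by simp [hmm.symm]) (by simp)]
        rw [e1, e2]
        exact h2)
    have h5 : swap (m, true) (m', false) * (swap (m, false) (m', true) * u) =
        flip m * (flip m' * (prm (swap m m') * u)) := by
      rw [← mul_assoc, ← mul_assoc, ← mul_assoc, cross_eq hmm]
    rw [h5, hv.2.1, hv.2.1, h3, hsgn] at h4
    apply hu'
    linarith

end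

end Pool.Agent.J4.H17.ZC
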