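import Pool.Agent.J4.H17.ZC.Prd
import Pool.Agent.J4.H17.ZC.SFun

/-!
# Symmetric zero-cycles on powers of the square of a curve
-/

set_option autoImplicit false

open FF Equiv

namespace Pool.Agent.J4.H17.ZC

section comb

variable {n : ℕ}

/-- the exchange in the pairs `m` with `e m` -/
def fl (e : Fin n → Bool) : Perm (Fin n × Bool) where
  toFun x := (x.1, xor x.2 (e x.1))
  invFun x := (x.1, xor x.2 (e x.1))
  left_inv x := by
    rcases x with ⟨i, b⟩
    simp
  right_inv x := by
    rcases x with ⟨i, b⟩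
    simp

theorem fl_apply (e : Fin n → Bool) (i : Fin n) (b : Bool) : fl e (i, b) = (i, xor b (e i)) := rfl

theorem fl_flip (e : Fin n → Bool) (σ : Perm (Fin n)) (m : Fin n) :
    fl e * prm σ * flip m = fl (Function.update e (σ m) (!e (σ m))) * prm σ := by
  ext1 ⟨i, b⟩
  rw [Perm.mul_apply, Perm.mul_apply, Perm.mul_apply]
  unfold flip
  by_cases h : i = m
  · subst h
    cases b
    · rw [swap_apply_left, prm_apply, prm_apply, fl_apply, fl_apply, Function.update_self]
      simp
    · rw [swap_apply_right, prm_apply, prm_apply, fl_apply, fl_apply, Function.update_self]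
      simp
  · rw [swap_apply_of_ne_of_ne (by simp [h]) (by simp [h]), prm_apply, fl_apply, fl_apply,
      Function.update_of_ne (fun h' => h (σ.injective h'))]

theorem prm_mul (σ τ : Perm (Fin n)) : prm (σ * τ) = prm σ * prm τ := rfl

/-- The combination of the values of a function at the elements of the wreath product. -/
theorem comb2 {g : ℕ} (hn : g.choose 2 < n) (Φ : Perm (Fin n × Bool) → ℚ)
    (hΦ : ∀ T : Finset (Fin n × Bool), T.card = g + 1 → ∀ u, ∑ τ ∈ PT T, Φ (u * τ) = 0) :
    ∑ σ : Perm (Fin n), ((Perm.sign σ : ℤ) : ℚ) * ∑ e : Fin n → Bool, Φ (fl e * prm σ) = 0 := by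
  classical
  let f : Perm (Fin n × Bool) → ℚ := fun u =>
    ∑ σ : Perm (Fin n), ((Perm.sign σ : ℤ) : ℚ) * ∑ e : Fin n → Bool, Φ (fl e * prm σ * u)
  have hf : f ∈ killed2 n g := by
    refine ⟨?_, ?_, ?_⟩
    · intro T hT u
      change ∑ τ ∈ PT T, ∑ σ : Perm (Fin n), ((Perm.sign σ : ℤ) : ℚ) *
        ∑ e : Fin n → Bool, Φ (fl e * prm σ * (u * τ)) = 0
      rw [Finset.sum_comm]
      refine Finset.sum_eq_zero fun σ _ => ?_
      rw [← Finset.mul_sum, Finset.sum_comm, Finset.sum_eq_zero, mul_zero]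
      intro e _
      have h1 := hΦ T hT (fl e * prm σ * u)
      rw [← h1]
      refine Finset.sum_congr rfl fun τ _ => ?_
      simp only [mul_assoc]
    · intro m u
      change ∑ σ : Perm (Fin n), ((Perm.sign σ : ℤ) : ℚ) *
        ∑ e : Fin n → Bool, Φ (fl e * prm σ * (flip m * u)) =
        ∑ σ : Perm (Fin n), ((Perm.sign σ : ℤ) : ℚ) * ∑ e : Fin n → Bool, Φ (fl e * prm σ * u)
      refine Finset.sum_congr rfl fun σ _ => ?_
      congr 1
      have hinv : ∀ e : Fin n → Bool, Function.update (Function.update e (σ m) (!e (σ m))) (σ m)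
          (!(Function.update e (σ m) (!e (σ m)) (σ m))) = e := by
        intro e
        rw [Function.update_self, Bool.not_not, Function.update_idem, Function.update_eq_self]
      refine Fintype.sum_bijective (fun e : Fin n → Bool => Function.update e (σ m) (!e (σ m)))
        (Function.Involutive.bijective hinv) _ _ fun e => ?_
      rw [← mul_assoc, fl_flip]
    · intro τ u
      change ∑ σ : Perm (Fin n), ((Perm.sign σ : ℤ) : ℚ) *
        ∑ e : Fin n → Bool, Φ (fl e * prm σ * (prm τ * u)) = ((Perm.sign τ : ℤ) : ℚ) *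
        ∑ σ : Perm (Fin n), ((Perm.sign σ : ℤ) : ℚ) * ∑ e : Fin n → Bool, Φ (fl e * prm σ * u)
      rw [Finset.mul_sum]
      refine Fintype.sum_equiv (Equiv.mulRight τ) _ _ fun σ => ?_
      rw [Equiv.coe_mulRight, ← mul_assoc, Perm.sign_mul]
      have h1 : ((Perm.sign τ : ℤ) : ℚ) * ((Perm.sign τ : ℤ) : ℚ) = 1 := by
        have h2 : (Perm.sign τ : ℤ) * (Perm.sign τ : ℤ) = 1 := by
          rw [← Units.val_mul, Int.units_mul_self]; rfl
        exact_mod_cast h2
      have h3 : ∀ e : Fin n → Bool, fl e * prm σ * (prm τ * u) = fl e * prm (σ * τ) * u := by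
        intro e
        rw [prm_mul]
        simp only [mul_assoc]
      rw [Finset.sum_congr rfl fun e _ => congrArg Φ (h3 e)]
      push_cast
      calc ((Perm.sign σ : ℤ) : ℚ) * ∑ e : Fin n → Bool, Φ (fl e * prm (σ * τ) * u)
          = (((Perm.sign τ : ℤ) : ℚ) * ((Perm.sign τ : ℤ) : ℚ)) * (((Perm.sign σ : ℤ) : ℚ) *
            ∑ e : Fin n → Bool, Φ (fl e * prm (σ * τ) * u)) := by rw [h1, one_mul]
        _ = _ := by ring
  have h0 : f = 0 := killed2_eq_zero hn hf
  have h1 : f 1 = 0 := by rw [h0]; rfl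
  rw [← h1]
  rfl

end comb

section

variable {k : Type} [Field k] [CharZero k] {K : Type} [Field K] [Algebra k K] [IsFF k K]

/-- the points of a power of the square of the curve given by a family of points -/
def FF2 {C : Type} {n : ℕ} (w : Fin n × Bool → C) : Fin n → C × C :=
  fun i => (w (i, false), w (i, true))

theorem sym_vanish [IsAlgClosed k] {g : ℕ} (hg : HasGenus k K g) (o : Place k K) {n : ℕ}
    (hn : g.choose 2 < n) (w : Fin n × Bool → Place k K)
    (l : ((Fin n → Place k K × Place k K) →₀ ℤ) →+ ℚ)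
    (hl : ∀ r ∈ RatEq (((curve k K).prod (curve k K)).pow (Fin n)), l r = 0) :
    ∑ σ : Perm (Fin n), ((Perm.sign σ : ℤ) : ℚ) * ∑ e : Fin n → Bool,
      l (EE sg4 (th4 o o) n (Finsupp.single (FF2 fun j => w ((fl e * prm σ) j)) 1)) = 0 := by
  classical
  refine comb2 hn (fun u => l (EE sg4 (th4 o o) n
    (Finsupp.single (FF2 fun j => w (u j)) 1))) ?_
  intro T hT u
  obtain ⟨N, hN, h⟩ := fam_rel hg (X := (curve k K).prod (curve k K)) (I := Fin n × Bool)
    (F := FF2) (by
      intro L _ _ x hx i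
      exact ⟨hx (i, false), hx (i, true)⟩) o sg4 (th4 o o) (th4_reg o o) (by
      rintro w ⟨i, b⟩ hw
      rw [← extM_apply]
      refine MultilinearMap.map_coord_zero _ i ?_
      cases b
      · have h1 : FF2 w i = (o, w (i, true)) := by
          unfold FF2; rw [hw]
        rw [h1, ec4_left]
      · have h1 : FF2 w i = (w (i, false), o) := by
          unfold FF2; rw [hw]
        rw [h1, ec4_right]) T hT (fun j => w (u j))
  have h3 := hl _ h
  rw [map_nsmul, map_sum] at h3
  rcases smul_eq_zero.1 h3 with h4 | h4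
  · omega
  · rw [← h4]
    refine Finset.sum_congr rfl fun τ _ => ?_
    rw [EE_single]
    rfl

end

end Pool.Agent.J4.H17.ZC
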